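import Mathlib

set_option autoImplicit false

/-!
# Filtration of an algebra by total degree in finitely many generators

`κ` is a field, `R` a commutative algebra over `κ[X]`, `w` is the image of `X` in `R`, and `x i`
are elements of `R` with `P (x i) = w + c i` for one polynomial `P` of degree `d`.
-/

open Polynomial

namespace Pool.Agent.W_cae956_st

section basic

variable {κ : Type*} [Field κ] {R : Type*} [CommRing R] [Algebra κ R] {ι : Type*} [Fintype ι]

/-- the `κ`-span of the monomials of total degree at most `n` in the elements `x i` -/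
def Fil (x : ι → R) (n : ℕ) : Submodule κ R :=
  Submodule.span κ {y | ∃ a : ι → ℕ, ∑ i, a i ≤ n ∧ y = ∏ i, x i ^ a i}

theorem Fil_mono (x : ι → R) {n m : ℕ} (h : n ≤ m) :
    (Fil x n : Submodule κ R) ≤ Fil x m := by
  refine Submodule.span_mono ?_
  rintro y ⟨a, ha, rfl⟩
  exact ⟨a, ha.trans h, rfl⟩

theorem Fil_one (x : ι → R) (n : ℕ) : (1 : R) ∈ (Fil x n : Submodule κ R) := by
  exact Submodule.subset_span ⟨fun _ => 0, by simp, by simp⟩

theorem Fil_gen (x : ι → R) (i : ι) : x i ∈ (Fil x 1 : Submodule κ R) := by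
  classical
  refine Submodule.subset_span ⟨Pi.single i 1, ?_, ?_⟩
  · rw [Finset.sum_pi_single']
    simp
  · rw [Finset.prod_eq_single i]
    · simp
    · intro j _ hj
      simp [hj]
    · intro h
      exact absurd (Finset.mem_univ i) h

theorem Fil_mul (x : ι → R) {n m : ℕ} {y z : R} (hy : y ∈ (Fil x n : Submodule κ R))
    (hz : z ∈ (Fil x m : Submodule κ R)) : y * z ∈ (Fil x (n + m) : Submodule κ R) := by
  have h1 : y * z ∈ (Fil x n : Submodule κ R) * (Fil x m : Submodule κ R) :=
    Submodule.mul_mem_mul hy hz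
  unfold Fil at h1
  rw [Submodule.span_mul_span] at h1
  refine Submodule.span_le.2 ?_ h1
  rintro _ ⟨_, ⟨a, ha, rfl⟩, _, ⟨b, hb, rfl⟩, rfl⟩
  refine Submodule.subset_span ⟨fun i => a i + b i, ?_, ?_⟩
  · rw [Finset.sum_add_distrib]
    omega
  · simp only [pow_add, Finset.prod_mul_distrib]

theorem Fil_pow (x : ι → R) {n : ℕ} (l : ℕ) {y : R} (hy : y ∈ (Fil x n : Submodule κ R)) :
    y ^ l ∈ (Fil x (l * n) : Submodule κ R) := by
  induction l with
  | zero => 
    rw [pow_zero]
    exact Fil_one x _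
  | succ l ih =>
    rw [pow_succ, Nat.succ_mul]
    exact Fil_mul x ih hy

/-- a polynomial of degree at most `m` in an element of `Fil x n` -/
theorem Fil_aeval (x : ι → R) {n m : ℕ} (Q : κ[X]) (hQ : Q.natDegree ≤ m) {y : R}
    (hy : y ∈ (Fil x n : Submodule κ R)) :
    Polynomial.aeval y Q ∈ (Fil x (m * n) : Submodule κ R) := by
  rw [Polynomial.aeval_eq_sum_range]
  refine Submodule.sum_mem _ fun l hl => Submodule.smul_mem _ _ ?_
  have h1 : l ≤ m := by
    have := Finset.mem_range.1 hl
    omega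
  exact Fil_mono x (Nat.mul_le_mul_right n h1) (Fil_pow x l hy)

/-- induction principle: a family of subspaces absorbing the generators contains `Fil` -/
theorem Fil_le (x : ι → R) (W : ℕ → Submodule κ R) (h0 : (1 : R) ∈ W 0)
    (hmono : ∀ n, W n ≤ W (n + 1)) (hgen : ∀ n i, ∀ y ∈ W n, x i * y ∈ W (n + 1)) (n : ℕ) :
    (Fil x n : Submodule κ R) ≤ W n := by
  classical
  refine Submodule.span_le.2 ?_
  rintro _ ⟨a, ha, rfl⟩
  show ∏ i, x i ^ a i ∈ W n
  induction n generalizing a with
  | zero =>
    have h1 : ∀ i, a i = 0 := by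
      intro i
      have h2 : a i ≤ ∑ i, a i := Finset.single_le_sum (fun _ _ => Nat.zero_le _)
        (Finset.mem_univ i)
      omega
    simpa [h1] using h0
  | succ n ih =>
    by_cases h : ∑ i, a i ≤ n
    · exact hmono n (ih a h)
    · have h1 : ∃ i, 0 < a i := by
        by_contra hcon
        push Not at hcon
        have h2 : ∑ i, a i = 0 := Finset.sum_eq_zero fun i _ => Nat.le_zero.1 (hcon i)
        omega
      obtain ⟨i, hi⟩ := h1
      have h3 : ∏ j, x j ^ a j = x i * ∏ j, x j ^ (Function.update a i (a i - 1)) j := by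
        rw [← Finset.mul_prod_erase _ _ (Finset.mem_univ i),
          ← Finset.mul_prod_erase Finset.univ (fun j => x j ^ (Function.update a i (a i - 1)) j)
            (Finset.mem_univ i), ← mul_assoc, Function.update_self]
        congr 1
        · rw [← pow_succ']
          congr 1
          omega
        · refine Finset.prod_congr rfl fun j hj => ?_
          rw [Function.update_of_ne (Finset.ne_of_mem_erase hj)]
      have h4 : ∑ j, (Function.update a i (a i - 1)) j ≤ n := by
        have h5 : ∑ j, a j = a i + ∑ j ∈ Finset.univ.erase i, a j :=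
          (Finset.add_sum_erase _ _ (Finset.mem_univ i)).symm
        have h6 : ∑ j, (Function.update a i (a i - 1)) j = (a i - 1) +
            ∑ j ∈ Finset.univ.erase i, a j := by
          rw [← Finset.add_sum_erase _ _ (Finset.mem_univ i), Function.update_self]
          congr 1
          refine Finset.sum_congr rfl fun j hj => ?_
          rw [Function.update_of_ne (Finset.ne_of_mem_erase hj)]
        omega
      rw [h3]
      exact hgen n i _ (ih _ h4)

theorem Fil_finite (x : ι → R) (n : ℕ) : FiniteDimensional κ (Fil x n : Submodule κ R) := by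
  classical
  unfold Fil
  have h1 : ({a : ι → ℕ | ∑ i, a i ≤ n}).Finite := by
    refine (Set.finite_Iic (fun _ : ι => n)).subset ?_
    intro a ha i
    exact (Finset.single_le_sum (f := a) (fun _ _ => Nat.zero_le _) (Finset.mem_univ i)).trans ha
  have h2 : ({y | ∃ a : ι → ℕ, ∑ i, a i ≤ n ∧ y = ∏ i, x i ^ a i} : Set R).Finite := by
    refine (h1.image fun a => ∏ i, x i ^ a i).subset ?_
    rintro y ⟨a, ha, rfl⟩
    exact ⟨a, ha, rfl⟩
  exact FiniteDimensional.span_of_finite κ h2

/-- the union of the `Fil x n` is the subalgebra generated by the `x i` -/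
theorem mem_adjoin_iff (x : ι → R) (y : R) :
    y ∈ Algebra.adjoin κ (Set.range x) ↔ ∃ n, y ∈ (Fil x n : Submodule κ R) := by
  constructor
  · intro hy
    induction hy using Algebra.adjoin_induction with
    | mem z hz =>
      obtain ⟨i, rfl⟩ := hz
      exact ⟨1, Fil_gen x i⟩
    | algebraMap r =>
      refine ⟨0, ?_⟩
      rw [Algebra.algebraMap_eq_smul_one]
      exact Submodule.smul_mem _ _ (Fil_one x 0)
    | add z z' _ _ hz hz' =>
      obtain ⟨n, hn⟩ := hz
      obtain ⟨m, hm⟩ := hz'
      exact ⟨max n m, Submodule.add_mem _ (Fil_mono x (le_max_left _ _) hn)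
        (Fil_mono x (le_max_right _ _) hm)⟩
    | mul z z' _ _ hz hz' =>
      obtain ⟨n, hn⟩ := hz
      obtain ⟨m, hm⟩ := hz'
      exact ⟨n + m, Fil_mul x hn hm⟩
  · rintro ⟨n, hn⟩
    have h1 : (Fil x n : Submodule κ R) ≤
        Subalgebra.toSubmodule (Algebra.adjoin κ (Set.range x)) := by
      refine Submodule.span_le.2 ?_
      rintro _ ⟨a, _, rfl⟩
      show ∏ i, x i ^ a i ∈ Algebra.adjoin κ (Set.range x)
      exact prod_mem fun i _ => pow_mem (Algebra.subset_adjoin (Set.mem_range_self i)) _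
    exact h1 hn

/-- images under an algebra homomorphism -/
theorem Fil_map {R' : Type*} [CommRing R'] [Algebra κ R'] (f : R →ₐ[κ] R') (x : ι → R) {n : ℕ}
    {y : R} (hy : y ∈ (Fil x n : Submodule κ R)) :
    f y ∈ (Fil (fun i => f (x i)) n : Submodule κ R') := by
  have h1 : (Fil x n : Submodule κ R) ≤
      (Fil (fun i => f (x i)) n : Submodule κ R').comap f.toLinearMap := by
    refine Submodule.span_le.2 ?_
    rintro _ ⟨a, ha, rfl⟩
    show f (∏ i, x i ^ a i) ∈ (Fil (fun i => f (x i)) n : Submodule κ R')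
    rw [map_prod]
    simp only [map_pow]
    exact Submodule.subset_span ⟨a, ha, rfl⟩
  exact h1 hy

/-- the tensor product / product situation: products of monomials in two families -/
theorem Fil_sum {ι' : Type*} [Fintype ι'] (x : ι → R) (y : ι' → R) {n m : ℕ} {a b : R}
    (ha : a ∈ (Fil x n : Submodule κ R)) (hb : b ∈ (Fil y m : Submodule κ R)) :
    a * b ∈ (Fil (Sum.elim x y) (n + m) : Submodule κ R) := by
  refine Fil_mul _ ?_ ?_
  · refine Fil_le x (fun n => (Fil (Sum.elim x y) n : Submodule κ R)) (Fil_one _ 0)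
      (fun n => Fil_mono _ (Nat.le_succ n)) ?_ n ha
    intro n i z hz
    rw [add_comm n 1]
    exact Fil_mul _ (Fil_gen (Sum.elim x y) (Sum.inl i)) hz
  · refine Fil_le y (fun n => (Fil (Sum.elim x y) n : Submodule κ R)) (Fil_one _ 0)
      (fun n => Fil_mono _ (Nat.le_succ n)) ?_ m hb
    intro n i z hz
    rw [add_comm n 1]
    exact Fil_mul _ (Fil_gen (Sum.elim x y) (Sum.inr i)) hz

end basic

section red

variable {κ : Type*} [Field κ] {R : Type*} [CommRing R] [Algebra κ R] [Algebra κ[X] R]
  [IsScalarTower κ κ[X] R] {ι : Type*} [Fintype ι] [DecidableEq ι]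

/-- the spaces of reduced combinations -/
private def Fil_W (P : κ[X]) (x : ι → R) (n : ℕ) : Submodule κ R where
  carrier := {y | ∃ g : (ι → Fin P.natDegree) → κ[X],
      (∀ e, g e ≠ 0 → (g e).natDegree * P.natDegree + ∑ i, (e i : ℕ) ≤ n) ∧
      y = ∑ e, g e • ∏ i, x i ^ (e i : ℕ)}
  zero_mem' := ⟨0, fun e h => absurd rfl h, by simp⟩
  add_mem' := by
    rintro y z ⟨g, hg, rfl⟩ ⟨h, hh, rfl⟩
    refine ⟨g + h, ?_, by simp only [Pi.add_apply, add_smul, Finset.sum_add_distrib]⟩
    intro e he
    rw [Pi.add_apply] at he ⊢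
    have h1 := natDegree_add_le (g e) (h e)
    by_cases hg0 : g e = 0
    · rw [hg0, zero_add] at he ⊢
      exact hh e he
    · by_cases hh0 : h e = 0
      · rw [hh0, add_zero] at he ⊢
        exact hg e he
      · have h2 := hg e hg0
        have h3 := hh e hh0
        rcases le_max_iff.1 h1 with h4 | h4
        · exact (Nat.add_le_add_right (Nat.mul_le_mul_right _ h4) _).trans h2
        · exact (Nat.add_le_add_right (Nat.mul_le_mul_right _ h4) _).trans h3
  smul_mem' := by
    rintro c y ⟨g, hg, rfl⟩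
    refine ⟨c • g, ?_, ?_⟩
    · intro e he
      rw [Pi.smul_apply] at he ⊢
      have h1 : g e ≠ 0 := fun h => he (by rw [h, smul_zero])
      exact (Nat.add_le_add_right (Nat.mul_le_mul_right _ (natDegree_smul_le c (g e))) _).trans
        (hg e h1)
    · simp only [Pi.smul_apply, Finset.smul_sum, smul_assoc]

private theorem Fil_W_single (P : κ[X]) (x : ι → R) (n : ℕ) (g : κ[X])
    (e : ι → Fin P.natDegree) (h : g.natDegree * P.natDegree + ∑ i, (e i : ℕ) ≤ n) :
    g • ∏ i, x i ^ (e i : ℕ) ∈ Fil_W P x n := by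
  refine ⟨Pi.single e g, ?_, ?_⟩
  · intro e' he'
    by_cases h1 : e' = e
    · subst h1
      rwa [Pi.single_eq_same]
    · rw [Pi.single_eq_of_ne h1] at he'
      exact absurd rfl he'
  · rw [Finset.sum_eq_single e]
    · rw [Pi.single_eq_same]
    · intro e' _ h1
      rw [Pi.single_eq_of_ne h1, zero_smul]
    · intro h1
      exact absurd (Finset.mem_univ e) h1

private theorem Fil_upd_prod (x : ι → R) (a : ι → ℕ) (i : ι) (k : ℕ) :
    ∏ j, x j ^ (Function.update a i k) j = x i ^ k * ∏ j ∈ Finset.univ.erase i, x j ^ a j := by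
  rw [← Finset.mul_prod_erase _ _ (Finset.mem_univ i), Function.update_self]
  congr 1
  refine Finset.prod_congr rfl fun j hj => ?_
  rw [Function.update_of_ne (Finset.ne_of_mem_erase hj)]

private theorem Fil_upd_sum (a : ι → ℕ) (i : ι) (k : ℕ) :
    ∑ j, (Function.update a i k) j = k + ∑ j ∈ Finset.univ.erase i, a j := by
  rw [← Finset.add_sum_erase _ _ (Finset.mem_univ i), Function.update_self]
  congr 1
  refine Finset.sum_congr rfl fun j hj => ?_
  rw [Function.update_of_ne (Finset.ne_of_mem_erase hj)]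

private theorem Fil_upd_coe {d : ℕ} (e : ι → Fin d) (i : ι) (k : ℕ) (hk : k < d) :
    (fun j => ((Function.update e i ⟨k, hk⟩ j : Fin d) : ℕ))
      = Function.update (fun j => (e j : ℕ)) i k := by
  funext j
  by_cases h : j = i
  · subst h
    simp
  · simp [Function.update_of_ne h]

private theorem Fil_W_upd (P : κ[X]) (x : ι → R) (n : ℕ) (g : κ[X])
    (e : ι → Fin P.natDegree) (i : ι) (k : ℕ) (hk : k < P.natDegree)
    (h : g.natDegree * P.natDegree + (k + ∑ j ∈ Finset.univ.erase i, (e j : ℕ)) ≤ n) :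
    g • (x i ^ k * ∏ j ∈ Finset.univ.erase i, x j ^ (e j : ℕ)) ∈ Fil_W P x n := by
  have h1 := Fil_W_single P x n g (Function.update e i ⟨k, hk⟩)
  have h2 := Fil_upd_coe e i k hk
  have h3 : ∀ j, ((Function.update e i ⟨k, hk⟩ j : Fin P.natDegree) : ℕ)
      = Function.update (fun j => (e j : ℕ)) i k j := fun j => congrFun h2 j
  simp only [h3] at h1
  rw [Fil_upd_prod x (fun j => (e j : ℕ)) i k, Fil_upd_sum (fun j => (e j : ℕ)) i k] at h1
  exact h1 h

private theorem Fil_W_gen (P : κ[X]) (hd : 0 < P.natDegree) (x : ι → R) (c : ι → κ)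
    (hx : ∀ i, Polynomial.aeval (x i) P = algebraMap κ[X] R X + algebraMap κ R (c i))
    (n : ℕ) (i : ι) (y : R) (hy : y ∈ Fil_W P x n) : x i * y ∈ Fil_W P x (n + 1) := by
  obtain ⟨g, hg, rfl⟩ := hy
  rw [Finset.mul_sum]
  refine Submodule.sum_mem _ fun e _ => ?_
  by_cases hge : g e = 0
  · rw [hge, zero_smul, mul_zero]
    exact Submodule.zero_mem _
  have hn := hg e hge
  have hs : ∑ j, (e j : ℕ) = (e i : ℕ) + ∑ j ∈ Finset.univ.erase i, (e j : ℕ) :=
    (Finset.add_sum_erase _ _ (Finset.mem_univ i)).symm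
  set S := ∑ j ∈ Finset.univ.erase i, (e j : ℕ) with hS
  set M := ∏ j ∈ Finset.univ.erase i, x j ^ (e j : ℕ) with hM
  have h1 : x i * (g e • ∏ j, x j ^ (e j : ℕ)) = g e • (x i ^ ((e i : ℕ) + 1) * M) := by
    rw [← Finset.mul_prod_erase _ _ (Finset.mem_univ i), mul_smul_comm, pow_succ']
    simp only [hM, mul_assoc]
  rw [h1]
  by_cases hlt : (e i : ℕ) + 1 < P.natDegree
  · exact Fil_W_upd P x (n + 1) (g e) e i _ hlt (by omega)
  · have hei : (e i : ℕ) + 1 = P.natDegree := by
      have := (e i).2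
      omega
    rw [hei]
    have hlead : P.leadingCoeff ≠ 0 := by
      rw [Ne, Polynomial.leadingCoeff_eq_zero]
      rintro rfl
      simp at hd
    have h2 := hx i
    rw [Polynomial.aeval_eq_sum_range, Finset.sum_range_succ] at h2
    have h3 : x i ^ P.natDegree = P.leadingCoeff⁻¹ • (algebraMap κ[X] R X
        + algebraMap κ R (c i) - ∑ k ∈ Finset.range P.natDegree, P.coeff k • x i ^ k) := by
      rw [← h2, add_sub_cancel_left]
      rw [← Polynomial.leadingCoeff, smul_smul, inv_mul_cancel₀ hlead, one_smul]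
    rw [h3]
    have h4 : g e • (P.leadingCoeff⁻¹ • (algebraMap κ[X] R X
        + algebraMap κ R (c i) - ∑ k ∈ Finset.range P.natDegree, P.coeff k • x i ^ k) * M)
        = P.leadingCoeff⁻¹ • ((g e * X) • (x i ^ 0 * M) + c i • (g e • (x i ^ 0 * M))
          - ∑ k ∈ Finset.range P.natDegree, P.coeff k • (g e • (x i ^ k * M))) := by
      have e1 : ∀ z : R, g e • z = algebraMap κ[X] R (g e) * z := fun z => Algebra.smul_def _ _
      have e2 : ∀ (r : κ) (z : R), r • z = algebraMap κ R r * z := fun r z => Algebra.smul_def _ _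
      have e3 : (g e * X) • (x i ^ 0 * M) = algebraMap κ[X] R (g e) * algebraMap κ[X] R X *
          (x i ^ 0 * M) := by
        rw [Algebra.smul_def, map_mul]
      rw [e3]
      simp only [e1, e2, pow_zero, one_mul]
      have e4 : ∑ k ∈ Finset.range P.natDegree, algebraMap κ R (P.coeff k) *
          (algebraMap κ[X] R (g e) * (x i ^ k * M)) =
          algebraMap κ[X] R (g e) * ((∑ k ∈ Finset.range P.natDegree,
            algebraMap κ R (P.coeff k) * x i ^ k) * M) := by
        rw [Finset.sum_mul, Finset.mul_sum]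
        refine Finset.sum_congr rfl fun k _ => ?_
        ring
      rw [e4]
      ring
    rw [h4]
    refine Submodule.smul_mem _ _ (Submodule.sub_mem _ (Submodule.add_mem _ ?_ ?_) ?_)
    · refine Fil_W_upd P x (n + 1) (g e * X) e i 0 hd ?_
      have h5 : (g e * X).natDegree ≤ (g e).natDegree + 1 := by
        refine (natDegree_mul_le).trans ?_
        simp
      have h6 := Nat.mul_le_mul_right P.natDegree h5
      rw [add_mul, one_mul] at h6
      omega
    · refine Submodule.smul_mem _ _ ?_
      exact Fil_W_upd P x (n + 1) (g e) e i 0 hd (by omega)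
    · refine Submodule.sum_mem _ fun k hk => Submodule.smul_mem _ _ ?_
      have hk' := Finset.mem_range.1 hk
      exact Fil_W_upd P x (n + 1) (g e) e i k hk' (by omega)

/-- Reduction: every element of `Fil x n` is a combination of the monomials with all exponents
`< d`, with coefficients in `κ[X]` of the expected degree. -/
theorem fil_red (P : κ[X]) (hd : 0 < P.natDegree) (x : ι → R) (c : ι → κ)
    (hx : ∀ i, Polynomial.aeval (x i) P = algebraMap κ[X] R X + algebraMap κ R (c i))
    (n : ℕ) (y : R) (hy : y ∈ (Fil x n : Submodule κ R)) :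
    ∃ g : (ι → Fin P.natDegree) → κ[X],
      (∀ e, g e ≠ 0 → (g e).natDegree * P.natDegree + ∑ i, (e i : ℕ) ≤ n) ∧
      y = ∑ e, g e • ∏ i, x i ^ (e i : ℕ) := by
  have h1 : (Fil x n : Submodule κ R) ≤ Fil_W P x n := by
    refine Fil_le x (fun n => Fil_W P x n) ?_ ?_ (fun n i y hy => Fil_W_gen P hd x c hx n i y hy) n
    · have h2 := Fil_W_single P x 0 1 (fun _ => ⟨0, hd⟩) (by simp)
      simpa using h2
    · rintro m z ⟨g, hg, rfl⟩
      exact ⟨g, fun e he => (hg e he).trans (Nat.le_succ m), rfl⟩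
  exact h1 hy

/-- the image of `X` has filtration degree `d` -/
theorem fil_w [Nonempty ι] (P : κ[X]) (x : ι → R) (c : ι → κ)
    (hx : ∀ i, Polynomial.aeval (x i) P = algebraMap κ[X] R X + algebraMap κ R (c i)) :
    algebraMap κ[X] R X ∈ (Fil x P.natDegree : Submodule κ R) := by
  obtain ⟨i⟩ := (inferInstance : Nonempty ι)
  have h1 : algebraMap κ[X] R X = Polynomial.aeval (x i) P - algebraMap κ R (c i) := by
    rw [hx i]
    ring
  rw [h1]
  refine Submodule.sub_mem _ ?_ ?_
  · have h2 := Fil_aeval x P le_rfl (Fil_gen (κ := κ) x i)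
    rwa [mul_one] at h2
  · rw [Algebra.algebraMap_eq_smul_one]
    exact Submodule.smul_mem _ _ (Fil_one x _)

/-- the converse of `fil_red` -/
theorem fil_of_red [Nonempty ι] (P : κ[X]) (x : ι → R) (c : ι → κ)
    (hx : ∀ i, Polynomial.aeval (x i) P = algebraMap κ[X] R X + algebraMap κ R (c i))
    (n : ℕ) (g : κ[X]) (a : ι → ℕ) (h : g ≠ 0 → g.natDegree * P.natDegree + ∑ i, a i ≤ n) :
    g • ∏ i, x i ^ (a i) ∈ (Fil x n : Submodule κ R) := by
  by_cases hg : g = 0
  · rw [hg, zero_smul]
    exact Submodule.zero_mem _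
  · have h1 := h hg
    have h2 : algebraMap κ[X] R g = Polynomial.aeval (algebraMap κ[X] R X) g := by
      rw [Polynomial.aeval_algebraMap_apply, Polynomial.aeval_X_left_apply]
    rw [Algebra.smul_def, h2]
    refine Fil_mono x h1 (Fil_mul x (Fil_aeval x g le_rfl (fil_w P x c hx)) ?_)
    exact Submodule.subset_span ⟨a, le_rfl, rfl⟩

/-- the `κ[X]`-span of the reduced monomials is the subalgebra generated by the `x i` -/
theorem mem_span_iff [Nonempty ι] (P : κ[X]) (hd : 0 < P.natDegree) (x : ι → R) (c : ι → κ)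
    (hx : ∀ i, Polynomial.aeval (x i) P = algebraMap κ[X] R X + algebraMap κ R (c i)) (y : R) :
    y ∈ Submodule.span κ[X]
      (Set.range fun e : ι → Fin P.natDegree => ∏ i, x i ^ (e i : ℕ)) ↔
      y ∈ Algebra.adjoin κ (Set.range x) := by
  constructor
  · intro hy
    obtain ⟨g, rfl⟩ := (Submodule.mem_span_range_iff_exists_fun κ[X]).1 hy
    refine sum_mem fun e _ => ?_
    rw [mem_adjoin_iff]
    exact ⟨_, fil_of_red P x c hx _ (g e) (fun i => (e i : ℕ)) fun _ => le_rfl⟩
  · intro hy
    obtain ⟨n, hn⟩ := (mem_adjoin_iff x y).1 hy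
    obtain ⟨g, -, rfl⟩ := fil_red P hd x c hx n y hn
    exact (Submodule.mem_span_range_iff_exists_fun κ[X]).2 ⟨g, rfl⟩

end red

end Pool.Agent.W_cae956_st
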