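import Mathlib

set_option autoImplicit false

/-!
# Growth lemma

`R` is a reduced commutative `κ[X]`-algebra without torsion, `O` the `κ[X]`-span of a finite set
`U`, closed under multiplication, and `Fl n` a filtration of `κ`-subspaces of `R` whose elements
are combinations of the elements of `U` with coefficients of degree at most `n / d`.
-/

open Polynomial

namespace Pool.Agent.W_cae956_st

variable {κ : Type*} [Field κ] {R : Type*} [CommRing R] [Algebra κ R] [Algebra κ[X] R]
  [IsScalarTower κ κ[X] R]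

private lemma growth_basis {V : Type*} [AddCommGroup V] [Module κ[X] V]
    [Module.IsTorsionFree κ[X] V] {J : Type*} [Fintype J] (u : J → V) :
    ∃ (m : ℕ) (_ : Module.Basis (Fin m) κ[X] (Submodule.span κ[X] (Set.range u))),
      m = Module.finrank κ[X] (Submodule.span κ[X] (Set.range u)) := by
  have : Module.Finite κ[X] (Submodule.span κ[X] (Set.range u)) :=
    Module.Finite.iff_fg.2 (Submodule.fg_span (Set.finite_range u))
  have : Module.Free κ[X] (Submodule.span κ[X] (Set.range u)) := inferInstance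
  exact ⟨_, Module.finBasis κ[X] (Submodule.span κ[X] (Set.range u)), rfl⟩

/-- If `x ∈ Fl n` is `g • y` with `y ≠ 0` in the span, then `d * deg g ≤ n`.
Proof: `O` is a free `κ[X]`-module with a finite basis; let `C` bound the degrees of the
coordinates of the elements of `U`. Then `x ^ (l+1) = g ^ (l+1) • y ^ (l+1)` lies in
`Fl ((l+1) * n)`, so its coordinates have degree at most `(l+1) * n / d + C`, and `y ^ (l+1) ≠ 0`
has a nonzero coordinate. Let `l → ∞`. -/
theorem growth_div [IsReduced R] [Module.IsTorsionFree κ[X] R]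
    (d : ℕ) (hd : 0 < d) {J : Type*} [Fintype J] (u : J → R) (Fl : ℕ → Submodule κ R)
    (hmul : ∀ n m x y, x ∈ Fl n → y ∈ Fl m → x * y ∈ Fl (n + m))
    (hUmul : ∀ x ∈ Submodule.span κ[X] (Set.range u), ∀ y ∈ Submodule.span κ[X] (Set.range u),
      x * y ∈ Submodule.span κ[X] (Set.range u))
    (hFl : ∀ n, ∀ x ∈ Fl n, ∃ c : J → κ[X], (∀ j, (c j).natDegree * d ≤ n) ∧
      x = ∑ j, c j • u j)
    (n : ℕ) (x y : R) (g : κ[X]) (hx : x ∈ Fl n)
    (hy : y ∈ Submodule.span κ[X] (Set.range u)) (hxy : x = g • y) (hy0 : y ≠ 0) :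
    g.natDegree * d ≤ n := by
  classical
  obtain ⟨m, b, -⟩ := growth_basis (κ := κ) u
  set O := Submodule.span κ[X] (Set.range u) with hO
  by_contra hcon
  push Not at hcon
  have hg0 : g ≠ 0 := by
    rintro rfl
    simp at hcon
  have huO : ∀ j, u j ∈ O := fun j => Submodule.subset_span ⟨j, rfl⟩
  -- bound of the degrees of the coordinates
  obtain ⟨C, hC⟩ : ∃ C : ℕ, ∀ j k, (b.repr ⟨u j, huO j⟩ k).natDegree ≤ C := by
    refine ⟨∑ j, ∑ k, (b.repr ⟨u j, huO j⟩ k).natDegree, fun j k => ?_⟩
    refine le_trans ?_ (Finset.single_le_sum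
      (f := fun j => ∑ k, (b.repr ⟨u j, huO j⟩ k).natDegree) (fun _ _ => Nat.zero_le _)
      (Finset.mem_univ j))
    exact Finset.single_le_sum (f := fun k => (b.repr ⟨u j, huO j⟩ k).natDegree)
      (fun _ _ => Nat.zero_le _) (Finset.mem_univ k)
  have hxp : ∀ l : ℕ, x ^ (l + 1) ∈ Fl ((l + 1) * n) := by
    intro l
    induction l with
    | zero => simpa using hx
    | succ l ih =>
      have h := hmul _ _ _ _ ih hx
      have e : (l + 1 + 1) * n = (l + 1) * n + n := by ring
      rw [e, pow_succ]
      exact h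
  have hyp : ∀ l : ℕ, y ^ (l + 1) ∈ O := by
    intro l
    induction l with
    | zero => simpa using hy
    | succ l ih =>
      rw [pow_succ]
      exact hUmul _ ih _ hy
  have key : ∀ l : ℕ, (l + 1) * (g.natDegree * d) ≤ (l + 1) * n + C * d := by
    intro l
    obtain ⟨c, hc1, hc2⟩ := hFl _ _ (hxp l)
    have hne : y ^ (l + 1) ≠ 0 := pow_ne_zero _ hy0
    have hO0 : (⟨y ^ (l + 1), hyp l⟩ : O) ≠ 0 := by
      intro h
      exact hne (congrArg Subtype.val h)
    have hrep : b.repr ⟨y ^ (l + 1), hyp l⟩ ≠ 0 := by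
      intro h
      exact hO0 (b.repr.map_eq_zero_iff.1 h)
    obtain ⟨k, hk⟩ := Finsupp.ne_iff.1 hrep
    rw [Finsupp.zero_apply] at hk
    have e1 : g ^ (l + 1) • (⟨y ^ (l + 1), hyp l⟩ : O) = ∑ j, c j • (⟨u j, huO j⟩ : O) := by
      apply Subtype.ext
      rw [Submodule.coe_smul, Submodule.coe_sum]
      simp only [Submodule.coe_smul]
      rw [← hc2, hxy, _root_.smul_pow]
    have e2 : g ^ (l + 1) * b.repr ⟨y ^ (l + 1), hyp l⟩ k =
        ∑ j, c j * b.repr ⟨u j, huO j⟩ k := by
      have h := congrArg (fun z => b.repr z k) e1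
      simp only [map_smul, map_sum, Finsupp.smul_apply, Finsupp.coe_finsetSum,
        Finset.sum_apply, smul_eq_mul] at h
      exact h
    have e3 : (g ^ (l + 1) * b.repr ⟨y ^ (l + 1), hyp l⟩ k).natDegree =
        (l + 1) * g.natDegree + (b.repr ⟨y ^ (l + 1), hyp l⟩ k).natDegree := by
      rw [natDegree_mul (pow_ne_zero _ hg0) hk, natDegree_pow]
    have e4 : (∑ j, c j * b.repr ⟨u j, huO j⟩ k).natDegree * d ≤ (l + 1) * n + C * d := by
      have h : ∀ j ∈ Finset.univ, (c j * b.repr ⟨u j, huO j⟩ k).natDegree ≤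
          ((l + 1) * n + C * d) / d := by
        intro j _
        rw [Nat.le_div_iff_mul_le hd]
        calc (c j * b.repr ⟨u j, huO j⟩ k).natDegree * d
            ≤ ((c j).natDegree + (b.repr ⟨u j, huO j⟩ k).natDegree) * d :=
              Nat.mul_le_mul_right _ natDegree_mul_le
          _ = (c j).natDegree * d + (b.repr ⟨u j, huO j⟩ k).natDegree * d := by ring
          _ ≤ (l + 1) * n + C * d := Nat.add_le_add (hc1 j) (Nat.mul_le_mul_right _ (hC j k))
      have h2 := natDegree_sum_le_of_forall_le Finset.univ _ h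
      exact (Nat.le_div_iff_mul_le hd).1 h2
    rw [← e2, e3] at e4
    calc (l + 1) * (g.natDegree * d) = (l + 1) * g.natDegree * d := by ring
      _ ≤ ((l + 1) * g.natDegree + (b.repr ⟨y ^ (l + 1), hyp l⟩ k).natDegree) * d :=
        Nat.mul_le_mul_right _ (Nat.le_add_right _ _)
      _ ≤ _ := e4
  have h1 := key (C * d)
  have h2 : (C * d + 1) * (n + 1) ≤ (C * d + 1) * (g.natDegree * d) :=
    Nat.mul_le_mul_left _ hcon
  have h3 : (C * d + 1) * (n + 1) = (C * d + 1) * n + C * d + 1 := by ring
  omega

/-- The dimension of `Fl n` is at most `r * (n / d + 1)`, `r` the rank of the span.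
Proof: send `x` to the coefficients of degree `< n / d + 1` of its coordinates in a basis of
the free `κ[X]`-module `O`; if they vanish then `x = X ^ (n / d + 1) • y` with `y ∈ O`, hence
`x = 0` by `growth_div`. -/
theorem growth_dim [IsReduced R] [Module.IsTorsionFree κ[X] R]
    (d : ℕ) (hd : 0 < d) {J : Type*} [Fintype J] (u : J → R) (Fl : ℕ → Submodule κ R)
    (hmul : ∀ n m x y, x ∈ Fl n → y ∈ Fl m → x * y ∈ Fl (n + m))
    (hUmul : ∀ x ∈ Submodule.span κ[X] (Set.range u), ∀ y ∈ Submodule.span κ[X] (Set.range u),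
      x * y ∈ Submodule.span κ[X] (Set.range u))
    (hFl : ∀ n, ∀ x ∈ Fl n, ∃ c : J → κ[X], (∀ j, (c j).natDegree * d ≤ n) ∧
      x = ∑ j, c j • u j)
    (r : ℕ) (hr : Module.finrank κ[X] (Submodule.span κ[X] (Set.range u)) ≤ r) (n : ℕ) :
    FiniteDimensional κ (Fl n) ∧ Module.finrank κ (Fl n) ≤ r * (n / d + 1) := by
  classical
  obtain ⟨m, b, hm⟩ := growth_basis (κ := κ) u
  have huO : ∀ j, u j ∈ Submodule.span κ[X] (Set.range u) :=
    fun j => Submodule.subset_span ⟨j, rfl⟩
  have hxO : ∀ x : Fl n, (x : R) ∈ Submodule.span κ[X] (Set.range u) := by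
    intro x
    obtain ⟨c, -, hc⟩ := hFl n x x.2
    rw [hc]
    exact Submodule.sum_mem _ fun j _ => Submodule.smul_mem _ _ (huO j)
  have hsm : ∀ (a : κ) (z : R), a • z = (C a : κ[X]) • z := by
    intro a z
    rw [← Polynomial.algebraMap_eq, algebraMap_smul]
  let Φ : Fl n →ₗ[κ] (Fin m × Fin (n / d + 1) → κ) :=
    { toFun := fun x p => (b.repr ⟨(x : R), hxO x⟩ p.1).coeff p.2
      map_add' := by
        intro x y
        funext p
        have h : (⟨((x + y : Fl n) : R), hxO (x + y)⟩ :
            Submodule.span κ[X] (Set.range u)) = ⟨(x : R), hxO x⟩ + ⟨(y : R), hxO y⟩ := by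
          apply Subtype.ext
          rfl
        rw [h, map_add]
        simp
      map_smul' := by
        intro a x
        funext p
        have h : (⟨((a • x : Fl n) : R), hxO (a • x)⟩ :
            Submodule.span κ[X] (Set.range u)) = (C a : κ[X]) • ⟨(x : R), hxO x⟩ := by
          apply Subtype.ext
          show a • (x : R) = (C a : κ[X]) • (x : R)
          exact hsm a x
        rw [h, map_smul]
        simp }
  have hinj : Function.Injective Φ := by
    rw [← LinearMap.ker_eq_bot, LinearMap.ker_eq_bot']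
    intro x hx
    have hcoef : ∀ (k : Fin m) (i : ℕ), i < n / d + 1 →
        (b.repr ⟨(x : R), hxO x⟩ k).coeff i = 0 := by
      intro k i hi
      have := congrFun hx (k, ⟨i, hi⟩)
      exact this
    have hdvd : ∀ k : Fin m, ∃ q : κ[X], b.repr ⟨(x : R), hxO x⟩ k = X ^ (n / d + 1) * q := by
      intro k
      exact X_pow_dvd_iff.2 (hcoef k)
    choose q hq using hdvd
    by_contra hx0
    have hx0' : (x : R) ≠ 0 := fun h => hx0 (Subtype.ext h)
    have hsum : (⟨(x : R), hxO x⟩ : Submodule.span κ[X] (Set.range u)) =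
        (X ^ (n / d + 1) : κ[X]) • ∑ k, q k • b k := by
      rw [← b.sum_repr ⟨(x : R), hxO x⟩, Finset.smul_sum]
      refine Finset.sum_congr rfl fun k _ => ?_
      rw [hq k, mul_smul]
    have hval : (x : R) = (X ^ (n / d + 1) : κ[X]) • ((∑ k, q k • b k :
        Submodule.span κ[X] (Set.range u)) : R) := by
      have h := congrArg Subtype.val hsum
      exact h
    have hy0 : ((∑ k, q k • b k : Submodule.span κ[X] (Set.range u)) : R) ≠ 0 := by
      intro h
      rw [h, smul_zero] at hval
      exact hx0' hval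
    have h := growth_div d hd u Fl hmul hUmul hFl n x _ _ x.2
      (∑ k, q k • b k : Submodule.span κ[X] (Set.range u)).2 hval hy0
    rw [natDegree_X_pow] at h
    have h2 : n < (n / d + 1) * d := by
      have := Nat.lt_div_mul_add (a := n) hd
      rw [add_mul, one_mul]
      exact this
    omega
  have : FiniteDimensional κ (Fl n) := FiniteDimensional.of_injective Φ hinj
  refine ⟨this, ?_⟩
  have h1 := LinearMap.finrank_le_finrank_of_injective hinj
  have h2 : Module.finrank κ (Fin m × Fin (n / d + 1) → κ) = m * (n / d + 1) := by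
    rw [Module.finrank_fintype_fun_eq_card]
    simp
  rw [h2] at h1
  refine h1.trans ?_
  rw [hm]
  exact Nat.mul_le_mul_right _ hr

/-- rank over `κ[X]` versus dimension over the fraction field -/
theorem finrank_span_le {V : Type*} [AddCommGroup V] [Module κ[X] V]
    [Module (FractionRing κ[X]) V] [IsScalarTower κ[X] (FractionRing κ[X]) V]
    {J : Type*} [Fintype J] (u : J → V) (W : Submodule (FractionRing κ[X]) V)
    [FiniteDimensional (FractionRing κ[X]) W] (hu : ∀ j, u j ∈ W) :
    Module.finrank κ[X] (Submodule.span κ[X] (Set.range u)) ≤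
      Module.finrank (FractionRing κ[X]) W := by
  classical
  have : Module.IsTorsionFree κ[X] V := by
    have : Module.IsTorsionFree (FractionRing κ[X]) V := inferInstance
    exact Module.IsTorsionFree.trans_faithfulSMul κ[X] (FractionRing κ[X]) V
  obtain ⟨m, b, hm⟩ := growth_basis (κ := κ) u
  rw [← hm]
  have hsub : ∀ z ∈ Submodule.span κ[X] (Set.range u), z ∈ W := by
    intro z hz
    induction hz using Submodule.span_induction with
    | mem x hx =>
      obtain ⟨j, rfl⟩ := hx
      exact hu j
    | zero => exact W.zero_mem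
    | add x y _ _ h1 h2 => exact W.add_mem h1 h2
    | smul a x _ h =>
      rw [← algebraMap_smul (FractionRing κ[X]) a x]
      exact W.smul_mem _ h
  have hli : LinearIndependent κ[X] (fun k => (b k : V)) := by
    have h := b.linearIndependent
    exact h.map' (Submodule.subtype _) (Submodule.ker_subtype _)
  have hli2 : LinearIndependent (FractionRing κ[X]) (fun k => (b k : V)) :=
    (LinearIndependent.iff_fractionRing κ[X] (FractionRing κ[X])).1 hli
  have hli3 : LinearIndependent (FractionRing κ[X])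
      (fun k => (⟨(b k : V), hsub _ (b k).2⟩ : W)) := by
    refine LinearIndependent.of_comp (W.subtype) ?_
    exact hli2
  have := hli3.fintype_card_le_finrank
  simpa using this

end Pool.Agent.W_cae956_st
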