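import Mathlib
import Pool.Agent.W_cae956_st.Fil
import Pool.Agent.W_cae956_st.Growth

set_option autoImplicit false

/-!
# The dimensions of the filtration of the coordinate ring of the curve

`K` is a finite extension of `κ(X)`, generated by `z 0, ..., z (k-1)` with `P (z i) = w + c i`,
`w` the image of `X`. `D = [K : κ(X)]`, `d = deg P`.
-/

open Polynomial

namespace Pool.Agent.W_cae956_st

variable {κ : Type*} [Field κ] {K : Type*} [Field K] [Algebra κ K] [Algebra κ[X] K]
  [Algebra (FractionRing κ[X]) K] [IsScalarTower κ κ[X] K]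
  [IsScalarTower κ[X] (FractionRing κ[X]) K] [FiniteDimensional (FractionRing κ[X]) K]

instance torsionFree_K : Module.IsTorsionFree κ[X] K :=
  Module.IsTorsionFree.trans_faithfulSMul κ[X] (FractionRing κ[X]) K

theorem algebraMap_inj : Function.Injective (algebraMap κ[X] K) := by
  rw [IsScalarTower.algebraMap_eq κ[X] (FractionRing κ[X]) K, RingHom.coe_comp]
  exact (algebraMap (FractionRing κ[X]) K).injective.comp
    (IsFractionRing.injective κ[X] (FractionRing κ[X]))

omit [Algebra (FractionRing κ[X]) K] [IsScalarTower κ[X] (FractionRing κ[X]) K]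
  [FiniteDimensional (FractionRing κ[X]) K] in
private theorem Dims_hU {k : ℕ} (hk : 0 < k) (P : κ[X]) (hd : 0 < P.natDegree) (z : Fin k → K)
    (c : Fin k → κ)
    (hz : ∀ i, Polynomial.aeval (z i) P = algebraMap κ[X] K X + algebraMap κ K (c i)) :
    ∀ x ∈ Submodule.span κ[X]
      (Set.range fun e : Fin k → Fin P.natDegree => ∏ i, z i ^ (e i : ℕ)),
    ∀ y ∈ Submodule.span κ[X]
      (Set.range fun e : Fin k → Fin P.natDegree => ∏ i, z i ^ (e i : ℕ)),
    x * y ∈ Submodule.span κ[X]
      (Set.range fun e : Fin k → Fin P.natDegree => ∏ i, z i ^ (e i : ℕ)) := by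
  have : Nonempty (Fin k) := ⟨⟨0, hk⟩⟩
  intro x hx y hy
  rw [mem_span_iff P hd z c hz] at hx hy ⊢
  exact Subalgebra.mul_mem _ hx hy

omit [Algebra (FractionRing κ[X]) K] [IsScalarTower κ[X] (FractionRing κ[X]) K]
  [FiniteDimensional (FractionRing κ[X]) K] in
private theorem Dims_hFl {k : ℕ} (P : κ[X]) (hd : 0 < P.natDegree) (z : Fin k → K)
    (c : Fin k → κ)
    (hz : ∀ i, Polynomial.aeval (z i) P = algebraMap κ[X] K X + algebraMap κ K (c i)) :
    ∀ n, ∀ x ∈ (Fil z n : Submodule κ K), ∃ c' : (Fin k → Fin P.natDegree) → κ[X],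
      (∀ j, (c' j).natDegree * P.natDegree ≤ n) ∧ x = ∑ j, c' j • ∏ i, z i ^ (j i : ℕ) := by
  intro n x hx
  obtain ⟨g, hg, hx'⟩ := fil_red P hd z c hz n x hx
  refine ⟨g, fun e => ?_, hx'⟩
  by_cases h : g e = 0
  · rw [h, natDegree_zero, zero_mul]
    exact Nat.zero_le _
  · exact le_trans (Nat.le_add_right _ _) (hg e h)

/-- `x = g y`, `x` of filtration degree `n`, `y` a nonzero integral element: `deg g * d ≤ n` -/
theorem fil_div {k : ℕ} (hk : 0 < k) (P : κ[X]) (hd : 0 < P.natDegree) (z : Fin k → K)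
    (c : Fin k → κ)
    (hz : ∀ i, Polynomial.aeval (z i) P = algebraMap κ[X] K X + algebraMap κ K (c i))
    (n : ℕ) (x y : K) (g : κ[X]) (hx : x ∈ (Fil z n : Submodule κ K))
    (hy : y ∈ Algebra.adjoin κ (Set.range z)) (hxy : x = algebraMap κ[X] K g * y) (hy0 : y ≠ 0) :
    g.natDegree * P.natDegree ≤ n := by
  have : Nonempty (Fin k) := ⟨⟨0, hk⟩⟩
  refine growth_div P.natDegree hd
    (fun e : Fin k → Fin P.natDegree => ∏ i, z i ^ (e i : ℕ))
    (fun n => (Fil z n : Submodule κ K)) (fun n m x y hx hy => Fil_mul z hx hy)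
    (Dims_hU hk P hd z c hz) (Dims_hFl P hd z c hz) n x y g hx ?_ ?_ hy0
  · exact (mem_span_iff P hd z c hz y).2 hy
  · rw [hxy, Algebra.smul_def]

theorem dim_upper {k : ℕ} (hk : 0 < k) (P : κ[X]) (hd : 0 < P.natDegree) (z : Fin k → K)
    (c : Fin k → κ)
    (hz : ∀ i, Polynomial.aeval (z i) P = algebraMap κ[X] K X + algebraMap κ K (c i)) (n : ℕ) :
    Module.finrank κ (Fil z n : Submodule κ K) ≤
      Module.finrank (FractionRing κ[X]) K * (n / P.natDegree + 1) := by
  have hr := finrank_span_le (κ := κ)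
    (fun e : Fin k → Fin P.natDegree => ∏ i, z i ^ (e i : ℕ))
    (⊤ : Submodule (FractionRing κ[X]) K) (fun _ => Submodule.mem_top)
  rw [finrank_top] at hr
  exact (growth_dim P.natDegree hd
    (fun e : Fin k → Fin P.natDegree => ∏ i, z i ^ (e i : ℕ))
    (fun n => (Fil z n : Submodule κ K)) (fun n m x y hx hy => Fil_mul z hx hy)
    (Dims_hU hk P hd z c hz) (Dims_hFl P hd z c hz) _ hr n).2

/-- the reduced monomials span `K` over `κ(X)` -/
theorem span_monomials {k : ℕ} (hk : 0 < k) (P : κ[X]) (hd : 0 < P.natDegree) (z : Fin k → K)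
    (c : Fin k → κ)
    (hz : ∀ i, Polynomial.aeval (z i) P = algebraMap κ[X] K X + algebraMap κ K (c i))
    (hgen : IntermediateField.adjoin (FractionRing κ[X]) (Set.range z) = ⊤) :
    Submodule.span (FractionRing κ[X])
      (Set.range fun e : Fin k → Fin P.natDegree => ∏ i, z i ^ (e i : ℕ)) = ⊤ := by
  have : Nonempty (Fin k) := ⟨⟨0, hk⟩⟩
  set u : (Fin k → Fin P.natDegree) → K := fun e => ∏ i, z i ^ (e i : ℕ) with hu
  set W : Submodule (FractionRing κ[X]) K := Submodule.span (FractionRing κ[X]) (Set.range u)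
    with hW
  have hsub : ∀ y ∈ Algebra.adjoin κ (Set.range z), y ∈ W := by
    intro y hy
    have h1 := (mem_span_iff P hd z c hz y).2 hy
    have h2 : Submodule.span κ[X] (Set.range u) ≤ W.restrictScalars κ[X] :=
      Submodule.span_le.2 (fun w hw => Submodule.subset_span hw)
    exact h2 h1
  have hue : ∀ e, u e ∈ Algebra.adjoin κ (Set.range z) := fun e =>
    Subalgebra.prod_mem _ fun i _ =>
      Subalgebra.pow_mem _ (Algebra.subset_adjoin (Set.mem_range_self i)) _
  have hmul : ∀ x ∈ W, ∀ y ∈ W, x * y ∈ W := by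
    intro x hx y hy
    refine Submodule.span_induction (p := fun x _ => x * y ∈ W) ?_ ?_ ?_ ?_ hx
    · rintro _ ⟨e, rfl⟩
      refine Submodule.span_induction (p := fun y _ => u e * y ∈ W) ?_ ?_ ?_ ?_ hy
      · rintro _ ⟨e', rfl⟩
        exact hsub _ (Subalgebra.mul_mem _ (hue e) (hue e'))
      · rw [mul_zero]
        exact W.zero_mem
      · intro a b _ _ ha hb
        rw [mul_add]
        exact W.add_mem ha hb
      · intro r a _ ha
        rw [mul_smul_comm]
        exact W.smul_mem r ha
    · rw [zero_mul]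
      exact W.zero_mem
    · intro a b _ _ ha hb
      rw [add_mul]
      exact W.add_mem ha hb
    · intro r a _ ha
      rw [smul_mul_assoc]
      exact W.smul_mem r ha
  have h1 : Algebra.adjoin (FractionRing κ[X]) (Set.range z) = ⊤ :=
    (IntermediateField.adjoin_eq_top_iff_of_isAlgebraic
      (fun x _ => Algebra.IsAlgebraic.isAlgebraic x)).1 hgen
  rw [eq_top_iff]
  intro x _
  have hx : x ∈ Algebra.adjoin (FractionRing κ[X]) (Set.range z) := by
    rw [h1]
    exact Algebra.mem_top
  induction hx using Algebra.adjoin_induction with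
  | mem x hx => exact hsub x (Algebra.subset_adjoin hx)
  | algebraMap r =>
    rw [Algebra.algebraMap_eq_smul_one]
    exact W.smul_mem r (hsub 1 (Subalgebra.one_mem _))
  | add x y _ _ hx hy => exact W.add_mem (hx trivial) (hy trivial)
  | mul x y _ _ hx hy => exact hmul x (hx trivial) y (hy trivial)

theorem finrank_le_pow {k : ℕ} (hk : 0 < k) (P : κ[X]) (hd : 0 < P.natDegree) (z : Fin k → K)
    (c : Fin k → κ)
    (hz : ∀ i, Polynomial.aeval (z i) P = algebraMap κ[X] K X + algebraMap κ K (c i))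
    (hgen : IntermediateField.adjoin (FractionRing κ[X]) (Set.range z) = ⊤) :
    Module.finrank (FractionRing κ[X]) K ≤ P.natDegree ^ k := by
  have h1 := finrank_range_le_card (R := FractionRing κ[X])
    (fun e : Fin k → Fin P.natDegree => ∏ i, z i ^ (e i : ℕ))
  rw [Set.finrank, span_monomials hk P hd z c hz hgen, finrank_top] at h1
  simpa using h1

/-- lower bound of the dimension: `D` of the reduced monomials are independent over `κ(X)` -/
theorem dim_lower {k : ℕ} (hk : 0 < k) (P : κ[X]) (hd : 0 < P.natDegree) (z : Fin k → K)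
    (c : Fin k → κ)
    (hz : ∀ i, Polynomial.aeval (z i) P = algebraMap κ[X] K X + algebraMap κ K (c i))
    (hgen : IntermediateField.adjoin (FractionRing κ[X]) (Set.range z) = ⊤) (n : ℕ)
    (hn : k * P.natDegree ≤ n) :
    Module.finrank (FractionRing κ[X]) K * ((n - k * P.natDegree) / P.natDegree + 1) ≤
      Module.finrank κ (Fil z n : Submodule κ K) := by
  have : Nonempty (Fin k) := ⟨⟨0, hk⟩⟩
  obtain ⟨J, a, ha, hspan, hli⟩ := exists_linearIndependent' (FractionRing κ[X])
    (fun e : Fin k → Fin P.natDegree => ∏ i, z i ^ (e i : ℕ))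
  rw [span_monomials hk P hd z c hz hgen] at hspan
  have : Finite J := Finite.of_injective a ha
  let _ : Fintype J := Fintype.ofFinite J
  have hcard : Module.finrank (FractionRing κ[X]) K = Fintype.card J :=
    Module.finrank_eq_card_basis (Module.Basis.mk hli hspan.ge)
  have hli' : LinearIndependent κ[X]
      ((fun e : Fin k → Fin P.natDegree => ∏ i, z i ^ (e i : ℕ)) ∘ a) :=
    hli.restrict_scalars' κ[X]
  generalize hM : (n - k * P.natDegree) / P.natDegree = M
  have hX : LinearIndependent κ (fun j : Fin (M + 1) => (X : κ[X]) ^ (j : ℕ)) := by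
    have h1 := (Polynomial.basisMonomials κ).linearIndependent.comp
      (fun j : Fin (M + 1) => (j : ℕ)) Fin.val_injective
    have h2 : (fun j : Fin (M + 1) => (X : κ[X]) ^ (j : ℕ)) =
        (⇑(Polynomial.basisMonomials κ)) ∘ (fun j : Fin (M + 1) => (j : ℕ)) := by
      funext j
      rw [Function.comp_apply, Polynomial.coe_basisMonomials, X_pow_eq_monomial]
    rw [h2]
    exact h1
  have hprod := linearIndependent_smul hX hli'
  have hmem : ∀ p : Fin (M + 1) × J, (X : κ[X]) ^ (p.1 : ℕ) •
      ((fun e : Fin k → Fin P.natDegree => ∏ i, z i ^ (e i : ℕ)) ∘ a) p.2 ∈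
      (Fil z n : Submodule κ K) := by
    intro p
    refine fil_of_red P z c hz n (X ^ (p.1 : ℕ)) (fun i => (a p.2 i : ℕ)) (fun _ => ?_)
    rw [natDegree_X_pow]
    have h1 : (p.1 : ℕ) ≤ M := Nat.lt_succ_iff.1 p.1.2
    have h2 : ∑ i, (a p.2 i : ℕ) ≤ k * P.natDegree := by
      calc ∑ i, (a p.2 i : ℕ) ≤ ∑ _i : Fin k, P.natDegree :=
            Finset.sum_le_sum fun i _ => (a p.2 i).2.le
        _ = k * P.natDegree := by simp
    have h3 : M * P.natDegree ≤ n - k * P.natDegree := by
      rw [← hM]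
      exact Nat.div_mul_le_self _ _
    have h4 : (p.1 : ℕ) * P.natDegree ≤ M * P.natDegree := Nat.mul_le_mul_right _ h1
    omega
  have hfin : Module.Finite κ (Fil z n : Submodule κ K) := Fil_finite z n
  have hv : LinearIndependent κ
      (fun p : Fin (M + 1) × J => (⟨_, hmem p⟩ : (Fil z n : Submodule κ K))) := by
    refine LinearIndependent.of_comp (Submodule.subtype _) ?_
    exact hprod
  have h5 := hv.fintype_card_le_finrank
  rw [Fintype.card_prod, Fintype.card_fin] at h5
  rw [hcard, mul_comm]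
  exact h5

end Pool.Agent.W_cae956_st
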