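import Mathlib
import Pool.Agent.W_cae956_st.Dims

set_option autoImplicit false

/-!
# The place at infinity: Liouville inequality, jumps, non-vanishing
-/

open Polynomial

namespace Pool.Agent.W_cae956_st

/-- a discrete valuation with residue field `κ`, with its (linear) coefficient functionals -/
structure Val (κ : Type*) [Field κ] (K : Type*) [Field K] [Algebra κ K] where
  v : K → ℤ
  cf : ℤ → K →ₗ[κ] κ
  mul : ∀ x y : K, x ≠ 0 → y ≠ 0 → v (x * y) = v x + v y
  low : ∀ (x : K) (m : ℤ), m < v x → cf m x = 0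
  lead : ∀ x : K, x ≠ 0 → cf (v x) x ≠ 0

section gen

variable {κ : Type*} [Field κ] {K : Type*} [Field K] [Algebra κ K]

private theorem Val.one (V : Val κ K) : V.v 1 = 0 := by
  have h := V.mul 1 1 one_ne_zero one_ne_zero
  rw [mul_one] at h
  omega

private theorem Val.le_of_cf (V : Val κ K) {x : K} {m : ℤ} (h : V.cf m x ≠ 0) : V.v x ≤ m := by
  by_contra hlt
  exact h (V.low x m (not_le.1 hlt))

theorem Val.pow (V : Val κ K) (x : K) (hx : x ≠ 0) (n : ℕ) : V.v (x ^ n) = n * V.v x := by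
  induction n with
  | zero => simp [V.one]
  | succ n ih =>
    rw [pow_succ, V.mul _ _ (pow_ne_zero _ hx) hx, ih]
    push_cast
    ring

private theorem Val.smul_le (V : Val κ K) (x : K) (hx : x ≠ 0) (a : κ) (ha : a ≠ 0) :
    V.v (a • x) ≤ V.v x := by
  refine V.le_of_cf ?_
  rw [map_smul, smul_eq_mul]
  exact mul_ne_zero ha (V.lead x hx)

theorem Val.smul (V : Val κ K) (x : K) (hx : x ≠ 0) (a : κ) (ha : a ≠ 0) : V.v (a • x) = V.v x := by
  refine le_antisymm (V.smul_le x hx a ha) ?_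
  have h := V.smul_le (a • x) (smul_ne_zero ha hx) a⁻¹ (inv_ne_zero ha)
  rwa [smul_smul, inv_mul_cancel₀ ha, one_smul] at h

/-- a sum of elements, the nonzero ones of which have distinct valuations, is nonzero -/
theorem Val.sum_ne_zero (V : Val κ K) {J : Type*} (s : Finset J) (x : J → K)
    (hne : ∃ j ∈ s, x j ≠ 0)
    (hinj : ∀ i ∈ s, ∀ j ∈ s, x i ≠ 0 → x j ≠ 0 → i ≠ j → V.v (x i) ≠ V.v (x j)) :
    ∑ j ∈ s, x j ≠ 0 := by
  classical
  obtain ⟨j1, hj1, hx1⟩ := hne
  obtain ⟨j0, hj0, hmin⟩ := (s.filter fun j => x j ≠ 0).exists_min_image (fun j => V.v (x j))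
    ⟨j1, Finset.mem_filter.2 ⟨hj1, hx1⟩⟩
  obtain ⟨hj0s, hx0⟩ := Finset.mem_filter.1 hj0
  intro h0
  have h1 : V.cf (V.v (x j0)) (∑ j ∈ s, x j) = V.cf (V.v (x j0)) (x j0) := by
    rw [map_sum]
    refine Finset.sum_eq_single_of_mem j0 hj0s fun j hj hne => ?_
    by_cases hxj : x j = 0
    · rw [hxj, map_zero]
    · refine V.low _ _ (lt_of_le_of_ne (hmin j (Finset.mem_filter.2 ⟨hj, hxj⟩)) ?_)
      exact hinj j0 hj0s j hj hx0 hxj (Ne.symm hne)
  rw [h0, map_zero] at h1
  exact V.lead _ hx0 h1.symm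

/-- lower bound of the valuation of a sum -/
theorem Val.le_sum (V : Val κ K) {J : Type*} (s : Finset J) (x : J → K) (m : ℤ)
    (hm : ∀ j ∈ s, x j ≠ 0 → m ≤ V.v (x j)) (hne : ∑ j ∈ s, x j ≠ 0) :
    m ≤ V.v (∑ j ∈ s, x j) := by
  by_contra hlt
  have h1 := V.lead _ hne
  refine h1 ?_
  conv_lhs => rw [map_sum]
  refine Finset.sum_eq_zero fun j hj => ?_
  by_cases hxj : x j = 0
  · rw [hxj, map_zero]
  · exact V.low _ _ (lt_of_lt_of_le (not_le.1 hlt) (hm j hj hxj))

private theorem Val.prod_low (V : Val κ K) {J : Type*} (t : Finset J) (z : J → K)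
    (hz : ∀ i, -1 ≤ V.v (z i)) (a : J → ℕ) (h : ∏ i ∈ t, z i ^ a i ≠ 0) :
    -((∑ i ∈ t, a i : ℕ) : ℤ) ≤ V.v (∏ i ∈ t, z i ^ a i) := by
  classical
  induction t using Finset.induction_on with
  | empty => simp [V.one]
  | insert i t hi ih =>
    rw [Finset.prod_insert hi] at h ⊢
    rw [Finset.sum_insert hi]
    have h1 := left_ne_zero_of_mul h
    have h2 := right_ne_zero_of_mul h
    rw [V.mul _ _ h1 h2]
    have h3 := ih h2
    have h4 : -(a i : ℤ) ≤ V.v (z i ^ a i) := by
      rcases Nat.eq_zero_or_pos (a i) with h0 | h0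
      · rw [h0, pow_zero, V.one]; simp
      · have h5 : z i ≠ 0 := by
          intro hzi
          rw [hzi, zero_pow h0.ne'] at h1
          exact h1 rfl
        rw [V.pow _ h5]
        have h6 := hz i
        have h7 : (0 : ℤ) ≤ a i := Int.natCast_nonneg _
        nlinarith
    push_cast at h3 ⊢
    linarith

/-- elements of `Fil z n` have a pole of order at most `n` -/
theorem Val.fil_low (V : Val κ K) {k : ℕ} (z : Fin k → K) (hz : ∀ i, -1 ≤ V.v (z i))
    (n : ℕ) (x : K) (hx : x ∈ (Fil z n : Submodule κ K)) (hx0 : x ≠ 0) : -(n : ℤ) ≤ V.v x := by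
  have h1 : ∀ m : ℤ, m < -(n : ℤ) → V.cf m x = 0 := by
    intro m hm
    have h2 : (Fil z n : Submodule κ K) ≤ LinearMap.ker (V.cf m) := by
      unfold Fil
      rw [Submodule.span_le]
      rintro _ ⟨a, ha, rfl⟩
      rw [SetLike.mem_coe, LinearMap.mem_ker]
      by_cases h0 : ∏ i, z i ^ a i = 0
      · rw [h0, map_zero]
      · refine V.low _ _ (lt_of_lt_of_le hm (le_trans ?_ (V.prod_low Finset.univ z hz a h0)))
        have : ((∑ i, a i : ℕ) : ℤ) ≤ n := by exact_mod_cast ha
        linarith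
    exact LinearMap.mem_ker.1 (h2 hx)
  by_contra hlt
  exact V.lead x hx0 (h1 _ (not_le.1 hlt))

/-- a finite dimensional space has (at least) as many jumps as its dimension -/
theorem Val.exists_jumps (V : Val κ K) (W : Submodule κ K) [FiniteDimensional κ W] :
    ∃ (s : Finset ℤ) (b : ℤ → K), (∀ m ∈ s, b m ∈ W ∧ b m ≠ 0 ∧ V.v (b m) = m) ∧
      Module.finrank κ W ≤ s.card := by
  classical
  set J : Set ℤ := {m | ∃ x ∈ W, x ≠ 0 ∧ V.v x = m} with hJ
  have hb : ∀ m : ℤ, ∃ x : K, m ∈ J → x ∈ W ∧ x ≠ 0 ∧ V.v x = m := by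
    intro m
    by_cases hm : m ∈ J
    · obtain ⟨x, hx⟩ := hm
      exact ⟨x, fun _ => hx⟩
    · exact ⟨0, fun h => absurd h hm⟩
  choose b hb using hb
  have hcard : ∀ t : Finset ℤ, (∀ m ∈ t, m ∈ J) → t.card ≤ Module.finrank κ W := by
    intro t ht
    have hli : LinearIndependent κ (fun m : t => (⟨b m, (hb m (ht m m.2)).1⟩ : W)) := by
      rw [Fintype.linearIndependent_iff]
      intro g hg i
      by_contra hgi
      have h1 : ∑ m : t, g m • b m = 0 := by
        have := congrArg (Submodule.subtype W) hg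
        simpa using this
      refine V.sum_ne_zero Finset.univ (fun m : t => g m • b m)
        ⟨i, Finset.mem_univ _, smul_ne_zero hgi (hb i (ht i i.2)).2.1⟩ ?_ h1
      intro m _ m' _ h2 h3 hne
      have hgm : g m ≠ 0 := fun h => h2 (by simp only [h, zero_smul])
      have hgm' : g m' ≠ 0 := fun h => h3 (by simp only [h, zero_smul])
      rw [V.smul _ (hb m (ht m m.2)).2.1 _ hgm, V.smul _ (hb m' (ht m' m'.2)).2.1 _ hgm',
        (hb m (ht m m.2)).2.2, (hb m' (ht m' m'.2)).2.2]
      exact fun h => hne (Subtype.ext h)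
    have := hli.fintype_card_le_finrank
    simpa using this
  have hfin : J.Finite := by
    by_contra hinf
    obtain ⟨t, ht, hc⟩ := Set.Infinite.exists_subset_card_eq hinf (Module.finrank κ W + 1)
    have := hcard t (fun m hm => ht hm)
    omega
  refine ⟨hfin.toFinset, b, fun m hm => hb m (hfin.mem_toFinset.1 hm), ?_⟩
  let φ : W →ₗ[κ] (hfin.toFinset → κ) :=
    LinearMap.pi fun m => (V.cf m).comp W.subtype
  have hφ : Function.Injective φ := by
    rw [← LinearMap.ker_eq_bot, LinearMap.ker_eq_bot']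
    intro x hx
    by_contra hx0
    have hx1 : (x : K) ≠ 0 := fun h => hx0 (Subtype.ext h)
    have hm : V.v (x : K) ∈ hfin.toFinset := hfin.mem_toFinset.2 ⟨x, x.2, hx1, rfl⟩
    have h2 := congrFun hx ⟨V.v (x : K), hm⟩
    exact V.lead _ hx1 h2
  have h3 := LinearMap.finrank_le_finrank_of_injective hφ
  rw [Module.finrank_fintype_fun_eq_card, Fintype.card_coe] at h3
  exact h3

/-- non-vanishing of the auxiliary function -/
theorem Val.aux_ne_zero (V : Val κ K) (p : ℕ) (s : Finset ℤ) (a b : ℤ → K)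
    (hb : ∀ m ∈ s, b m ≠ 0 ∧ V.v (b m) = m) (hne : ∃ m ∈ s, a m ≠ 0) (A L : ℤ)
    (ha : ∀ m ∈ s, a m ≠ 0 → -A ≤ V.v (a m) ∧ V.v (a m) ≤ L) (hp : A + L < p) :
    ∑ m ∈ s, a m * b m ^ p ≠ 0 := by
  obtain ⟨m0, hm0, ha0⟩ := hne
  refine V.sum_ne_zero s (fun m => a m * b m ^ p)
    ⟨m0, hm0, mul_ne_zero ha0 (pow_ne_zero _ (hb m0 hm0).1)⟩ ?_
  intro m hm m' hm' h1 h2 hne
  have h3 := left_ne_zero_of_mul h1
  have h4 := left_ne_zero_of_mul h2
  rw [V.mul _ _ h3 (pow_ne_zero _ (hb m hm).1), V.mul _ _ h4 (pow_ne_zero _ (hb m' hm').1),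
    V.pow _ (hb m hm).1, V.pow _ (hb m' hm').1, (hb m hm).2, (hb m' hm').2]
  intro h5
  have h6 := ha m hm h3
  have h7 := ha m' hm' h4
  have hp0 : (0 : ℤ) < p := by linarith [h6.1, h6.2]
  rcases lt_or_gt_of_ne hne with h8 | h8
  · have h9 : (1 : ℤ) ≤ m' - m := by omega
    nlinarith
  · have h9 : (1 : ℤ) ≤ m - m' := by omega
    nlinarith

end gen

section liou

variable {κ : Type*} [Field κ] {K : Type*} [Field K] [Algebra κ K] [Algebra κ[X] K]
  [Algebra (FractionRing κ[X]) K] [IsScalarTower κ κ[X] K]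
  [IsScalarTower κ[X] (FractionRing κ[X]) K] [FiniteDimensional (FractionRing κ[X]) K]

/-- the valuation of a polynomial in `w` -/
theorem Val.algebraMap_poly (V : Val κ K) (d : ℕ) (hd : 0 < d)
    (hw : V.v (algebraMap κ[X] K X) = -(d : ℤ)) (g : κ[X]) (hg : g ≠ 0) :
    V.v (algebraMap κ[X] K g) = -((d * g.natDegree : ℕ) : ℤ) := by
  set w : K := algebraMap κ[X] K X with hwdef
  have hw0 : w ≠ 0 := by
    intro h
    exact X_ne_zero (algebraMap_inj (κ := κ) (K := K) (h.trans (map_zero _).symm))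
  have hsum : algebraMap κ[X] K g = ∑ i ∈ Finset.range (g.natDegree + 1), g.coeff i • w ^ i := by
    conv_lhs => rw [g.as_sum_range_C_mul_X_pow]
    rw [map_sum]
    refine Finset.sum_congr rfl fun i _ => ?_
    rw [map_mul, map_pow, ← hwdef, Algebra.smul_def, IsScalarTower.algebraMap_apply κ κ[X] K,
      Polynomial.algebraMap_eq]
  have hterm : ∀ i, g.coeff i ≠ 0 → V.v (g.coeff i • w ^ i) = -((d * i : ℕ) : ℤ) := by
    intro i hi
    rw [V.smul _ (pow_ne_zero _ hw0) _ hi, V.pow _ hw0, hw]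
    push_cast
    ring
  have hg0 : algebraMap κ[X] K g ≠ 0 := by
    intro h
    exact hg (algebraMap_inj (κ := κ) (K := K) (h.trans (map_zero _).symm))
  refine le_antisymm ?_ ?_
  · refine V.le_of_cf ?_
    rw [hsum, map_sum, Finset.sum_eq_single_of_mem g.natDegree
      (Finset.mem_range.2 (Nat.lt_succ_self _))]
    · have hlc : g.coeff g.natDegree ≠ 0 := by
        rw [coeff_natDegree]
        exact leadingCoeff_ne_zero.2 hg
      have h1 := V.lead (g.coeff g.natDegree • w ^ g.natDegree)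
        (smul_ne_zero hlc (pow_ne_zero _ hw0))
      rwa [hterm _ hlc] at h1
    · intro i hi hne
      by_cases h0 : g.coeff i = 0
      · rw [h0, zero_smul, map_zero]
      · refine V.low _ _ ?_
        rw [hterm i h0]
        have hi' := Finset.mem_range.1 hi
        have h1 : i < g.natDegree := by omega
        have h2 : d * i < d * g.natDegree := Nat.mul_lt_mul_of_pos_left h1 hd
        have h3 : ((d * i : ℕ) : ℤ) < ((d * g.natDegree : ℕ) : ℤ) := by exact_mod_cast h2
        linarith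
  · rw [hsum] at hg0 ⊢
    refine V.le_sum _ _ _ (fun i hi hne => ?_) hg0
    have h0 : g.coeff i ≠ 0 := by
      intro h
      rw [h, zero_smul] at hne
      exact hne rfl
    rw [hterm i h0]
    have hi' := Finset.mem_range.1 hi
    have h1 : i ≤ g.natDegree := by omega
    have h2 : d * i ≤ d * g.natDegree := Nat.mul_le_mul_left d h1
    have h3 : ((d * i : ℕ) : ℤ) ≤ ((d * g.natDegree : ℕ) : ℤ) := by exact_mod_cast h2
    linarith

/-- Liouville inequality. Proof: put `m = D (n + d (k + 1))`. The spaces `x * Fil z m` and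
`{g(w) : deg g ≤ (m + n) / d}` in `Fil z (m + n)` meet by `dim_lower` and `dim_upper`:
`x y = g(w)` with `y ∈ Fil z m` nonzero; so `v x = v (g(w)) - v y ≤ m`. -/
theorem Val.liouville (V : Val κ K) {k : ℕ} (hk : 0 < k) (P : κ[X]) (hd : 0 < P.natDegree)
    (z : Fin k → K) (c : Fin k → κ)
    (hz : ∀ i, Polynomial.aeval (z i) P = algebraMap κ[X] K X + algebraMap κ K (c i))
    (hgen : IntermediateField.adjoin (FractionRing κ[X]) (Set.range z) = ⊤)
    (hvz : ∀ i, -1 ≤ V.v (z i)) (hw : V.v (algebraMap κ[X] K X) = -(P.natDegree : ℤ))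
    (n : ℕ) (x : K) (hx : x ∈ (Fil z n : Submodule κ K)) (hx0 : x ≠ 0) :
    V.v x ≤ ((Module.finrank (FractionRing κ[X]) K * (n + P.natDegree * (k + 1)) : ℕ) : ℤ) := by
  have : Nonempty (Fin k) := ⟨⟨0, hk⟩⟩
  set D := Module.finrank (FractionRing κ[X]) K with hD
  set d := P.natDegree with hdd
  have hD1 : 1 ≤ D := Module.finrank_pos
  set m := D * (n + d * (k + 1)) with hm
  set N := (m + n) / d with hN
  have hmk : k * d ≤ m := by
    calc k * d ≤ 1 * (n + d * (k + 1)) := by nlinarith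
      _ ≤ m := Nat.mul_le_mul_right _ hD1
  have hlow := dim_lower hk P hd z c hz hgen m hmk
  have hupp := dim_upper hk P hd z c hz (m + n)
  rw [← hdd, ← hD] at hlow hupp
  have := Fil_finite (κ := κ) z m
  have := Fil_finite (κ := κ) z (m + n)
  -- the first space
  have hxinj : Function.Injective (LinearMap.mulLeft κ x) := fun a b hab =>
    mul_left_cancel₀ hx0 hab
  set U1 : Submodule κ K := (Fil z m : Submodule κ K).map (LinearMap.mulLeft κ x) with hU1
  have hU1f : Module.finrank κ U1 = Module.finrank κ (Fil z m : Submodule κ K) :=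
    (Submodule.equivMapOfInjective _ hxinj _).finrank_eq.symm
  have hU1le : U1 ≤ Fil z (m + n) := by
    rintro _ ⟨y, hy, rfl⟩
    rw [add_comm]
    exact Fil_mul z hx hy
  -- the second space
  let ψ : κ[X] →ₗ[κ] K := (Algebra.linearMap κ[X] K).restrictScalars κ
  have hψ : Function.Injective ψ := algebraMap_inj
  set U2 : Submodule κ K := (Polynomial.degreeLT κ (N + 1)).map ψ with hU2
  have hU2f : Module.finrank κ U2 = N + 1 := by
    rw [← (Submodule.equivMapOfInjective _ hψ (Polynomial.degreeLT κ (N + 1))).finrank_eq,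
      (Polynomial.degreeLTEquiv κ (N + 1)).finrank_eq, Module.finrank_fin_fun]
  have hU2le : U2 ≤ Fil z (m + n) := by
    rintro _ ⟨g, hg, rfl⟩
    have hg' : g.natDegree ≤ N := by
      have := Polynomial.mem_degreeLT.1 hg
      rcases eq_or_ne g 0 with h0 | h0
      · rw [h0, natDegree_zero]; exact Nat.zero_le _
      · exact Nat.lt_succ_iff.1 ((natDegree_lt_iff_degree_lt h0).2 this)
    have h1 := Fil_aeval z g hg' (fil_w P z c hz)
    rw [Polynomial.aeval_algebraMap_apply, Polynomial.aeval_X_left_apply] at h1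
    exact Fil_mono z (Nat.div_mul_le_self (m + n) d) h1
  have hsup : Module.finrank κ (U1 ⊔ U2 : Submodule κ K) ≤
      Module.finrank κ (Fil z (m + n) : Submodule κ K) :=
    Submodule.finrank_mono (sup_le hU1le hU2le)
  have : FiniteDimensional κ U1 := Submodule.finiteDimensional_of_le hU1le
  have : FiniteDimensional κ U2 := Submodule.finiteDimensional_of_le hU2le
  have hdim := Submodule.finrank_sup_add_finrank_inf_eq U1 U2
  have hpos : 0 < Module.finrank κ (U1 ⊓ U2 : Submodule κ K) := by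
    have h1 : (m - k * d) / d + k = m / d := by
      rw [← Nat.add_mul_div_right _ _ hd, Nat.sub_add_cancel hmk]
    have h2 : N ≤ m / d + n / d + 1 := by
      rw [hN, Nat.div_le_iff_le_mul_add_pred hd]
      have h3 := Nat.div_add_mod m d
      have h4 := Nat.div_add_mod n d
      have h5 := Nat.mod_lt m hd
      have h6 := Nat.mod_lt n hd
      have h7 : d * (m / d + n / d + 1) = d * (m / d) + d * (n / d) + d := by ring
      rw [h7]
      omega
    have h3 : D * (n / d + k + 1) ≤ N := by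
      rw [hN, Nat.le_div_iff_mul_le hd]
      calc D * (n / d + k + 1) * d = D * (d * (n / d) + d * (k + 1)) := by ring
        _ ≤ D * (n + d * (k + 1)) :=
          Nat.mul_le_mul_left _ (Nat.add_le_add_right (Nat.mul_div_le n d) _)
        _ ≤ m + n := Nat.le_add_right _ _
    have h4 : D * (N + 1) ≤ D * ((m - k * d) / d + 1) + D * (n / d + k + 1) := by
      rw [← Nat.mul_add]
      exact Nat.mul_le_mul_left _ (by omega)
    have hupp' : Module.finrank κ (Fil z (m + n) : Submodule κ K) ≤ D * (N + 1) := hupp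
    rw [hU1f, hU2f] at hdim
    by_contra hneg
    have h5 : Module.finrank κ (U1 ⊓ U2 : Submodule κ K) = 0 := by omega
    rw [h5] at hdim
    linarith
  obtain ⟨y, hy, hy0⟩ : ∃ y ∈ (U1 ⊓ U2 : Submodule κ K), y ≠ 0 := by
    by_contra hno
    push Not at hno
    have : (U1 ⊓ U2 : Submodule κ K) = ⊥ := (Submodule.eq_bot_iff _).2 hno
    rw [this, finrank_bot] at hpos
    exact lt_irrefl _ hpos
  obtain ⟨⟨y1, hy1, hxy⟩, ⟨g, hg, hgy⟩⟩ := hy
  have hxy' : x * y1 = y := hxy
  have hgy' : algebraMap κ[X] K g = y := hgy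
  have hg0 : g ≠ 0 := by
    rintro rfl
    rw [map_zero] at hgy'
    exact hy0 hgy'.symm
  have hy10 : y1 ≠ 0 := by
    rintro rfl
    rw [mul_zero] at hxy'
    exact hy0 hxy'.symm
  have h1 := V.mul x y1 hx0 hy10
  rw [hxy', ← hgy', V.algebraMap_poly d hd hw g hg0] at h1
  have h2 := V.fil_low z hvz m y1 hy1 hy10
  have h3 : (0 : ℤ) ≤ ((d * g.natDegree : ℕ) : ℤ) := Int.natCast_nonneg _
  linarith

end liou

end Pool.Agent.W_cae956_st
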