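import Mathlib

set_option autoImplicit false

/-!
# Divisibility of the auxiliary function at the unramified values `w₀`
-/

open Polynomial

namespace Pool.Agent.W_cae956_st

section count

variable {κ : Type*} [Field κ]

/-- if `P - a` and `P'` are coprime, the roots of `P - a` are simple -/
theorem deriv_ne_zero (P : κ[X]) (a y : κ) (h : IsCoprime (P - C a) (derivative P))
    (hy : P.eval y = a) : (derivative P).eval y ≠ 0 := by
  obtain ⟨u, v, huv⟩ := h
  intro h0
  have h1 := congrArg (Polynomial.eval y) huv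
  rw [eval_add, eval_mul, eval_mul, h0, eval_sub, eval_C, hy, sub_self] at h1
  simp at h1

/-- At most `k * d` values `w₀` are bad. Proof: if `P - C a` and `P'` are not coprime they have a
common root `y` in the algebraic closure; `a = P y` is determined by `y`, and `P' ≠ 0` has at most
`d - 1` roots. -/
theorem good_count {p : ℕ} [Fact p.Prime] {k : ℕ} (P : (ZMod p)[X]) (hP : derivative P ≠ 0)
    (c : Fin k → ZMod p) :
    ∃ s : Finset (ZMod p), p ≤ s.card + k * P.natDegree ∧
      ∀ w₀ ∈ s, ∀ i, IsCoprime (P - C (w₀ + c i)) (derivative P) := by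
  classical
  set L := AlgebraicClosure (ZMod p) with hL
  -- the bad values of `P`
  set R : Finset L := ((derivative P).map (algebraMap (ZMod p) L)).roots.toFinset with hR
  have hRcard : R.card ≤ P.natDegree := by
    calc R.card ≤ Multiset.card ((derivative P).map (algebraMap (ZMod p) L)).roots :=
          Multiset.toFinset_card_le _
      _ ≤ ((derivative P).map (algebraMap (ZMod p) L)).natDegree := card_roots' _
      _ = (derivative P).natDegree := natDegree_map _
      _ ≤ P.natDegree - 1 := natDegree_derivative_le P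
      _ ≤ P.natDegree := Nat.sub_le _ _
  have hbad : ∀ a : ZMod p, ¬ IsCoprime (P - C a) (derivative P) →
      algebraMap (ZMod p) L a ∈ R.image (fun y => aeval y P) := by
    intro a ha
    have ha2 := mt (Polynomial.isCoprime_iff_aeval_ne_zero_of_isAlgClosed (ZMod p) L (P - C a)
      (derivative P)).2 ha
    push Not at ha2
    obtain ⟨y, hy1, hy2⟩ := ha2
    rw [Finset.mem_image]
    refine ⟨y, ?_, ?_⟩
    · rw [hR, Multiset.mem_toFinset, mem_roots]
      · rw [IsRoot.def, eval_map_algebraMap]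
        exact hy2
      · rw [Polynomial.map_ne_zero_iff (algebraMap (ZMod p) L).injective]
        exact hP
    · rw [map_sub, aeval_C, sub_eq_zero] at hy1
      exact hy1
  have hbi : ∀ i : Fin k, (Finset.univ.filter
      (fun w₀ : ZMod p => ¬ IsCoprime (P - C (w₀ + c i)) (derivative P))).card ≤ P.natDegree := by
    intro i
    refine le_trans ?_ hRcard
    refine le_trans ?_ (Finset.card_image_le (s := R) (f := fun y => aeval y P))
    apply Finset.card_le_card_of_injOn (fun w₀ => algebraMap (ZMod p) L (w₀ + c i))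
    · intro w₀ hw₀
      have := (Finset.mem_filter.1 hw₀).2
      exact hbad _ this
    · intro a _ b _ hab
      have := (algebraMap (ZMod p) L).injective hab
      exact add_right_cancel this
  refine ⟨Finset.univ.filter (fun w₀ : ZMod p => ∀ i, IsCoprime (P - C (w₀ + c i)) (derivative P)),
    ?_, fun w₀ hw₀ => (Finset.mem_filter.1 hw₀).2⟩
  have hsplit := Finset.card_filter_add_card_filter_not (s := (Finset.univ : Finset (ZMod p)))
    (fun w₀ : ZMod p => ∀ i, IsCoprime (P - C (w₀ + c i)) (derivative P))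
  rw [Finset.card_univ, ZMod.card] at hsplit
  have hsub : Finset.univ.filter
      (fun w₀ : ZMod p => ¬ ∀ i, IsCoprime (P - C (w₀ + c i)) (derivative P)) ⊆
      (Finset.univ : Finset (Fin k)).biUnion (fun i => Finset.univ.filter
      (fun w₀ : ZMod p => ¬ IsCoprime (P - C (w₀ + c i)) (derivative P))) := by
    intro w₀ hw₀
    have h1 := (Finset.mem_filter.1 hw₀).2
    push Not at h1
    obtain ⟨i, hi⟩ := h1
    rw [Finset.mem_biUnion]
    exact ⟨i, Finset.mem_univ _, Finset.mem_filter.2 ⟨Finset.mem_univ _, hi⟩⟩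
  have h2 := (Finset.card_le_card hsub).trans Finset.card_biUnion_le
  have h3 : ∑ i : Fin k, (Finset.univ.filter
      (fun w₀ : ZMod p => ¬ IsCoprime (P - C (w₀ + c i)) (derivative P))).card ≤
      k * P.natDegree := by
    calc _ ≤ ∑ _i : Fin k, P.natDegree := Finset.sum_le_sum fun i _ => hbi i
      _ = k * P.natDegree := by simp
  omega

end count

section loc_aux

/-- `b ^ p - b` is the product of the `b - a` -/
private theorem Loc_prod_sub {p : ℕ} [Fact p.Prime] {R : Type*} [CommRing R] [Algebra (ZMod p) R]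
    (b : R) : ∏ a : ZMod p, (b - algebraMap (ZMod p) R a) = b ^ p - b := by
  have hp : 1 < p := (Fact.out : p.Prime).one_lt
  have hroots : (X ^ p - X : (ZMod p)[X]).roots = Finset.univ.val := by
    have := FiniteField.roots_X_pow_card_sub_X (ZMod p)
    rwa [ZMod.card] at this
  have hdeg : (X ^ p - X : (ZMod p)[X]).natDegree = p :=
    FiniteField.X_pow_card_sub_X_natDegree_eq (ZMod p) hp
  have hmon : (X ^ p - X : (ZMod p)[X]).Monic := by
    apply monic_X_pow_sub
    rw [degree_X]
    exact_mod_cast hp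
  have h := prod_multiset_X_sub_C_of_monic_of_roots_card_eq hmon (by
    rw [hroots, hdeg]
    simp [ZMod.card])
  rw [hroots] at h
  have h2 := congrArg (fun q => aeval b q) h
  simp only [map_sub, map_pow, aeval_X] at h2
  rw [← h2]
  change _ = aeval b (∏ a : ZMod p, (X - C a))
  rw [map_prod]
  simp

/-- units modulo `u`: powers -/
private theorem Loc_unit_pow {p : ℕ} [Fact p.Prime] {K : Type*} [Field K] [Algebra (ZMod p) K]
    (B : Subalgebra (ZMod p) K) {u x : K} (hu : u ∈ B) (h : ∃ s ∈ B, ∃ t ∈ B, x * s = 1 + u * t)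
    (m : ℕ) : ∃ s ∈ B, ∃ t ∈ B, x ^ m * s = 1 + u * t := by
  induction m with
  | zero => exact ⟨1, B.one_mem, 0, B.zero_mem, by simp⟩
  | succ m ih =>
    obtain ⟨s, hs, t, ht, e⟩ := h
    obtain ⟨s', hs', t', ht', e'⟩ := ih
    refine ⟨s' * s, B.mul_mem hs' hs, t' + t + u * t' * t,
      B.add_mem (B.add_mem ht' ht) (B.mul_mem (B.mul_mem hu ht') ht), ?_⟩
    calc x ^ (m + 1) * (s' * s) = (x ^ m * s') * (x * s) := by ring
      _ = (1 + u * t') * (1 + u * t) := by rw [e, e']
      _ = 1 + u * (t' + t + u * t' * t) := by ring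

/-- units modulo `u`: products -/
private theorem Loc_unit_prod {p : ℕ} [Fact p.Prime] {K : Type*} [Field K] [Algebra (ZMod p) K]
    (B : Subalgebra (ZMod p) K) {u : K} (hu : u ∈ B) {ι : Type*} (S : Finset ι) (x : ι → K)
    (h : ∀ i ∈ S, ∃ s ∈ B, ∃ t ∈ B, x i * s = 1 + u * t) :
    ∃ s ∈ B, ∃ t ∈ B, (∏ i ∈ S, x i) * s = 1 + u * t := by
  classical
  induction S using Finset.induction_on with
  | empty => exact ⟨1, B.one_mem, 0, B.zero_mem, by simp⟩
  | insert a S ha ih =>
    obtain ⟨s, hs, t, ht, e⟩ := h a (Finset.mem_insert_self _ _)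
    obtain ⟨s', hs', t', ht', e'⟩ := ih fun i hi => h i (Finset.mem_insert_of_mem hi)
    refine ⟨s' * s, B.mul_mem hs' hs, t' + t + u * t' * t,
      B.add_mem (B.add_mem ht' ht) (B.mul_mem (B.mul_mem hu ht') ht), ?_⟩
    rw [Finset.prod_insert ha]
    calc x a * (∏ i ∈ S, x i) * (s' * s) = ((∏ i ∈ S, x i) * s') * (x a * s) := by ring
      _ = (1 + u * t') * (1 + u * t) := by rw [e, e']
      _ = 1 + u * (t' + t + u * t' * t) := by ring

end loc_aux

section loc

variable {p : ℕ} [Fact p.Prime] {K : Type*} [Field K] [Algebra (ZMod p) K]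

/-- If there is no point of the curve over `w₀` with coordinates in `ZMod p`, then the elements
`b ^ p - b` and `w - w₀` generate the unit ideal of `B`. Proof: otherwise they lie in a maximal
ideal `m` of `B`; every element of the field `B / m` is a root of `X ^ p - X`, so it comes from
`ZMod p`, and the images of the `z i` give a point. -/
theorem unit_ideal {k : ℕ} (P : (ZMod p)[X]) (z : Fin k → K) (c : Fin k → ZMod p) (w : K)
    (hz : ∀ i, Polynomial.aeval (z i) P = w + algebraMap (ZMod p) K (c i)) (w₀ : ZMod p)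
    (hw : w ∈ Algebra.adjoin (ZMod p) (Set.range z))
    (hno : ¬ ∃ y : Fin k → ZMod p, ∀ i, P.eval (y i) = w₀ + c i)
    (I : Ideal (Algebra.adjoin (ZMod p) (Set.range z)))
    (hI1 : (⟨w, hw⟩ : Algebra.adjoin (ZMod p) (Set.range z)) -
      algebraMap (ZMod p) (Algebra.adjoin (ZMod p) (Set.range z)) w₀ ∈ I)
    (hI2 : ∀ b : Algebra.adjoin (ZMod p) (Set.range z), b ^ p - b ∈ I) : I = ⊤ := by
  by_contra hI
  obtain ⟨m, hm, hIm⟩ := Ideal.exists_le_maximal I hI
  have hz' : ∀ i, ∃ y : ZMod p, (⟨z i, Algebra.subset_adjoin ⟨i, rfl⟩⟩ :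
      Algebra.adjoin (ZMod p) (Set.range z)) - algebraMap (ZMod p) _ y ∈ m := by
    intro i
    have h1 := hIm (hI2 ⟨z i, Algebra.subset_adjoin ⟨i, rfl⟩⟩)
    rw [← Loc_prod_sub] at h1
    obtain ⟨y, _, hy⟩ := (hm.isPrime.prod_mem_iff).1 h1
    exact ⟨y, hy⟩
  choose y hy using hz'
  apply hno
  refine ⟨y, fun i => ?_⟩
  by_contra hne
  -- the constant `P (y i) - w₀ - c i` lies in `m`
  set zi : Algebra.adjoin (ZMod p) (Set.range z) := ⟨z i, Algebra.subset_adjoin ⟨i, rfl⟩⟩ with hzi
  have e1 : aeval zi P - algebraMap (ZMod p) (Algebra.adjoin (ZMod p) (Set.range z))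
      (P.eval (y i)) ∈ m := by
    have h2 : zi - algebraMap (ZMod p) _ (y i) ∣ aeval zi P -
        aeval (algebraMap (ZMod p) (Algebra.adjoin (ZMod p) (Set.range z)) (y i)) P := by
      rw [← eval_map_algebraMap, ← eval_map_algebraMap]
      exact sub_dvd_eval_sub _ _ _
    rw [aeval_algebraMap_apply] at h2
    obtain ⟨q, hq⟩ := h2
    have h3 : aeval zi P - algebraMap (ZMod p) (Algebra.adjoin (ZMod p) (Set.range z))
        (P.eval (y i)) = (zi - algebraMap (ZMod p) _ (y i)) * q := by
      rw [← hq]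
      rfl
    rw [h3]
    exact Ideal.mul_mem_right _ _ (hy i)
  have e2 : aeval zi P = (⟨w, hw⟩ : Algebra.adjoin (ZMod p) (Set.range z)) +
      algebraMap (ZMod p) _ (c i) := by
    apply Subtype.ext
    have h4 : ((aeval zi P : Algebra.adjoin (ZMod p) (Set.range z)) : K) = aeval (z i) P := by
      have := Polynomial.aeval_algHom_apply (Algebra.adjoin (ZMod p) (Set.range z)).val zi P
      exact this.symm
    rw [h4, hz i]
    rfl
  have e3 : algebraMap (ZMod p) (Algebra.adjoin (ZMod p) (Set.range z))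
      (P.eval (y i) - (w₀ + c i)) ∈ m := by
    have h5 := m.sub_mem (hIm hI1) e1
    rw [e2] at h5
    have h6 : algebraMap (ZMod p) (Algebra.adjoin (ZMod p) (Set.range z))
      (P.eval (y i) - (w₀ + c i)) = (⟨w, hw⟩ : Algebra.adjoin (ZMod p) (Set.range z)) -
      algebraMap (ZMod p) (Algebra.adjoin (ZMod p) (Set.range z)) w₀ -
      ((⟨w, hw⟩ : Algebra.adjoin (ZMod p) (Set.range z)) +
      algebraMap (ZMod p) _ (c i) - algebraMap (ZMod p) (Algebra.adjoin (ZMod p) (Set.range z))
        (P.eval (y i))) := by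
      rw [map_sub, map_add]
      ring
    rw [h6]
    exact h5
  have hunit : IsUnit (algebraMap (ZMod p) (Algebra.adjoin (ZMod p) (Set.range z))
      (P.eval (y i) - (w₀ + c i))) := by
    apply IsUnit.map
    rw [isUnit_iff_ne_zero, sub_ne_zero]
    exact hne
  exact hm.ne_top (Ideal.eq_top_of_isUnit_mem _ e3 hunit)

/-- Leibniz: `D^m ((w - w₀)^m G) ≡ m! π^m G` modulo `w - w₀`, where `π = D w`. -/
theorem iter_deriv (D : Derivation (ZMod p) K K) (B : Subalgebra (ZMod p) K)
    (hDB : ∀ x ∈ B, D x ∈ B) (w : K) (hw : w ∈ B) (w₀ : ZMod p) (m : ℕ) (G : K) (hG : G ∈ B) :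
    ∃ H ∈ B, (⇑D)^[m] ((w - algebraMap (ZMod p) K w₀) ^ m * G) =
      (m.factorial : K) * (D w) ^ m * G + (w - algebraMap (ZMod p) K w₀) * H := by
  set u : K := w - algebraMap (ZMod p) K w₀ with hu
  have huB : u ∈ B := B.sub_mem hw (B.algebraMap_mem w₀)
  have hDu : D u = D w := by
    rw [hu, map_sub, D.map_algebraMap, sub_zero]
  have hπ : D w ∈ B := hDB w hw
  have key : ∀ m : ℕ, ∀ G ∈ B, ∃ H ∈ B, (⇑D)^[m] (u ^ m * G) =
      (m.factorial : K) * (D w) ^ m * G + u * H := by
    intro m
    induction m with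
    | zero =>
      intro G hG
      exact ⟨0, B.zero_mem, by simp⟩
    | succ m ih =>
      intro G hG
      have hG' : ((m : K) + 1) * D w * G + u * D G ∈ B := by
        refine B.add_mem (B.mul_mem (B.mul_mem ?_ hπ) hG) (B.mul_mem huB (hDB G hG))
        have : ((m : K) + 1) = ((m + 1 : ℕ) : K) := by push_cast; ring
        rw [this]
        exact natCast_mem B _
      obtain ⟨H, hH, e⟩ := ih _ hG'
      refine ⟨(m.factorial : K) * (D w) ^ m * D G + H, ?_, ?_⟩
      · refine B.add_mem (B.mul_mem (B.mul_mem (natCast_mem B _) (B.pow_mem hπ _)) (hDB G hG)) hH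
      · rw [Function.iterate_succ_apply]
        have h1 : D (u ^ (m + 1) * G) = u ^ m * (((m : K) + 1) * D w * G + u * D G) := by
          rw [D.leibniz, D.leibniz_pow, hDu]
          simp only [smul_eq_mul, nsmul_eq_mul, Nat.add_sub_cancel]
          push_cast
          ring
        rw [h1, e, Nat.factorial_succ]
        push_cast
        ring
  exact key m G hG

/-- The divisibility of the auxiliary function `F` by `(w - w₀) ^ M` at a good `w₀`.
Proof: (1) `hF` and `unit_ideal` give `D^m F ∈ (w - w₀) B` for all `m < M` (note that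
`w ^ p - w` is divisible by `w - w₀`); (2) `D w = ∏ P' (z i)` is a unit modulo `w - w₀` by
`hgood`; (3) induction: if `F = (w - w₀) ^ m G` then by `iter_deriv` `m! (D w)^m G ∈ (w - w₀) B`,
hence `G ∈ (w - w₀) B` since `m < p`. -/
theorem loc_div {k : ℕ} (P : (ZMod p)[X]) (z : Fin k → K) (c : Fin k → ZMod p) (w : K)
    (hz : ∀ i, Polynomial.aeval (z i) P = w + algebraMap (ZMod p) K (c i)) (w₀ : ZMod p)
    (hw : w ∈ Algebra.adjoin (ZMod p) (Set.range z))
    (hno : ¬ ∃ y : Fin k → ZMod p, ∀ i, P.eval (y i) = w₀ + c i)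
    (hgood : ∀ i, IsCoprime (P - C (w₀ + c i)) (derivative P))
    (D : Derivation (ZMod p) K K)
    (hDB : ∀ x ∈ Algebra.adjoin (ZMod p) (Set.range z),
      D x ∈ Algebra.adjoin (ZMod p) (Set.range z))
    (hDw : D w = ∏ i, Polynomial.aeval (z i) (derivative P))
    (M : ℕ) (hM : M ≤ p) (F : K) (hFB : F ∈ Algebra.adjoin (ZMod p) (Set.range z))
    (hF : ∀ m < M, ∀ b ∈ Algebra.adjoin (ZMod p) (Set.range z),
      ∃ H ∈ Algebra.adjoin (ZMod p) (Set.range z), ((⇑D)^[m] F) * (b ^ p - b) = (w ^ p - w) * H) :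
    ∃ G ∈ Algebra.adjoin (ZMod p) (Set.range z), F = (w - algebraMap (ZMod p) K w₀) ^ M * G := by
  set B := Algebra.adjoin (ZMod p) (Set.range z) with hB
  set u : K := w - algebraMap (ZMod p) K w₀ with hu
  have huB : u ∈ B := B.sub_mem hw (B.algebraMap_mem w₀)
  have hp : p.Prime := Fact.out
  have hchar : CharP K p := by
    exact charP_of_injective_algebraMap (algebraMap (ZMod p) K).injective p
  have hw0 : (algebraMap (ZMod p) K w₀) ^ p = algebraMap (ZMod p) K w₀ := by
    rw [← map_pow, ZMod.pow_card]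
  have hwp : w ^ p - w = u * (u ^ (p - 1) - 1) := by
    have h1 : w = u + algebraMap (ZMod p) K w₀ := by rw [hu]; ring
    have h2 : w ^ p = u ^ p + algebraMap (ZMod p) K w₀ := by
      conv_lhs => rw [h1]
      rw [add_pow_char, hw0]
    have h3 : u ^ p = u * u ^ (p - 1) := by
      rw [← pow_succ']
      congr 1
      have := hp.one_lt
      omega
    rw [h2, h3]
    have h4 : algebraMap (ZMod p) K w₀ = w - u := by rw [hu]; ring
    rw [h4]
    ring
  have hziB : ∀ i, z i ∈ B := fun i => Algebra.subset_adjoin ⟨i, rfl⟩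
  have hpolB : ∀ (Q : (ZMod p)[X]) (i : Fin k), aeval (z i) Q ∈ B := by
    intro Q i
    have := Polynomial.aeval_algHom_apply B.val (⟨z i, hziB i⟩ : B) Q
    have h2 : aeval (z i) Q = B.val (aeval (⟨z i, hziB i⟩ : B) Q) := this
    rw [h2]
    exact (aeval (⟨z i, hziB i⟩ : B) Q).2
  -- every factor of `D w` is a unit modulo `u`
  have hfac : ∀ i ∈ (Finset.univ : Finset (Fin k)),
      ∃ s ∈ B, ∃ t ∈ B, aeval (z i) (derivative P) * s = 1 + u * t := by
    intro i _
    obtain ⟨r, s, hrs⟩ := hgood i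
    refine ⟨aeval (z i) s, hpolB s i, - aeval (z i) r, B.neg_mem (hpolB r i), ?_⟩
    have h1 := congrArg (fun q => aeval (z i) q) hrs
    simp only [map_add, map_mul, map_sub, aeval_C, map_one, hz i] at h1
    have h2 : aeval (z i) r * u + aeval (z i) s * aeval (z i) (derivative P) = 1 := by
      rw [← h1, hu]
      ring
    linear_combination h2
  have hπ := Loc_unit_prod B huB Finset.univ (fun i => aeval (z i) (derivative P)) hfac
  rw [← hDw] at hπ
  have hDit : ∀ m, (⇑D)^[m] F ∈ B := by
    intro m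
    induction m with
    | zero => exact hFB
    | succ m ih =>
      rw [Function.iterate_succ_apply']
      exact hDB _ ih
  -- step (1)
  have hstep1 : ∀ m < M, ∃ H ∈ B, (⇑D)^[m] F = u * H := by
    intro m hm
    let I : Ideal B :=
      { carrier := {b | ∃ H ∈ B, (⇑D)^[m] F * (b : K) = u * H}
        add_mem' := by
          rintro a b ⟨H, hH, e⟩ ⟨H', hH', e'⟩
          refine ⟨H + H', B.add_mem hH hH', ?_⟩
          push_cast
          rw [mul_add, e, e']
          ring
        zero_mem' := ⟨0, B.zero_mem, by simp⟩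
        smul_mem' := by
          rintro c b ⟨H, hH, e⟩
          refine ⟨c * H, B.mul_mem c.2 hH, ?_⟩
          simp only [smul_eq_mul]
          push_cast
          linear_combination (c : K) * e }
    have hI : I = ⊤ := by
      apply unit_ideal P z c w hz w₀ hw hno I
      · refine ⟨(⇑D)^[m] F, hDit m, ?_⟩
        have : (((⟨w, hw⟩ : B) - algebraMap (ZMod p) B w₀ : B) : K) = u := rfl
        rw [this]
        ring
      · intro b
        obtain ⟨H, hH, e⟩ := hF m hm b b.2
        refine ⟨(u ^ (p - 1) - 1) * H, B.mul_mem (B.sub_mem (B.pow_mem huB _) B.one_mem) hH, ?_⟩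
        push_cast
        rw [e, hwp]
        ring
    have h1 : (1 : B) ∈ I := by rw [hI]; trivial
    obtain ⟨H, hH, e⟩ := h1
    refine ⟨H, hH, ?_⟩
    rw [← e]
    simp
  -- step (3)
  have key : ∀ m ≤ M, ∃ G ∈ B, F = u ^ m * G := by
    intro m
    induction m with
    | zero => exact fun _ => ⟨F, hFB, by simp⟩
    | succ m ih =>
      intro hm
      obtain ⟨G, hG, e⟩ := ih (by omega)
      obtain ⟨H1, hH1, e1⟩ := hstep1 m (by omega)
      obtain ⟨H2, hH2, e2⟩ := iter_deriv D B hDB w hw w₀ m G hG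
      rw [← hu, ← e, e1] at e2
      obtain ⟨s, hs, t, ht, e3⟩ := Loc_unit_pow B huB hπ m
      -- the factorial is a unit
      have hfne : (m.factorial : ZMod p) ≠ 0 := by
        intro h0
        rw [ZMod.natCast_eq_zero_iff] at h0
        have := (hp.dvd_factorial).1 h0
        omega
      set f : K := algebraMap (ZMod p) K ((m.factorial : ZMod p)⁻¹) with hf
      have hfB : f ∈ B := B.algebraMap_mem _
      have hff : f * (m.factorial : K) = 1 := by
        rw [hf, ← map_natCast (algebraMap (ZMod p) K), ← map_mul, inv_mul_cancel₀ hfne, map_one]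
      refine ⟨s * f * (H1 - H2) - t * G, ?_, ?_⟩
      · exact B.sub_mem (B.mul_mem (B.mul_mem hs hfB) (B.sub_mem hH1 hH2)) (B.mul_mem ht hG)
      · have h4 : G = u * (s * f * (H1 - H2) - t * G) := by
          have h5 : (m.factorial : K) * D w ^ m * G = u * (H1 - H2) := by
            linear_combination -e2
          have h6 : D w ^ m * G = f * (u * (H1 - H2)) := by
            rw [← h5]
            linear_combination (-(D w ^ m * G)) * hff
          linear_combination (-G) * e3 + s * h6
        rw [e, pow_succ, mul_assoc, ← h4]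
  exact key M le_rfl

/-- gluing of the divisibilities at different `w₀` -/
theorem prod_div (B : Subalgebra (ZMod p) K) (w : K) (hw : w ∈ B) (M : ℕ) (F : K) (hF : F ∈ B)
    (s : Finset (ZMod p))
    (h : ∀ w₀ ∈ s, ∃ G ∈ B, F = (w - algebraMap (ZMod p) K w₀) ^ M * G) :
    ∃ H ∈ B, F = (∏ w₀ ∈ s, (w - algebraMap (ZMod p) K w₀) ^ M) * H := by
  have h1 : (∏ w₀ ∈ s, ((⟨w, hw⟩ : B) - algebraMap (ZMod p) B w₀) ^ M) ∣ (⟨F, hF⟩ : B) := by
    apply Finset.prod_dvd_of_coprime
    · intro a _ b _ hab
      apply IsCoprime.pow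
      refine ⟨algebraMap (ZMod p) B (b - a)⁻¹, - algebraMap (ZMod p) B (b - a)⁻¹, ?_⟩
      have hne : b - a ≠ 0 := sub_ne_zero.2 (Ne.symm hab)
      calc algebraMap (ZMod p) B (b - a)⁻¹ * ((⟨w, hw⟩ : B) - algebraMap (ZMod p) B a) +
            - algebraMap (ZMod p) B (b - a)⁻¹ * ((⟨w, hw⟩ : B) - algebraMap (ZMod p) B b)
          = algebraMap (ZMod p) B (b - a)⁻¹ * (algebraMap (ZMod p) B b - algebraMap (ZMod p) B a) := by
            ring
        _ = 1 := by
            rw [← map_sub, ← map_mul, inv_mul_cancel₀ hne, map_one]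
    · intro w₀ hw₀
      obtain ⟨G, hG, e⟩ := h w₀ hw₀
      refine ⟨⟨G, hG⟩, Subtype.ext ?_⟩
      simpa using e
  obtain ⟨H, hH⟩ := h1
  refine ⟨H, H.2, ?_⟩
  have h2 := congrArg (fun x : B => (x : K)) hH
  simpa using h2

end loc

end Pool.Agent.W_cae956_st
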