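import Mathlib
import Pool.Agent.W_cae956_st.Dims

set_option autoImplicit false

/-!
# The off-diagonal part of `K ⊗ K`
-/

open Polynomial
open scoped TensorProduct

namespace Pool.Agent.W_cae956_st

section diag

/-- the idempotent of the diagonal -/
theorem exists_diag (F K : Type*) [Field F] [Field K] [Algebra F K] [FiniteDimensional F K]
    [Algebra.IsSeparable F K] :
    ∃ t : K ⊗[F] K, (∀ s : K, ((1 : K) ⊗ₜ[F] s) * t = (s ⊗ₜ[F] (1 : K)) * t) ∧
      Algebra.TensorProduct.lmul' F t = 1 ∧ t * t = t := by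
  have hU : Algebra.FormallyUnramified F K := Algebra.FormallyUnramified.of_isSeparable F K
  obtain ⟨t, ht, ht1⟩ := Algebra.FormallyUnramified.iff_exists_tensorProduct.1 hU
  have hs : ∀ s : K, ((1 : K) ⊗ₜ[F] s) * t = (s ⊗ₜ[F] (1 : K)) * t := by
    intro s
    have h := ht s
    rw [sub_mul, sub_eq_zero] at h
    exact h
  have hx : ∀ x : K ⊗[F] K, x * t = ((Algebra.TensorProduct.lmul' F x) ⊗ₜ[F] (1 : K)) * t := by
    intro x
    induction x using TensorProduct.induction_on with
    | zero => rw [map_zero, TensorProduct.zero_tmul]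
    | tmul a b =>
      have h1 : (a ⊗ₜ[F] b : K ⊗[F] K) = (a ⊗ₜ[F] (1 : K)) * ((1 : K) ⊗ₜ[F] b) := by
        rw [Algebra.TensorProduct.tmul_mul_tmul, mul_one, one_mul]
      rw [h1, mul_assoc, hs b, ← mul_assoc, Algebra.TensorProduct.tmul_mul_tmul, mul_one,
        Algebra.TensorProduct.tmul_mul_tmul, mul_one, one_mul,
        Algebra.TensorProduct.lmul'_apply_tmul]
    | add x y hx hy => rw [add_mul, hx, hy, map_add, TensorProduct.add_tmul, add_mul]
  refine ⟨t, hs, ht1, ?_⟩
  rw [hx t, ht1]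
  show (1 : K ⊗[F] K) * t = t
  rw [one_mul]

theorem tensor_reduced (F K : Type*) [Field F] [Field K] [Algebra F K] [FiniteDimensional F K]
    [Algebra.IsSeparable F K] : IsReduced (K ⊗[F] K) := by
  have hU : Algebra.FormallyUnramified F K := Algebra.FormallyUnramified.of_isSeparable F K
  have hU2 : Algebra.FormallyUnramified K (K ⊗[F] K) := inferInstance
  exact Algebra.FormallyUnramified.isReduced_of_field K (K ⊗[F] K)

/-- the off-diagonal ideal has dimension `D * D - D` -/
theorem finrank_off (F K : Type*) [Field F] [Field K] [Algebra F K] [FiniteDimensional F K]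
    (t : K ⊗[F] K) (ht : Algebra.TensorProduct.lmul' F t = 1) :
    Module.finrank F (LinearMap.range (LinearMap.mulLeft F (1 - t))) ≤
      Module.finrank F K * Module.finrank F K - Module.finrank F K := by
  have h1 : LinearMap.range (LinearMap.mulLeft F (1 - t)) ≤
      LinearMap.ker (Algebra.TensorProduct.lmul' F (S := K)).toLinearMap := by
    rintro _ ⟨x, rfl⟩
    rw [LinearMap.mem_ker]
    show Algebra.TensorProduct.lmul' F ((1 - t) * x) = 0
    rw [map_mul, map_sub, map_one, ht, sub_self, zero_mul]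
  have h2 := LinearMap.finrank_range_add_finrank_ker
    (Algebra.TensorProduct.lmul' F (S := K)).toLinearMap
  have h3 : LinearMap.range (Algebra.TensorProduct.lmul' F (S := K)).toLinearMap = ⊤ := by
    rw [LinearMap.range_eq_top]
    intro x
    refine ⟨x ⊗ₜ 1, ?_⟩
    show Algebra.TensorProduct.lmul' F (x ⊗ₜ 1) = x
    rw [Algebra.TensorProduct.lmul'_apply_tmul, mul_one]
  rw [h3, finrank_top, Module.finrank_tensorProduct] at h2
  have h4 := Submodule.finrank_mono h1
  omega

end diag

section off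

variable {κ : Type*} [Field κ] {K : Type*} [Field K] [Algebra κ K] [Algebra κ[X] K]
  [Algebra (FractionRing κ[X]) K] [IsScalarTower κ κ[X] K]
  [IsScalarTower κ[X] (FractionRing κ[X]) K] [IsScalarTower κ (FractionRing κ[X]) K]
  [FiniteDimensional (FractionRing κ[X]) K]

/-- the two families of generators of `K ⊗ K` -/
noncomputable def zz {k : ℕ} (z : Fin k → K) : Fin k ⊕ Fin k → K ⊗[FractionRing κ[X]] K :=
  Sum.elim (fun i => z i ⊗ₜ 1) (fun i => 1 ⊗ₜ z i)

/-- the space of the off-diagonal parts of the polynomials of total degree at most `n` -/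
noncomputable def Off {k : ℕ} (z : Fin k → K) (t : K ⊗[FractionRing κ[X]] K) (n : ℕ) :
    Submodule κ (K ⊗[FractionRing κ[X]] K) :=
  (Fil (zz z) n).map (LinearMap.mulLeft κ (1 - t))

theorem Off_mem {k : ℕ} (z : Fin k → K) (t : K ⊗[FractionRing κ[X]] K) {n m : ℕ} {a b : K}
    (ha : a ∈ (Fil z n : Submodule κ K)) (hb : b ∈ (Fil z m : Submodule κ K)) :
    (1 - t) * (a ⊗ₜ b) ∈ (Off z t (n + m) : Submodule κ (K ⊗[FractionRing κ[X]] K)) := by
  have hl : ∀ a ∈ (Fil z n : Submodule κ K), (a ⊗ₜ[FractionRing κ[X]] (1 : K)) ∈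
      (Fil (zz z) n : Submodule κ (K ⊗[FractionRing κ[X]] K)) := by
    intro a ha
    refine Submodule.span_induction
      (p := fun a _ => (a ⊗ₜ[FractionRing κ[X]] (1 : K)) ∈
        (Fil (zz z) n : Submodule κ (K ⊗[FractionRing κ[X]] K))) ?_ ?_ ?_ ?_ ha
    · rintro _ ⟨e, he, rfl⟩
      refine Submodule.subset_span ⟨Sum.elim e 0, ?_, ?_⟩
      · rw [Fintype.sum_sum_type]
        simpa using he
      · rw [Fintype.prod_sum_type]
        simp only [zz, Sum.elim_inl, Sum.elim_inr, Pi.zero_apply, pow_zero, Finset.prod_const_one,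
          mul_one, Algebra.TensorProduct.tmul_pow, one_pow]
        exact map_prod (Algebra.TensorProduct.includeLeft :
          K →ₐ[FractionRing κ[X]] K ⊗[FractionRing κ[X]] K) _ _
    · rw [TensorProduct.zero_tmul]
      exact Submodule.zero_mem _
    · intro x y _ _ hx hy
      rw [TensorProduct.add_tmul]
      exact Submodule.add_mem _ hx hy
    · intro r x _ hx
      rw [← TensorProduct.smul_tmul']
      exact Submodule.smul_mem _ _ hx
  have hr : ∀ b ∈ (Fil z m : Submodule κ K), ((1 : K) ⊗ₜ[FractionRing κ[X]] b) ∈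
      (Fil (zz z) m : Submodule κ (K ⊗[FractionRing κ[X]] K)) := by
    intro b hb
    refine Submodule.span_induction
      (p := fun b _ => ((1 : K) ⊗ₜ[FractionRing κ[X]] b) ∈
        (Fil (zz z) m : Submodule κ (K ⊗[FractionRing κ[X]] K))) ?_ ?_ ?_ ?_ hb
    · rintro _ ⟨e, he, rfl⟩
      refine Submodule.subset_span ⟨Sum.elim 0 e, ?_, ?_⟩
      · rw [Fintype.sum_sum_type]
        simpa using he
      · rw [Fintype.prod_sum_type]
        simp only [zz, Sum.elim_inl, Sum.elim_inr, Pi.zero_apply, pow_zero, Finset.prod_const_one,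
          one_mul, Algebra.TensorProduct.tmul_pow, one_pow]
        exact map_prod (Algebra.TensorProduct.includeRight :
          K →ₐ[FractionRing κ[X]] K ⊗[FractionRing κ[X]] K) _ _
    · rw [TensorProduct.tmul_zero]
      exact Submodule.zero_mem _
    · intro x y _ _ hx hy
      rw [TensorProduct.tmul_add]
      exact Submodule.add_mem _ hx hy
    · intro r x _ hx
      rw [TensorProduct.tmul_smul]
      exact Submodule.smul_mem _ _ hx
  refine ⟨a ⊗ₜ b, ?_, rfl⟩
  have h1 : (a ⊗ₜ[FractionRing κ[X]] b : K ⊗[FractionRing κ[X]] K) =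
      (a ⊗ₜ[FractionRing κ[X]] (1 : K)) * ((1 : K) ⊗ₜ[FractionRing κ[X]] b) := by
    rw [Algebra.TensorProduct.tmul_mul_tmul, mul_one, one_mul]
  rw [h1]
  exact Fil_mul _ (hl a ha) (hr b hb)

/-- Dimension of the conditions: `growth_dim` for `R = K ⊗ K` (reduced) and
`u (e, e') = (1 - t) * (z ^ e ⊗ z ^ e')`, with `finrank_span_le` and `finrank_off`. -/
theorem Off_dim [Algebra.IsSeparable (FractionRing κ[X]) K] {k : ℕ} (hk : 0 < k) (P : κ[X])
    (hd : 0 < P.natDegree) (z : Fin k → K) (c : Fin k → κ)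
    (hz : ∀ i, Polynomial.aeval (z i) P = algebraMap κ[X] K X + algebraMap κ K (c i))
    (t : K ⊗[FractionRing κ[X]] K)
    (ht : Algebra.TensorProduct.lmul' (FractionRing κ[X]) t = 1) (htt : t * t = t) (n : ℕ) :
    FiniteDimensional κ (Off z t n : Submodule κ (K ⊗[FractionRing κ[X]] K)) ∧
    Module.finrank κ (Off z t n : Submodule κ (K ⊗[FractionRing κ[X]] K)) ≤
      (Module.finrank (FractionRing κ[X]) K * Module.finrank (FractionRing κ[X]) K -
        Module.finrank (FractionRing κ[X]) K) * (n / P.natDegree + 1) := by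
  classical
  have hne : Nonempty (Fin k ⊕ Fin k) := ⟨Sum.inl ⟨0, hk⟩⟩
  have hred : IsReduced (K ⊗[FractionRing κ[X]] K) := tensor_reduced (FractionRing κ[X]) K
  have htf : Module.IsTorsionFree κ[X] (K ⊗[FractionRing κ[X]] K) :=
    Module.IsTorsionFree.trans_faithfulSMul κ[X] (FractionRing κ[X]) _
  have hid : (1 - t) * (1 - t) = 1 - t := by
    rw [mul_sub, sub_mul, sub_mul, htt]
    simp
  have hc : ∀ i, Polynomial.aeval (zz z i) P =
      algebraMap κ[X] (K ⊗[FractionRing κ[X]] K) X +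
        algebraMap κ (K ⊗[FractionRing κ[X]] K) ((Sum.elim c c : Fin k ⊕ Fin k → κ) i) := by
    rintro (i | i)
    · have h1 : Polynomial.aeval (zz z (Sum.inl i)) P =
          (Algebra.TensorProduct.includeLeft :
            K →ₐ[κ] K ⊗[FractionRing κ[X]] K) (Polynomial.aeval (z i) P) := by
        rw [← Polynomial.aeval_algHom_apply]
        rfl
      rw [h1, hz i, map_add]
      rfl
    · have h1 : Polynomial.aeval (zz z (Sum.inr i)) P =
          ((Algebra.TensorProduct.includeRight :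
            K →ₐ[FractionRing κ[X]] K ⊗[FractionRing κ[X]] K).restrictScalars κ)
              (Polynomial.aeval (z i) P) := by
        rw [← Polynomial.aeval_algHom_apply]
        rfl
      rw [h1, hz i, map_add]
      congr 1
      · rw [IsScalarTower.algebraMap_apply κ[X] (FractionRing κ[X]) K,
          IsScalarTower.algebraMap_apply κ[X] (FractionRing κ[X]) (K ⊗[FractionRing κ[X]] K)]
        exact (Algebra.TensorProduct.includeRight :
            K →ₐ[FractionRing κ[X]] K ⊗[FractionRing κ[X]] K).commutes _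
      · exact ((Algebra.TensorProduct.includeRight :
            K →ₐ[FractionRing κ[X]] K ⊗[FractionRing κ[X]] K).restrictScalars κ).commutes _
  let u : (Fin k ⊕ Fin k → Fin P.natDegree) → K ⊗[FractionRing κ[X]] K :=
    fun e => (1 - t) * ∏ i, zz z i ^ (e i : ℕ)
  have hspan : ∀ y : K ⊗[FractionRing κ[X]] K, y ∈ Submodule.span κ[X] (Set.range u) ↔
      ∃ y' ∈ Submodule.span κ[X] (Set.range fun e : Fin k ⊕ Fin k → Fin P.natDegree =>
        ∏ i, zz z i ^ (e i : ℕ)), y = (1 - t) * y' := by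
    intro y
    constructor
    · intro hy
      obtain ⟨g, rfl⟩ := (Submodule.mem_span_range_iff_exists_fun κ[X]).1 hy
      refine ⟨∑ e, g e • ∏ i, zz z i ^ (e i : ℕ),
        (Submodule.mem_span_range_iff_exists_fun κ[X]).2 ⟨g, rfl⟩, ?_⟩
      rw [Finset.mul_sum]
      exact Finset.sum_congr rfl fun e _ => (mul_smul_comm _ _ _).symm
    · rintro ⟨y', hy', rfl⟩
      obtain ⟨g, rfl⟩ := (Submodule.mem_span_range_iff_exists_fun κ[X]).1 hy'
      refine (Submodule.mem_span_range_iff_exists_fun κ[X]).2 ⟨g, ?_⟩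
      rw [Finset.mul_sum]
      exact Finset.sum_congr rfl fun e _ => (mul_smul_comm _ _ _).symm
  have hmul2 : ∀ x y : K ⊗[FractionRing κ[X]] K,
      ((1 - t) * x) * ((1 - t) * y) = (1 - t) * (x * y) := by
    intro x y
    rw [mul_mul_mul_comm, hid]
  refine growth_dim P.natDegree hd u (fun n => (Off z t n :
    Submodule κ (K ⊗[FractionRing κ[X]] K))) ?_ ?_ ?_ _ ?_ n
  · rintro n m _ _ ⟨x, hx, rfl⟩ ⟨y, hy, rfl⟩
    refine ⟨x * y, Fil_mul _ hx hy, ?_⟩
    exact (hmul2 x y).symm
  · intro x hx y hy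
    obtain ⟨x', hx', rfl⟩ := (hspan x).1 hx
    obtain ⟨y', hy', rfl⟩ := (hspan y).1 hy
    rw [hspan]
    refine ⟨x' * y', ?_, hmul2 x' y'⟩
    rw [mem_span_iff P hd (zz z) (Sum.elim c c) hc] at hx' hy' ⊢
    exact Subalgebra.mul_mem _ hx' hy'
  · rintro n _ ⟨x, hx, rfl⟩
    obtain ⟨g, hg, rfl⟩ := fil_red P hd (zz z) (Sum.elim c c) hc n x hx
    refine ⟨g, fun e => ?_, ?_⟩
    · by_cases h : g e = 0
      · rw [h, natDegree_zero, zero_mul]
        exact Nat.zero_le _
      · exact le_trans (Nat.le_add_right _ _) (hg e h)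
    · rw [LinearMap.mulLeft_apply, Finset.mul_sum]
      exact Finset.sum_congr rfl fun e _ => mul_smul_comm _ _ _
  · refine (finrank_span_le (κ := κ) u
      (LinearMap.range (LinearMap.mulLeft (FractionRing κ[X]) (1 - t))) ?_).trans
      (finrank_off (FractionRing κ[X]) K t ht)
    intro e
    exact ⟨_, rfl⟩

end off

section transfer

variable {p : ℕ} [Fact p.Prime] {K : Type*} [Field K] [Algebra (ZMod p) K] [Algebra (ZMod p)[X] K]
  [Algebra (FractionRing (ZMod p)[X]) K] [IsScalarTower (ZMod p) (ZMod p)[X] K]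
  [IsScalarTower (ZMod p)[X] (FractionRing (ZMod p)[X]) K]
  [FiniteDimensional (FractionRing (ZMod p)[X]) K]

/-- Proof: write `Y l = ∑ j, cc l j (w) e j` in a basis `e` of the free module
`B = Algebra.adjoin κ (range z)` over `κ[X]`. The `e j` are independent over `κ(X)`, hence
`∑ l, cc l j (w) X l = 0` for all `j`. And `Y l ^ p = ∑ j, cc l j (w ^ p) e j ^ p` with
`cc l j (w ^ p) - cc l j (w)` divisible by `w ^ p - w`. -/
theorem tensor_zero {k : ℕ} (hk : 0 < k) (P : (ZMod p)[X]) (hd : 0 < P.natDegree)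
    (z : Fin k → K) (c : Fin k → ZMod p)
    (hz : ∀ i, Polynomial.aeval (z i) P =
      algebraMap (ZMod p)[X] K X + algebraMap (ZMod p) K (c i))
    {J : Type*} (s : Finset J) (X Y : J → K)
    (hX : ∀ j ∈ s, X j ∈ Algebra.adjoin (ZMod p) (Set.range z))
    (hY : ∀ j ∈ s, Y j ∈ Algebra.adjoin (ZMod p) (Set.range z))
    (h : ∑ j ∈ s, X j ⊗ₜ[FractionRing (ZMod p)[X]] Y j = 0) :
    ∃ H ∈ Algebra.adjoin (ZMod p) (Set.range z), ∑ j ∈ s, X j * Y j ^ p =
      ((algebraMap (ZMod p)[X] K Polynomial.X) ^ p - algebraMap (ZMod p)[X] K Polynomial.X) * H := by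
  classical
  have hne : Nonempty (Fin k) := ⟨⟨0, hk⟩⟩
  have hchar : CharP K p := by
    have h1 : Function.Injective (algebraMap (ZMod p) K) := (algebraMap (ZMod p) K).injective
    exact charP_of_injective_algebraMap h1 p
  set u : (Fin k → Fin P.natDegree) → K := fun e => ∏ i, z i ^ (e i : ℕ) with hu
  set O := Submodule.span (ZMod p)[X] (Set.range u) with hO
  have hmem : ∀ y, y ∈ O ↔ y ∈ Algebra.adjoin (ZMod p) (Set.range z) :=
    fun y => mem_span_iff P hd z c hz y
  have : Module.Finite (ZMod p)[X] O := Module.Finite.iff_fg.2 (Submodule.fg_span (Set.finite_range u))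
  have : Module.Free (ZMod p)[X] O := inferInstance
  set b := Module.finBasis (ZMod p)[X] O with hb
  set m := Module.finrank (ZMod p)[X] O with hm
  have hli : LinearIndependent (ZMod p)[X] (fun i => (b i : K)) :=
    b.linearIndependent.map' (Submodule.subtype _) (Submodule.ker_subtype _)
  have hli2 : LinearIndependent (FractionRing (ZMod p)[X]) (fun i => (b i : K)) :=
    (LinearIndependent.iff_fractionRing (ZMod p)[X] (FractionRing (ZMod p)[X])).1 hli
  -- dual functionals
  let f : (Fin m → FractionRing (ZMod p)[X]) →ₗ[FractionRing (ZMod p)[X]] K :=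
    Fintype.linearCombination (FractionRing (ZMod p)[X]) (fun i => (b i : K))
  have hf : LinearMap.ker f = ⊥ := by
    rw [LinearMap.ker_eq_bot']
    intro a ha
    funext i
    exact Fintype.linearIndependent_iff.1 hli2 a ha i
  obtain ⟨g, hg⟩ := LinearMap.exists_leftInverse_of_injective f hf
  have hgb : ∀ i, g (b i : K) = Pi.single i 1 := by
    intro i
    have h1 : f (Pi.single i 1) = (b i : K) := by
      simp [f, Fintype.linearCombination_apply_single]
    rw [← h1]
    exact LinearMap.congr_fun hg (Pi.single i 1)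
  -- coordinates
  have hYO : ∀ j ∈ s, Y j ∈ O := fun j hj => (hmem _).2 (hY j hj)
  let cc : J → Fin m → (ZMod p)[X] := fun j i =>
    if h : Y j ∈ O then b.repr ⟨Y j, h⟩ i else 0
  have hcc : ∀ j ∈ s, Y j = ∑ i, cc j i • (b i : K) := by
    intro j hj
    have h1 := congrArg Subtype.val (b.sum_repr ⟨Y j, hYO j hj⟩)
    rw [Submodule.coe_sum] at h1
    refine Eq.trans h1.symm ?_
    refine Finset.sum_congr rfl fun i _ => ?_
    rw [Submodule.coe_smul]
    simp only [cc, dif_pos (hYO j hj)]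
  have hgY : ∀ j ∈ s, ∀ i, g (Y j) i = algebraMap (ZMod p)[X] (FractionRing (ZMod p)[X]) (cc j i) := by
    intro j hj i
    rw [hcc j hj, map_sum, Finset.sum_apply, Finset.sum_eq_single i]
    · rw [← algebraMap_smul (FractionRing (ZMod p)[X]) (cc j i) (b i : K), map_smul, hgb]
      simp
    · intro i' _ hi'
      rw [← algebraMap_smul (FractionRing (ZMod p)[X]) (cc j i') (b i' : K), map_smul, hgb]
      simp [Pi.single_eq_of_ne (Ne.symm hi')]
    · intro h
      exact absurd (Finset.mem_univ i) h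
  have hzero : ∀ i, ∑ j ∈ s, algebraMap (ZMod p)[X] K (cc j i) * X j = 0 := by
    intro i
    have h1 := congrArg (fun y => TensorProduct.rid (FractionRing (ZMod p)[X]) K
      (LinearMap.lTensor K ((LinearMap.proj i).comp g) y)) h
    simp only [map_sum, LinearMap.lTensor_tmul, TensorProduct.rid_tmul, map_zero,
      LinearMap.comp_apply, LinearMap.proj_apply] at h1
    rw [← h1]
    refine Finset.sum_congr rfl fun j hj => ?_
    rw [hgY j hj i, algebraMap_smul, Algebra.smul_def]
  -- divisibility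
  have hdvd : ∀ q : (ZMod p)[X], ∃ r : (ZMod p)[X],
      q ^ p - q = (Polynomial.X ^ p - Polynomial.X) * r := by
    intro q
    have h1 := Polynomial.sub_dvd_eval_sub ((Polynomial.X : (ZMod p)[X]) ^ p) Polynomial.X
      (q.map Polynomial.C)
    rw [Polynomial.eval_map, Polynomial.eval_map, Polynomial.eval₂_C_X] at h1
    have h2 : Polynomial.eval₂ Polynomial.C ((Polynomial.X : (ZMod p)[X]) ^ p) q = q ^ p := by
      exact ZMod.expand_card q
    rw [h2] at h1
    exact h1
  choose r hr using fun j i => hdvd (cc j i)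
  refine ⟨∑ j ∈ s, ∑ i, (algebraMap (ZMod p)[X] K (r j i) * X j) * (b i : K) ^ p, ?_, ?_⟩
  · refine sum_mem fun j hj => sum_mem fun i _ => ?_
    refine Subalgebra.mul_mem _ ?_ (Subalgebra.pow_mem _ ((hmem _).1 (b i).2) _)
    rw [← Algebra.smul_def, ← hmem]
    exact Submodule.smul_mem _ _ ((hmem _).2 (hX j hj))
  · have hYp : ∀ j ∈ s, Y j ^ p =
        ∑ i, algebraMap (ZMod p)[X] K (cc j i) ^ p * (b i : K) ^ p := by
      intro j hj
      conv_lhs => rw [hcc j hj]
      rw [sum_pow_char]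
      refine Finset.sum_congr rfl fun i _ => ?_
      rw [Algebra.smul_def, mul_pow]
    have h2 : ∀ i, ∑ j ∈ s, X j * algebraMap (ZMod p)[X] K (cc j i) ^ p =
        ∑ j ∈ s, X j * ((((algebraMap (ZMod p)[X] K Polynomial.X) ^ p -
          algebraMap (ZMod p)[X] K Polynomial.X)) * algebraMap (ZMod p)[X] K (r j i)) := by
      intro i
      have h3 : ∀ j ∈ s, X j * algebraMap (ZMod p)[X] K (cc j i) ^ p =
          X j * ((((algebraMap (ZMod p)[X] K Polynomial.X) ^ p -
          algebraMap (ZMod p)[X] K Polynomial.X)) * algebraMap (ZMod p)[X] K (r j i)) +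
          algebraMap (ZMod p)[X] K (cc j i) * X j := by
        intro j _
        have h4 := congrArg (algebraMap (ZMod p)[X] K) (hr j i)
        rw [map_sub, map_pow, map_mul, map_sub, map_pow] at h4
        rw [← h4]
        ring
      rw [Finset.sum_congr rfl h3, Finset.sum_add_distrib, hzero i, add_zero]
    calc ∑ j ∈ s, X j * Y j ^ p
        = ∑ j ∈ s, ∑ i, (X j * algebraMap (ZMod p)[X] K (cc j i) ^ p) * (b i : K) ^ p := by
          refine Finset.sum_congr rfl fun j hj => ?_
          rw [hYp j hj, Finset.mul_sum]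
          exact Finset.sum_congr rfl fun i _ => by ring
      _ = ∑ i, (∑ j ∈ s, X j * algebraMap (ZMod p)[X] K (cc j i) ^ p) * (b i : K) ^ p := by
          rw [Finset.sum_comm]
          exact Finset.sum_congr rfl fun i _ => by rw [Finset.sum_mul]
      _ = ∑ i, (∑ j ∈ s, X j * ((((algebraMap (ZMod p)[X] K Polynomial.X) ^ p -
          algebraMap (ZMod p)[X] K Polynomial.X)) * algebraMap (ZMod p)[X] K (r j i))) *
            (b i : K) ^ p := Finset.sum_congr rfl fun i _ => by rw [h2 i]
      _ = _ := by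
          rw [Finset.mul_sum]
          rw [Finset.sum_congr rfl (fun i _ => Finset.sum_mul s _ _), Finset.sum_comm]
          refine Finset.sum_congr rfl fun j _ => ?_
          rw [Finset.mul_sum]
          exact Finset.sum_congr rfl fun i _ => by ring

/-- The off-diagonal condition forces divisibility by `w ^ p - w` after multiplication by any
`b ^ p - b`. Proof: `u = ∑ x j ⊗ y j` satisfies `u = t u`, so `(1 ⊗ b - b ⊗ 1) u = 0`; apply
`tensor_zero` to `∑ x j ⊗ (b y j) - ∑ (b x j) ⊗ y j = 0`. -/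
theorem transfer {k : ℕ} (hk : 0 < k) (P : (ZMod p)[X]) (hd : 0 < P.natDegree)
    (z : Fin k → K) (c : Fin k → ZMod p)
    (hz : ∀ i, Polynomial.aeval (z i) P =
      algebraMap (ZMod p)[X] K Polynomial.X + algebraMap (ZMod p) K (c i))
    (t : K ⊗[FractionRing (ZMod p)[X]] K)
    (ht : ∀ s : K, ((1 : K) ⊗ₜ[FractionRing (ZMod p)[X]] s) * t =
      (s ⊗ₜ[FractionRing (ZMod p)[X]] (1 : K)) * t)
    {J : Type*} (s : Finset J) (x y : J → K)
    (hx : ∀ j ∈ s, x j ∈ Algebra.adjoin (ZMod p) (Set.range z))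
    (hy : ∀ j ∈ s, y j ∈ Algebra.adjoin (ZMod p) (Set.range z))
    (h : ∑ j ∈ s, (1 - t) * (x j ⊗ₜ[FractionRing (ZMod p)[X]] y j) = 0)
    (b : K) (hb : b ∈ Algebra.adjoin (ZMod p) (Set.range z)) :
    ∃ H ∈ Algebra.adjoin (ZMod p) (Set.range z), (∑ j ∈ s, x j * y j ^ p) * (b ^ p - b) =
      ((algebraMap (ZMod p)[X] K Polynomial.X) ^ p - algebraMap (ZMod p)[X] K Polynomial.X) * H := by
  classical
  set w : K ⊗[FractionRing (ZMod p)[X]] K :=
    ∑ j ∈ s, (x j ⊗ₜ[FractionRing (ZMod p)[X]] y j) with hw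
  have h1 : (1 - t) * w = 0 := by
    rw [hw, Finset.mul_sum]
    exact h
  have h2 : w = t * w := by
    rw [sub_mul, one_mul, sub_eq_zero] at h1
    exact h1
  have h3 : ((1 : K) ⊗ₜ[FractionRing (ZMod p)[X]] b) * w =
      (b ⊗ₜ[FractionRing (ZMod p)[X]] (1 : K)) * w := by
    rw [h2, ← mul_assoc, ← mul_assoc, ht b]
  have h4 : ∑ j ∈ s.disjSum s,
      (Sum.elim x (fun j => -(b * x j)) j ⊗ₜ[FractionRing (ZMod p)[X]]
        Sum.elim (fun j => b * y j) y j : K ⊗[FractionRing (ZMod p)[X]] K) = 0 := by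
    rw [Finset.sum_disjSum]
    simp only [Sum.elim_inl, Sum.elim_inr, TensorProduct.neg_tmul, Finset.sum_neg_distrib]
    rw [← sub_eq_add_neg, sub_eq_zero]
    have h5 : ∑ j ∈ s, (x j ⊗ₜ[FractionRing (ZMod p)[X]] (b * y j) :
        K ⊗[FractionRing (ZMod p)[X]] K) = ((1 : K) ⊗ₜ[FractionRing (ZMod p)[X]] b) * w := by
      rw [hw, Finset.mul_sum]
      refine Finset.sum_congr rfl fun j _ => ?_
      rw [Algebra.TensorProduct.tmul_mul_tmul, one_mul]
    have h6 : ∑ j ∈ s, ((b * x j) ⊗ₜ[FractionRing (ZMod p)[X]] y j :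
        K ⊗[FractionRing (ZMod p)[X]] K) = (b ⊗ₜ[FractionRing (ZMod p)[X]] (1 : K)) * w := by
      rw [hw, Finset.mul_sum]
      refine Finset.sum_congr rfl fun j _ => ?_
      rw [Algebra.TensorProduct.tmul_mul_tmul, one_mul]
    rw [h5, h6, h3]
  have h7 : ∀ j ∈ s.disjSum s, Sum.elim x (fun j => -(b * x j)) j ∈
      Algebra.adjoin (ZMod p) (Set.range z) := by
    intro j hj
    rcases j with j | j
    · exact hx j (Finset.inl_mem_disjSum.1 hj)
    · exact Subalgebra.neg_mem _ (Subalgebra.mul_mem _ hb (hx j (Finset.inr_mem_disjSum.1 hj)))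
  have h8 : ∀ j ∈ s.disjSum s, Sum.elim (fun j => b * y j) y j ∈
      Algebra.adjoin (ZMod p) (Set.range z) := by
    intro j hj
    rcases j with j | j
    · exact Subalgebra.mul_mem _ hb (hy j (Finset.inl_mem_disjSum.1 hj))
    · exact hy j (Finset.inr_mem_disjSum.1 hj)
  obtain ⟨H, hH, hH2⟩ := tensor_zero hk P hd z c hz (s.disjSum s)
    (Sum.elim x (fun j => -(b * x j))) (Sum.elim (fun j => b * y j) y) h7 h8 h4
  refine ⟨H, hH, ?_⟩
  rw [← hH2, Finset.sum_disjSum]
  simp only [Sum.elim_inl, Sum.elim_inr]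
  rw [Finset.sum_mul, ← Finset.sum_add_distrib]
  refine Finset.sum_congr rfl fun j _ => ?_
  rw [mul_pow]
  ring

end transfer

end Pool.Agent.W_cae956_st
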