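import Mathlib
import Pool.Agent.W_cae956_st.Liou
import Pool.Agent.W_cae956_st.Tens
import Pool.Agent.W_cae956_st.Loc

set_option autoImplicit false

/-!
# The auxiliary function and the contradiction
-/

open Polynomial
open scoped TensorProduct

namespace Pool.Agent.W_cae956_st

/-- unknowns versus conditions -/
theorem numeric_count (d k D D1 M x : ℕ) (hk : 0 < k) (hD : 0 < D) (hD1 : D ≤ D1)
    (hM : M = D1 * k + 1) (hx : M * D1 * (k + M * k + M + 1) ≤ x) :
    M * ((D * D - D) * (x + (k + M * k + M + 2))) < (D * (M - k)) * (D * (x + 1)) := by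
  obtain ⟨e, rfl⟩ : ∃ e, D = e + 1 := ⟨D - 1, by omega⟩
  have h1 : (e + 1) * (e + 1) - (e + 1) = e * (e + 1) := by
    rw [add_mul (e) 1 (e + 1)]
    omega
  rw [h1]
  have h2 : k ≤ M := by
    rw [hM]
    nlinarith
  obtain ⟨u, hu⟩ : ∃ u, M = k + u := ⟨M - k, by omega⟩
  have h3 : M - k = u := by omega
  rw [h3]
  -- (e+1) u >= M e + 1
  have h4 : M * e + 1 ≤ (e + 1) * u := by
    have h5 : (e + 1) * k ≤ D1 * k := Nat.mul_le_mul_right k hD1
    have h6 : (e + 1) * k + 1 ≤ M := by omega
    have h7 : (e + 1) * M = (e + 1) * k + (e + 1) * u := by rw [hu]; ring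
    have h8 : (e + 1) * M = M * e + M := by ring
    omega
  have h5 : M * e * (k + M * k + M + 1) ≤ x := by
    refine le_trans ?_ hx
    have : e ≤ D1 := by omega
    exact Nat.mul_le_mul_right _ (Nat.mul_le_mul_left _ this)
  have key : M * e * (x + (k + M * k + M + 2)) < (e + 1) * u * (x + 1) := by
    calc M * e * (x + (k + M * k + M + 2)) = M * e * (x + 1) + M * e * (k + M * k + M + 1) := by ring
      _ ≤ M * e * (x + 1) + x := by omega
      _ < (M * e + 1) * (x + 1) := by
        have : (M * e + 1) * (x + 1) = M * e * (x + 1) + (x + 1) := by ring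
        omega
      _ ≤ (e + 1) * u * (x + 1) := Nat.mul_le_mul_right _ h4
  calc M * (e * (e + 1) * (x + (k + M * k + M + 2)))
      = (e + 1) * (M * e * (x + (k + M * k + M + 2))) := by ring
    _ < (e + 1) * ((e + 1) * u * (x + 1)) := Nat.mul_lt_mul_of_pos_left key (by omega)
    _ = (e + 1) * u * ((e + 1) * (x + 1)) := by ring

section deriv

variable {κ : Type*} [Field κ] {K : Type*} [Field K] [Algebra κ K]

theorem deriv_fil {k : ℕ} (z : Fin k → K) (D : Derivation κ K K) (m : ℕ)
    (hDz : ∀ i, D (z i) ∈ (Fil z m : Submodule κ K)) (n : ℕ) (x : K)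
    (hx : x ∈ (Fil z n : Submodule κ K)) : D x ∈ (Fil z (n + m) : Submodule κ K) := by
  let W : ℕ → Submodule κ K := fun n =>
    (Fil z n) ⊓ (Fil z (n + m)).comap (D : K →ₗ[κ] K)
  have h := Fil_le (κ := κ) z W
    ⟨Fil_one z 0, by
      show D 1 ∈ (Fil z (0 + m) : Submodule κ K)
      rw [Derivation.map_one_eq_zero]
      exact Submodule.zero_mem _⟩
    (fun n => inf_le_inf (Fil_mono z (Nat.le_succ n))
      (Submodule.comap_mono (Fil_mono z (by omega))))
    (by
      rintro n i y ⟨hy1, hy2⟩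
      have hy2' : D y ∈ (Fil z (n + m) : Submodule κ K) := hy2
      refine ⟨?_, ?_⟩
      · have := Fil_mul z (Fil_gen (κ := κ) z i) hy1
        rwa [add_comm] at this
      · show D (z i * y) ∈ (Fil z (n + 1 + m) : Submodule κ K)
        rw [Derivation.leibniz, smul_eq_mul, smul_eq_mul]
        refine Submodule.add_mem _ ?_ ?_
        · have := Fil_mul z (Fil_gen (κ := κ) z i) hy2'
          exact Fil_mono z (by omega) this
        · have := Fil_mul z hy1 (hDz i)
          exact Fil_mono z (by omega) this) n hx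
  exact h.2

theorem iter_fil {k : ℕ} (z : Fin k → K) (D : Derivation κ K K) (m : ℕ)
    (hDz : ∀ i, D (z i) ∈ (Fil z m : Submodule κ K)) (n : ℕ) (x : K)
    (hx : x ∈ (Fil z n : Submodule κ K)) (l : ℕ) :
    (⇑D)^[l] x ∈ (Fil z (n + l * m) : Submodule κ K) := by
  induction l with
  | zero => simpa using hx
  | succ l ih =>
    rw [Function.iterate_succ_apply']
    have := deriv_fil z D m hDz _ _ ih
    refine Fil_mono z ?_ this
    rw [Nat.succ_mul]
    omega

end deriv

theorem deriv_pow_p {p : ℕ} [Fact p.Prime] {K : Type*} [Field K] [Algebra (ZMod p) K]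
    (D : Derivation (ZMod p) K K) (y : K) : D (y ^ p) = 0 := by
  have : CharP K p := charP_of_injective_algebraMap (algebraMap (ZMod p) K).injective p
  rw [Derivation.leibniz_pow]
  rw [← Nat.cast_smul_eq_nsmul K, CharP.cast_eq_zero, zero_smul]

theorem iter_deriv_mul {p : ℕ} [Fact p.Prime] {K : Type*} [Field K] [Algebra (ZMod p) K]
    (D : Derivation (ZMod p) K K) (x y : K) (m : ℕ) :
    (⇑D)^[m] (x * y ^ p) = ((⇑D)^[m] x) * y ^ p := by
  induction m with
  | zero => rfl
  | succ m ih =>
    rw [Function.iterate_succ_apply', ih, Function.iterate_succ_apply', Derivation.leibniz,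
      deriv_pow_p, smul_zero, zero_add, smul_eq_mul, mul_comm]

theorem iter_deriv_sum {κ : Type*} [Field κ] {K : Type*} [Field K] [Algebra κ K]
    (D : Derivation κ K K) {J : Type*} (s : Finset J) (x : J → K) (m : ℕ) :
    (⇑D)^[m] (∑ j ∈ s, x j) = ∑ j ∈ s, (⇑D)^[m] (x j) := by
  induction m with
  | zero => rfl
  | succ m ih =>
    rw [Function.iterate_succ_apply', ih, map_sum]
    refine Finset.sum_congr rfl fun j _ => ?_
    rw [Function.iterate_succ_apply']

section main

variable {p : ℕ} [Fact p.Prime] {K : Type} [Field K] [Algebra (ZMod p) K] [Algebra (ZMod p)[X] K]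
  [Algebra (FractionRing (ZMod p)[X]) K] [IsScalarTower (ZMod p) (ZMod p)[X] K]
  [IsScalarTower (ZMod p)[X] (FractionRing (ZMod p)[X]) K]
  [IsScalarTower (ZMod p) (FractionRing (ZMod p)[X]) K]
  [FiniteDimensional (FractionRing (ZMod p)[X]) K]

/-- the linear condition -/
noncomputable def cond (t : K ⊗[FractionRing (ZMod p)[X]] K) (b : K) :
    K →ₗ[ZMod p] (K ⊗[FractionRing (ZMod p)[X]] K) where
  toFun := fun x => (1 - t) * (x ⊗ₜ[FractionRing (ZMod p)[X]] b)
  map_add' := fun x y => by rw [TensorProduct.add_tmul, mul_add]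
  map_smul' := fun a x => by
    rw [← TensorProduct.smul_tmul', mul_smul_comm]
    rfl

theorem exists_aux [Algebra.IsSeparable (FractionRing (ZMod p)[X]) K] {k : ℕ} (hk : 0 < k)
    (P : (ZMod p)[X]) (hd : 0 < P.natDegree) (z : Fin k → K) (c : Fin k → ZMod p)
    (hz : ∀ i, Polynomial.aeval (z i) P =
      algebraMap (ZMod p)[X] K X + algebraMap (ZMod p) K (c i))
    (hgen : IntermediateField.adjoin (FractionRing (ZMod p)[X]) (Set.range z) = ⊤)
    (D : Derivation (ZMod p) K K)
    (hDz : ∀ i, D (z i) ∈ (Fil z (k * P.natDegree) : Submodule (ZMod p) K))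
    (t : K ⊗[FractionRing (ZMod p)[X]] K)
    (ht : Algebra.TensorProduct.lmul' (FractionRing (ZMod p)[X]) t = 1) (htt : t * t = t)
    (M α : ℕ) (hM : M = P.natDegree ^ k * k + 1)
    (hα : k * P.natDegree + P.natDegree * (M * (P.natDegree ^ k) * (k + M * k + M + 1)) ≤ α)
    (s : Finset ℤ) (b : ℤ → K)
    (hb : ∀ m ∈ s, b m ∈ (Fil z (M * P.natDegree - 1) : Submodule (ZMod p) K))
    (hs : Module.finrank (ZMod p) (Fil z (M * P.natDegree - 1) : Submodule (ZMod p) K) ≤ s.card) :
    ∃ a : ℤ → K, (∀ m, a m ∈ (Fil z α : Submodule (ZMod p) K)) ∧ (∃ m ∈ s, a m ≠ 0) ∧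
      ∀ m < M, ∑ j ∈ s, (1 - t) * (((⇑D)^[m] (a j)) ⊗ₜ[FractionRing (ZMod p)[X]] b j) = 0 := by
  classical
  set d := P.natDegree with hddef
  set β := M * d - 1 with hβ
  set Dm := Module.finrank (FractionRing (ZMod p)[X]) K with hDm
  have hDpos : 0 < Dm := Module.finrank_pos
  have hD1 : Dm ≤ d ^ k := finrank_le_pow hk P hd z c hz hgen
  -- the unknowns
  have hfinα : FiniteDimensional (ZMod p) (Fil z α : Submodule (ZMod p) K) := Fil_finite z α
  let E := s → (Fil z α : Submodule (ZMod p) K)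
  let off : Fin M → Submodule (ZMod p) (K ⊗[FractionRing (ZMod p)[X]] K) :=
    fun m => Off z t (α + (m : ℕ) * (k * d) + β)
  have hoff : ∀ m, FiniteDimensional (ZMod p) (off m) := fun m =>
    (Off_dim hk P hd z c hz t ht htt _).1
  let Φ0 : ∀ m : Fin M, E →ₗ[ZMod p] (K ⊗[FractionRing (ZMod p)[X]] K) := fun m =>
    ∑ j : s, (cond t (b j)) ∘ₗ ((D : K →ₗ[ZMod p] K) ^ (m : ℕ)) ∘ₗ
      (Fil z α : Submodule (ZMod p) K).subtype ∘ₗ (LinearMap.proj j)
  have hΦ0 : ∀ (m : Fin M) (a : E), Φ0 m a =
      ∑ j : s, (1 - t) * (((⇑D)^[(m : ℕ)] (a j : K)) ⊗ₜ[FractionRing (ZMod p)[X]] b j) := by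
    intro m a
    simp only [Φ0, LinearMap.sum_apply, LinearMap.comp_apply, LinearMap.proj_apply,
      Submodule.subtype_apply]
    refine Finset.sum_congr rfl fun j _ => ?_
    rw [Module.End.pow_apply]
    rfl
  have hΦmem : ∀ (m : Fin M) (a : E), Φ0 m a ∈ off m := by
    intro m a
    rw [hΦ0]
    refine Submodule.sum_mem _ fun j _ => ?_
    exact Off_mem z t (iter_fil z D _ hDz α _ (a j).2 m) (hb _ j.2)
  let Φ : E →ₗ[ZMod p] (∀ m : Fin M, off m) :=
    LinearMap.pi fun m => (Φ0 m).codRestrict (off m) (hΦmem m)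
  have hlt : Module.finrank (ZMod p) (∀ m : Fin M, off m) < Module.finrank (ZMod p) E := by
    have hE : Module.finrank (ZMod p) E =
        s.card * Module.finrank (ZMod p) (Fil z α : Submodule (ZMod p) K) := by
      show Module.finrank (ZMod p) (s → (Fil z α : Submodule (ZMod p) K)) = _
      rw [Module.finrank_pi_fintype]
      simp
    rw [hE, Module.finrank_pi_fintype]
    have hMk : k < M := by
      rw [hM]
      have : 1 ≤ d ^ k := Nat.one_le_pow _ _ hd
      nlinarith
    set x := (α - k * d) / d with hx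
    have hxl : M * (d ^ k) * (k + M * k + M + 1) ≤ x := by
      rw [hx, Nat.le_div_iff_mul_le hd, mul_comm _ d]
      omega
    have h1 : ∀ m : Fin M, Module.finrank (ZMod p) (off m) ≤
        (Dm * Dm - Dm) * (x + (k + M * k + M + 2)) := by
      intro m
      refine (Off_dim hk P hd z c hz t ht htt _).2.trans (Nat.mul_le_mul_left _ ?_)
      have h2 : (α + (m : ℕ) * (k * d) + β) / d ≤ x + (k + M * k + M + 1) := by
        have h3 : α + (m : ℕ) * (k * d) + β ≤ (α - k * d) + (k + M * k + M) * d := by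
          have h4 : (m : ℕ) * (k * d) ≤ M * (k * d) := Nat.mul_le_mul_right _ m.2.le
          have h5 : (k + M * k + M) * d = k * d + M * (k * d) + M * d := by ring
          have h6 : k * d ≤ α := by omega
          omega
        calc (α + (m : ℕ) * (k * d) + β) / d ≤ ((α - k * d) + (k + M * k + M) * d) / d :=
              Nat.div_le_div_right h3
          _ = x + (k + M * k + M) := by rw [Nat.add_mul_div_right _ _ hd]
          _ ≤ _ := by omega
      show (α + (m : ℕ) * (k * d) + β) / d + 1 ≤ x + (k + M * k + M + 2)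
      omega
    have h2 : Dm * (M - k) ≤ s.card := by
      refine le_trans ?_ hs
      have h3 := dim_lower hk P hd z c hz hgen β (by
        show k * d ≤ M * d - 1
        have : k * d + d ≤ M * d := by
          rw [← Nat.succ_mul]
          exact Nat.mul_le_mul_right _ hMk
        omega)
      refine le_trans (Nat.mul_le_mul_left _ ?_) h3
      have h4 : M - k ≤ (β - k * d) / d + 1 := by
        have h5 : M - k - 1 ≤ (β - k * d) / d := by
          rw [Nat.le_div_iff_mul_le hd, hβ]
          have h6 : (M - k - 1) * d = M * d - k * d - d := by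
            rw [Nat.sub_mul, Nat.sub_mul, one_mul]
          rw [h6]
          omega
        omega
      exact h4
    have h3 : Dm * (x + 1) ≤ Module.finrank (ZMod p) (Fil z α : Submodule (ZMod p) K) :=
      dim_lower hk P hd z c hz hgen α (by show k * d ≤ α; omega)
    calc ∑ m : Fin M, Module.finrank (ZMod p) (off m)
        ≤ ∑ _m : Fin M, (Dm * Dm - Dm) * (x + (k + M * k + M + 2)) :=
          Finset.sum_le_sum fun m _ => h1 m
      _ = M * ((Dm * Dm - Dm) * (x + (k + M * k + M + 2))) := by simp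
      _ < (Dm * (M - k)) * (Dm * (x + 1)) :=
          numeric_count d k Dm (d ^ k) M x hk hDpos hD1 hM hxl
      _ ≤ _ := Nat.mul_le_mul h2 h3
  obtain ⟨a, ha, ha0⟩ := (Submodule.ne_bot_iff _).1 (LinearMap.ker_ne_bot_of_finrank_lt (f := Φ) hlt)
  refine ⟨fun m => if h : m ∈ s then (a ⟨m, h⟩ : K) else 0, ?_, ?_, ?_⟩
  · intro m
    by_cases h : m ∈ s
    · simp only [h, dif_pos]
      exact (a ⟨m, h⟩).2
    · simp only [h, dif_neg, not_false_iff]
      exact Submodule.zero_mem _
  · by_contra hcon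
    push Not at hcon
    apply ha0
    funext j
    have := hcon j j.2
    simp only [j.2, dif_pos] at this
    exact Subtype.ext this
  · intro m hm
    have h1 : Φ0 ⟨m, hm⟩ a = 0 := by
      have := congrArg (fun f => ((f ⟨m, hm⟩ : off ⟨m, hm⟩) : K ⊗[FractionRing (ZMod p)[X]] K))
        (LinearMap.mem_ker.1 ha)
      exact this
    rw [hΦ0] at h1
    rw [← h1, ← Finset.sum_coe_sort s]
    refine Finset.sum_congr rfl fun j _ => ?_
    simp only [j.2, dif_pos]

end main

end Pool.Agent.W_cae956_st
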