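import Mathlib
import Pool.Agent.W_cae956_st.Core1

set_option autoImplicit false

/-!
# The contradiction
-/

open Polynomial
open scoped TensorProduct

namespace Pool.Agent.W_cae956_st

variable {p : ℕ} [Fact p.Prime] {K : Type} [Field K] [Algebra (ZMod p) K] [Algebra (ZMod p)[X] K]
  [Algebra (FractionRing (ZMod p)[X]) K] [IsScalarTower (ZMod p) (ZMod p)[X] K]
  [IsScalarTower (ZMod p)[X] (FractionRing (ZMod p)[X]) K]
  [IsScalarTower (ZMod p) (FractionRing (ZMod p)[X]) K]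
  [FiniteDimensional (FractionRing (ZMod p)[X]) K]

/-- the size needed for `α` -/
def alpha0 (k d : ℕ) : ℕ :=
  k * d + d * ((d ^ k * k + 1) * (d ^ k) * (k + (d ^ k * k + 1) * k + (d ^ k * k + 1) + 1)) +
    d ^ k * d * (k + 1) + (d ^ k * k + 1) * k * d * d + 1

theorem core_field [Algebra.IsSeparable (FractionRing (ZMod p)[X]) K] {k : ℕ} (hk : 0 < k)
    (P : (ZMod p)[X]) (hd : 0 < P.natDegree) (hP' : derivative P ≠ 0)
    (z : Fin k → K) (c : Fin k → ZMod p)
    (hz : ∀ i, Polynomial.aeval (z i) P =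
      algebraMap (ZMod p)[X] K X + algebraMap (ZMod p) K (c i))
    (hgen : IntermediateField.adjoin (FractionRing (ZMod p)[X]) (Set.range z) = ⊤)
    (V : Val (ZMod p) K) (hvz : ∀ i, -1 ≤ V.v (z i))
    (hw : V.v (algebraMap (ZMod p)[X] K X) = -(P.natDegree : ℤ))
    (D : Derivation (ZMod p) K K)
    (hDw : D (algebraMap (ZMod p)[X] K X) = ∏ i, Polynomial.aeval (z i) (derivative P))
    (hDz : ∀ i, D (z i) ∈ (Fil z (k * P.natDegree) : Submodule (ZMod p) K))
    (hp : (P.natDegree ^ k + 2) * alpha0 k P.natDegree ≤ p) :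
    ∃ w₀ : ZMod p, ∃ y : Fin k → ZMod p, ∀ i, P.eval (y i) = w₀ + c i ∧
      (derivative P).eval (y i) ≠ 0 := by
  classical
  have hcount := good_count P hP' c
  obtain ⟨s', hs'c, hs'g⟩ := hcount
  by_contra hcon
  have hno : ∀ w₀ ∈ s', ¬ ∃ y : Fin k → ZMod p, ∀ i, P.eval (y i) = w₀ + c i := by
    rintro w₀ hw₀ ⟨y, hy⟩
    exact hcon ⟨w₀, y, fun i => ⟨hy i, deriv_ne_zero P (w₀ + c i) (y i) (hs'g w₀ hw₀ i) (hy i)⟩⟩
  obtain ⟨t, ht1, ht2, ht3⟩ := exists_diag (FractionRing (ZMod p)[X]) K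
  set d := P.natDegree with hddef
  set D1 := d ^ k with hD1def
  set M := D1 * k + 1 with hM
  set β := M * d - 1 with hβ
  set α := p / (D1 + 2) with hα
  have hα0 : alpha0 k d ≤ α := by
    rw [hα, Nat.le_div_iff_mul_le (by omega), mul_comm]
    exact hp
  have hαp : (D1 + 2) * α ≤ p := by
    rw [mul_comm]
    exact Nat.div_mul_le_self p (D1 + 2)
  have hD1pos : 1 ≤ D1 := Nat.one_le_pow _ _ hd
  have hA : alpha0 k d = k * d + d * (M * D1 * (k + M * k + M + 1)) + D1 * d * (k + 1) +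
      M * k * d * d + 1 := rfl
  have hfinβ : FiniteDimensional (ZMod p) (Fil z β : Submodule (ZMod p) K) := Fil_finite z β
  obtain ⟨s, b, hb, hs⟩ := V.exists_jumps (Fil z β : Submodule (ZMod p) K)
  obtain ⟨a, haα, ha0, hcond⟩ := exists_aux hk P hd z c hz hgen D hDz t ht2 ht3 M α rfl
    (by show k * d + d * (M * D1 * (k + M * k + M + 1)) ≤ α; omega) s b (fun m hm => (hb m hm).1) hs
  set Dm := Module.finrank (FractionRing (ZMod p)[X]) K with hDm
  have hD1' : Dm ≤ D1 := finrank_le_pow hk P hd z c hz hgen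
  -- the auxiliary function
  set F := ∑ m ∈ s, a m * b m ^ p with hF
  have hF0 : F ≠ 0 := by
    refine V.aux_ne_zero p s a b (fun m hm => (hb m hm).2) ha0 (α : ℤ)
      ((Dm * (α + d * (k + 1)) : ℕ) : ℤ) ?_ ?_
    · intro m hm ham
      exact ⟨V.fil_low z hvz α (a m) (haα m) ham,
        V.liouville hk P hd z c hz hgen hvz hw α (a m) (haα m) ham⟩
    · have h1 : Dm * (α + d * (k + 1)) ≤ D1 * (α + d * (k + 1)) := Nat.mul_le_mul_right _ hD1'
      have h2 : D1 * (α + d * (k + 1)) = D1 * α + D1 * d * (k + 1) := by ring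
      have h3 : (D1 + 2) * α = D1 * α + α + α := by ring
      have h4 : α + Dm * (α + d * (k + 1)) < p := by omega
      exact_mod_cast h4
  have hFfil : F ∈ (Fil z (α + p * β) : Submodule (ZMod p) K) :=
    Submodule.sum_mem _ fun m hm => Fil_mul z (haα m) (Fil_pow z p (hb m hm).1)
  have hFB : F ∈ Algebra.adjoin (ZMod p) (Set.range z) :=
    (mem_adjoin_iff z F).2 ⟨_, hFfil⟩
  have hDB : ∀ x ∈ Algebra.adjoin (ZMod p) (Set.range z),
      D x ∈ Algebra.adjoin (ZMod p) (Set.range z) := by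
    intro x hx
    obtain ⟨n, hn⟩ := (mem_adjoin_iff z x).1 hx
    exact (mem_adjoin_iff z (D x)).2 ⟨_, deriv_fil z D _ hDz n x hn⟩
  have hDBm : ∀ m : ℕ, ∀ x ∈ Algebra.adjoin (ZMod p) (Set.range z),
      (⇑D)^[m] x ∈ Algebra.adjoin (ZMod p) (Set.range z) := by
    intro m
    induction m with
    | zero => exact fun x hx => hx
    | succ m ih =>
      intro x hx
      rw [Function.iterate_succ_apply']
      exact hDB _ (ih x hx)
  have hDF : ∀ m : ℕ, (⇑D)^[m] F = ∑ j ∈ s, ((⇑D)^[m] (a j)) * b j ^ p := by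
    intro m
    rw [hF, iter_deriv_sum]
    exact Finset.sum_congr rfl fun j _ => iter_deriv_mul D (a j) (b j) m
  have hwB : algebraMap (ZMod p)[X] K X ∈ Algebra.adjoin (ZMod p) (Set.range z) := by
    have : Nonempty (Fin k) := ⟨⟨0, hk⟩⟩
    exact (mem_adjoin_iff z _).2 ⟨_, fil_w P z c hz⟩
  have hM_le : M ≤ p := by
    have h1 : M ≤ M * k * d * d := by
      have h2 : 1 ≤ k * d * d := Nat.one_le_iff_ne_zero.2 (by positivity)
      calc M = M * 1 := (mul_one M).symm
        _ ≤ M * (k * d * d) := Nat.mul_le_mul_left _ h2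
        _ = M * k * d * d := by ring
    have h2 : α ≤ (D1 + 2) * α := Nat.le_mul_of_pos_left _ (by omega)
    omega
  have hloc : ∀ w₀ ∈ s', ∃ G ∈ Algebra.adjoin (ZMod p) (Set.range z),
      F = (algebraMap (ZMod p)[X] K X - algebraMap (ZMod p) K w₀) ^ M * G := by
    intro w₀ hw₀
    refine loc_div P z c (algebraMap (ZMod p)[X] K X) hz w₀ hwB (hno w₀ hw₀) (hs'g w₀ hw₀) D hDB hDw
      M hM_le F hFB ?_
    intro m hm x hx
    rw [hDF m]
    exact transfer hk P hd z c hz t ht1 s (fun j => (⇑D)^[m] (a j)) b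
      (fun j _ => hDBm m _ ((mem_adjoin_iff z _).2 ⟨_, haα j⟩))
      (fun j hj => (mem_adjoin_iff z _).2 ⟨_, (hb j hj).1⟩) (hcond m hm) x hx
  obtain ⟨H, hHB, hH⟩ := prod_div (Algebra.adjoin (ZMod p) (Set.range z))
    (algebraMap (ZMod p)[X] K X) hwB M F hFB s' hloc
  have hH0 : H ≠ 0 := by
    rintro rfl
    rw [mul_zero] at hH
    exact hF0 hH
  have hg : (∏ w₀ ∈ s', (algebraMap (ZMod p)[X] K X - algebraMap (ZMod p) K w₀) ^ M) =
      algebraMap (ZMod p)[X] K (∏ w₀ ∈ s', (X - C w₀) ^ M) := by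
    rw [map_prod]
    refine Finset.prod_congr rfl fun w₀ _ => ?_
    rw [map_pow, map_sub]
    congr 2
    rw [← Polynomial.algebraMap_eq, ← IsScalarTower.algebraMap_apply]
  have hdeg : (∏ w₀ ∈ s', ((X : (ZMod p)[X]) - C w₀) ^ M).natDegree = s'.card * M := by
    rw [natDegree_prod_of_monic _ _ (fun w₀ _ => (monic_X_sub_C w₀).pow M)]
    simp [natDegree_pow]
  rw [hg] at hH
  have hfin := fil_div hk P hd z c hz (α + p * β) F H (∏ w₀ ∈ s', ((X : (ZMod p)[X]) - C w₀) ^ M)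
    hFfil hHB hH hH0
  rw [hdeg] at hfin
  -- numeric contradiction
  have hfin' : s'.card * M * d ≤ α + p * (M * d - 1) := hfin
  have h1 : p * M * d ≤ (s'.card + k * d) * M * d :=
    Nat.mul_le_mul_right _ (Nat.mul_le_mul_right _ hs'c)
  have h2 : (s'.card + k * d) * M * d = s'.card * M * d + M * k * d * d := by ring
  have hMd : 1 ≤ M * d := Nat.mul_pos (by omega) hd
  have h3 : p * (M * d - 1) = p * M * d - p := by
    rw [Nat.mul_sub, mul_one, ← mul_assoc]
  have h4 : p ≤ p * M * d := by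
    calc p = p * 1 := (mul_one p).symm
      _ ≤ p * (M * d) := Nat.mul_le_mul_left _ hMd
      _ = p * M * d := by ring
  have h5 : p ≤ α + M * k * d * d := by omega
  have h6 : (D1 + 2) * α = D1 * α + α + α := by ring
  have h7 : α ≤ D1 * α := Nat.le_mul_of_pos_left _ hD1pos
  omega

end Pool.Agent.W_cae956_st
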