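import Mathlib
import Pool.Agent.W_cae956_st.Liou

set_option autoImplicit false

/-!
# The curve inside the field of Laurent series

Everything about Laurent series stays inside this file (the only output is `exists_data`).
Take `S = LaurentSeries κ` (or a type synonym with your own instance `Algebra κ S` given by the
constants), `w = a T ^ (-d)` with `a` the leading coefficient and `d` the degree of `P`.

* `V.v` is `HahnSeries.order`, `V.cf m` is the coefficient of `T ^ m`;
* `E` is the Euler derivation `T d/dT`: the coefficient of `T ^ n` is multiplied by `n`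
  (Leibniz: compare coefficients, `n = i + j`); `E w = -d w`;
* `z i = T ^ (-1) u`, where `u = 1 + ...` is the root in the ring of power series of
  `∑ j, (P.coeff j) T ^ (d - j) u ^ j = a + c T ^ d` given by Hensel's lemma at `u = 1`
  (modulo `T` this is `a (u ^ d - 1)`, with derivative `d a ≠ 0`).
-/

open Polynomial

namespace Pool.Agent.W_cae956_st

attribute [-instance] HahnSeries.powerSeriesAlgebra

/-- the valuation of the field of Laurent series -/
private noncomputable def lauVal (κ : Type) [Field κ] : Val κ (HahnSeries ℤ κ) where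
  v := HahnSeries.order
  cf := fun m => HahnSeries.coeff.linearMap m
  mul := fun _ _ hx hy => HahnSeries.order_mul hx hy
  low := fun _ _ h => HahnSeries.coeff_eq_zero_of_lt_order h
  lead := fun _ hx h => hx (HahnSeries.coeff_order_eq_zero.1 h)

/-- multiplication of the coefficients by the exponents -/
private noncomputable def eul {κ : Type} [Field κ] (x : HahnSeries ℤ κ) : HahnSeries ℤ κ where
  coeff := fun n => (n : κ) * x.coeff n
  isPWO_support' := x.isPWO_support.mono (by
    intro n hn
    simp only [Function.mem_support, ne_eq, mul_eq_zero, not_or] at hn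
    exact hn.2)

private theorem eul_coeff {κ : Type} [Field κ] (x : HahnSeries ℤ κ) (n : ℤ) :
    (eul x).coeff n = (n : κ) * x.coeff n := rfl

private theorem eul_support {κ : Type} [Field κ] (x : HahnSeries ℤ κ) :
    (eul x).support ⊆ x.support := by
  intro n hn
  rw [HahnSeries.mem_support, eul_coeff] at hn
  exact fun h => hn (by rw [h, mul_zero])

/-- the Euler derivation -/
private noncomputable def eulD (κ : Type) [Field κ] :
    Derivation κ (HahnSeries ℤ κ) (HahnSeries ℤ κ) where
  toFun := eul
  map_add' := fun x y => by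
    ext n
    simp only [eul_coeff, HahnSeries.coeff_add]
    ring
  map_smul' := fun r x => by
    ext n
    rw [eul_coeff, RingHom.id_apply, HahnSeries.coeff_smul, HahnSeries.coeff_smul, eul_coeff,
      smul_eq_mul, smul_eq_mul]
    ring
  map_one_eq_zero' := by
    ext n
    change (n : κ) * (1 : HahnSeries ℤ κ).coeff n = 0
    rw [HahnSeries.coeff_one]
    split_ifs with h
    · simp [h]
    · simp
  leibniz' := fun x y => by
    change eul (x * y) = x • eul y + y • eul x
    rw [smul_eq_mul, smul_eq_mul, mul_comm y (eul x)]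
    ext n
    rw [eul_coeff, HahnSeries.coeff_add, HahnSeries.coeff_mul,
      HahnSeries.coeff_mul_right' y.isPWO_support (eul_support y),
      HahnSeries.coeff_mul_left' x.isPWO_support (eul_support x), Finset.mul_sum,
      ← Finset.sum_add_distrib]
    refine Finset.sum_congr rfl ?_
    intro ij hij
    rw [Finset.mem_antidiagonal] at hij
    rw [eul_coeff, eul_coeff, ← hij.2.2]
    push_cast
    ring

/-- Hensel's lemma -/
private theorem exists_root {κ : Type} [Field κ] (P : κ[X]) (hd : 0 < P.natDegree)
    (hdκ : (P.natDegree : κ) ≠ 0) (c : κ) :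
    ∃ u : PowerSeries κ, PowerSeries.constantCoeff u = 1 ∧
      ∑ j ∈ Finset.range P.natDegree, PowerSeries.C (P.coeff j / P.leadingCoeff) *
        PowerSeries.X ^ (P.natDegree - j) * u ^ j + u ^ P.natDegree =
      1 + PowerSeries.C (c / P.leadingCoeff) * PowerSeries.X ^ P.natDegree := by
  set d := P.natDegree with hddef
  set q : ℕ → PowerSeries κ := fun j => PowerSeries.C (P.coeff j / P.leadingCoeff) *
        PowerSeries.X ^ (d - j) with hq
  set G : (PowerSeries κ)[X] := ∑ j ∈ Finset.range d, Polynomial.C (q j) * Polynomial.X ^ j -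
    Polynomial.C (1 + PowerSeries.C (c / P.leadingCoeff) * PowerSeries.X ^ d) with hG
  have hGdeg : G.degree < d := by
    rw [hG]
    refine lt_of_le_of_lt (Polynomial.degree_sub_le _ _) ?_
    rw [max_lt_iff]
    constructor
    · refine lt_of_le_of_lt (Polynomial.degree_sum_le _ _) ?_
      refine (Finset.sup_lt_iff (WithBot.bot_lt_coe d)).2 ?_
      intro j hj
      refine lt_of_le_of_lt (Polynomial.degree_C_mul_X_pow_le _ _) ?_
      exact WithBot.coe_lt_coe.2 (Finset.mem_range.1 hj)
    · refine lt_of_le_of_lt Polynomial.degree_C_le ?_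
      exact_mod_cast hd
  have hmonic : (Polynomial.X ^ d + G).Monic := Polynomial.monic_X_pow_add hGdeg
  have hI : ∀ j < d, q j ∈ Ideal.span {(PowerSeries.X : PowerSeries κ)} := by
    intro j hj
    rw [Ideal.mem_span_singleton]
    refine Dvd.dvd.mul_left ?_ _
    exact dvd_pow_self _ (by omega)
  have hX : (PowerSeries.X : PowerSeries κ) ^ d ∈ Ideal.span {(PowerSeries.X : PowerSeries κ)} := by
    rw [Ideal.mem_span_singleton]
    exact dvd_pow_self _ (by omega)
  have hens : HenselianRing (PowerSeries κ) (Ideal.span {(PowerSeries.X : PowerSeries κ)}) :=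
    inferInstance
  obtain ⟨u, hu, hu1⟩ := hens.is_henselian (Polynomial.X ^ d + G) hmonic 1 (by
    rw [hG]
    simp only [Polynomial.eval_add, Polynomial.eval_pow, Polynomial.eval_X, one_pow,
      Polynomial.eval_sub, Polynomial.eval_finsetSum, Polynomial.eval_mul, Polynomial.eval_C,
      mul_one]
    have : (1 : PowerSeries κ) + (∑ x ∈ Finset.range d, q x -
        (1 + PowerSeries.C (c / P.leadingCoeff) * PowerSeries.X ^ d)) =
        ∑ x ∈ Finset.range d, q x - PowerSeries.C (c / P.leadingCoeff) * PowerSeries.X ^ d := by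
      ring
    rw [this]
    exact Ideal.sub_mem _ (Ideal.sum_mem _ (fun j hj => hI j (Finset.mem_range.1 hj)))
      (Ideal.mul_mem_left _ _ hX)) (by
    have h1 : (Polynomial.derivative (Polynomial.X ^ d + G)).eval 1 =
        (d : PowerSeries κ) + ∑ j ∈ Finset.range d, q j * j := by
      rw [hG]
      simp only [Polynomial.derivative_add, Polynomial.derivative_sub, Polynomial.derivative_sum,
        Polynomial.derivative_C_mul_X_pow, Polynomial.derivative_C, sub_zero,
        Polynomial.derivative_X_pow, Polynomial.eval_add, Polynomial.eval_finsetSum,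
        Polynomial.eval_mul, Polynomial.eval_C, Polynomial.eval_pow, Polynomial.eval_X, one_pow,
        mul_one]
    rw [h1, map_add]
    have h2 : Ideal.Quotient.mk (Ideal.span {(PowerSeries.X : PowerSeries κ)})
        (∑ j ∈ Finset.range d, q j * j) = 0 := by
      rw [Ideal.Quotient.eq_zero_iff_mem]
      exact Ideal.sum_mem _ (fun j hj => Ideal.mul_mem_right _ _ (hI j (Finset.mem_range.1 hj)))
    rw [h2, add_zero]
    have h3 : IsUnit (d : PowerSeries κ) := by
      have : (d : PowerSeries κ) = PowerSeries.C (d : κ) := by simp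
      rw [this]
      exact (IsUnit.mk0 _ hdκ).map _
    exact h3.map _)
  refine ⟨u, ?_, ?_⟩
  · rw [Ideal.mem_span_singleton, PowerSeries.X_dvd_iff, map_sub, map_one, sub_eq_zero] at hu1
    exact hu1
  · rw [Polynomial.IsRoot.def, hG] at hu
    simp only [Polynomial.eval_add, Polynomial.eval_pow, Polynomial.eval_X,
      Polynomial.eval_sub, Polynomial.eval_finsetSum, Polynomial.eval_mul, Polynomial.eval_C] at hu
    linear_combination hu

private theorem ofPS_order {κ : Type} [Field κ] (u : PowerSeries κ)
    (hu : PowerSeries.constantCoeff u = 1) :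
    HahnSeries.ofPowerSeries ℤ κ u ≠ 0 ∧ (HahnSeries.ofPowerSeries ℤ κ u).order = 0 := by
  have h0 : (HahnSeries.ofPowerSeries ℤ κ u).coeff 0 = 1 := by
    have := HahnSeries.ofPowerSeries_apply_coeff (Γ := ℤ) u 0
    rw [Nat.cast_zero] at this
    rw [this, PowerSeries.coeff_zero_eq_constantCoeff_apply, hu]
  have hne : HahnSeries.ofPowerSeries ℤ κ u ≠ 0 := by
    intro h
    rw [h] at h0
    simp at h0
  refine ⟨hne, le_antisymm ?_ ?_⟩
  · exact HahnSeries.order_le_of_coeff_ne_zero (by rw [h0]; exact one_ne_zero)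
  · rw [HahnSeries.le_order_iff_forall hne]
    intro j hj
    rw [HahnSeries.ofPowerSeries_apply]
    apply HahnSeries.embDomain_of_notMem_range
    rintro ⟨n, hn⟩
    simp at hn
    omega

private theorem aeval_root {κ : Type} [Field κ] (P : κ[X]) (c : κ) (ha : P.leadingCoeff ≠ 0)
    (u : PowerSeries κ)
    (hu : ∑ j ∈ Finset.range P.natDegree, PowerSeries.C (P.coeff j / P.leadingCoeff) *
        PowerSeries.X ^ (P.natDegree - j) * u ^ j + u ^ P.natDegree =
      1 + PowerSeries.C (c / P.leadingCoeff) * PowerSeries.X ^ P.natDegree) :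
    Polynomial.aeval (HahnSeries.single (-1 : ℤ) (1 : κ) * HahnSeries.ofPowerSeries ℤ κ u) P =
      HahnSeries.single (-(P.natDegree : ℤ)) P.leadingCoeff +
        algebraMap κ (HahnSeries ℤ κ) c := by
  set d := P.natDegree with hddef
  set a := P.leadingCoeff with hadef
  set φ := HahnSeries.ofPowerSeries ℤ κ with hφ
  set Ti : HahnSeries ℤ κ := HahnSeries.single (-1 : ℤ) (1 : κ) with hTi
  set T : HahnSeries ℤ κ := HahnSeries.single (1 : ℤ) (1 : κ) with hT
  have hTT : Ti * T = 1 := by
    rw [hTi, hT, HahnSeries.single_mul_single]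
    simp
  have hpow : ∀ n : ℕ, Ti ^ n = HahnSeries.single (-(n : ℤ)) (1 : κ) := by
    intro n
    induction n with
    | zero => simp
    | succ n ih =>
      rw [pow_succ, ih, hTi, HahnSeries.single_mul_single, mul_one]
      have : -(n : ℤ) + -1 = -((n + 1 : ℕ) : ℤ) := by
        push_cast
        ring
      rw [this]
  have hw : HahnSeries.single (-(d : ℤ)) a = HahnSeries.C a * Ti ^ d := by
    rw [hpow, HahnSeries.C_apply, HahnSeries.single_mul_single, zero_add, mul_one]
  have h1 := congrArg φ hu
  simp only [map_add, map_sum, map_mul, map_pow, map_one] at h1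
  rw [hφ] at h1
  simp only [HahnSeries.ofPowerSeries_C, HahnSeries.ofPowerSeries_X] at h1
  rw [← hφ, ← hT] at h1
  have h2 : ∀ j < d, HahnSeries.C a * Ti ^ d * (HahnSeries.C (P.coeff j / a) * T ^ (d - j) *
      φ u ^ j) = P.coeff j • (Ti * φ u) ^ j := by
    intro j hj
    have h3 : Ti ^ d * T ^ (d - j) = Ti ^ j := by
      have h4 : Ti ^ d = Ti ^ j * Ti ^ (d - j) := by
        rw [← pow_add]
        congr 1
        omega
      rw [h4, mul_assoc, ← mul_pow, hTT, one_pow, mul_one]
    have h5 : HahnSeries.C a * HahnSeries.C (P.coeff j / a) =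
        (HahnSeries.C (P.coeff j) : HahnSeries ℤ κ) := by
      rw [← map_mul, mul_div_cancel₀ _ ha]
    rw [← HahnSeries.C_mul_eq_smul, mul_pow, ← h5, ← h3]
    ring
  have h6 : HahnSeries.C a * HahnSeries.C (c / a) = (HahnSeries.C c : HahnSeries ℤ κ) := by
    rw [← map_mul, mul_div_cancel₀ _ ha]
  have h7 : Ti ^ d * T ^ d = 1 := by rw [← mul_pow, hTT, one_pow]
  rw [Polynomial.aeval_eq_sum_range, Finset.sum_range_succ,
    Finset.sum_congr rfl (fun j hj => (h2 j (Finset.mem_range.1 hj)).symm), ← Finset.mul_sum]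
  have h8 : P.coeff P.natDegree • (Ti * φ u) ^ P.natDegree = HahnSeries.C a * Ti ^ d *
      φ u ^ d := by
    rw [← HahnSeries.C_mul_eq_smul, mul_pow, ← hddef, mul_assoc]
    rfl
  rw [h8, hw, HahnSeries.algebraMap_apply, Algebra.algebraMap_self, RingHom.id_apply, ← h6]
  have h9 : HahnSeries.C a * Ti ^ d * (∑ x ∈ Finset.range d, HahnSeries.C (P.coeff x / a) *
      T ^ (d - x) * φ u ^ x) + HahnSeries.C a * Ti ^ d * φ u ^ d =
      HahnSeries.C a * Ti ^ d * (1 + HahnSeries.C (c / a) * T ^ d) := by
    rw [← mul_add]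
    exact congrArg _ h1
  rw [h9]
  linear_combination (HahnSeries.C a * HahnSeries.C (c / a)) * h7

theorem exists_data {κ : Type} [Field κ] (P : κ[X]) (hd : 0 < P.natDegree)
    (hdκ : (P.natDegree : κ) ≠ 0) {k : ℕ} (c : Fin k → κ) :
    ∃ (S : Type) (_ : Field S) (_ : Algebra κ S) (V : Val κ S) (E : Derivation κ S S)
      (w : S) (z : Fin k → S) (u : κ),
      (∀ i, Polynomial.aeval (z i) P = w + algebraMap κ S (c i)) ∧
      (∀ i, z i ≠ 0) ∧ (∀ i, V.v (z i) = -1) ∧ w ≠ 0 ∧ V.v w = -(P.natDegree : ℤ) ∧
      u ≠ 0 ∧ E w = u • w := by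
  have ha : P.leadingCoeff ≠ 0 := by
    intro h
    rw [Polynomial.leadingCoeff_eq_zero] at h
    rw [h] at hd
    simp at hd
  choose u hu1 hu2 using fun i => exists_root P hd hdκ (c i)
  have hs : (HahnSeries.single (-1 : ℤ) (1 : κ)) ≠ 0 := HahnSeries.single_ne_zero one_ne_zero
  refine ⟨HahnSeries ℤ κ, inferInstance, inferInstance, lauVal κ, eulD κ,
    HahnSeries.single (-(P.natDegree : ℤ)) P.leadingCoeff,
    fun i => HahnSeries.single (-1 : ℤ) (1 : κ) * HahnSeries.ofPowerSeries ℤ κ (u i),
    -(P.natDegree : κ), ?_, ?_, ?_, ?_, ?_, ?_, ?_⟩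
  · intro i
    exact aeval_root P (c i) ha (u i) (hu2 i)
  · intro i
    exact mul_ne_zero hs (ofPS_order _ (hu1 i)).1
  · intro i
    change (HahnSeries.single (-1 : ℤ) (1 : κ) * HahnSeries.ofPowerSeries ℤ κ (u i)).order = -1
    rw [HahnSeries.order_mul hs (ofPS_order _ (hu1 i)).1, (ofPS_order _ (hu1 i)).2,
      HahnSeries.order_single one_ne_zero, add_zero]
  · exact HahnSeries.single_ne_zero ha
  · exact HahnSeries.order_single ha
  · exact neg_ne_zero.2 hdκ
  · change eul _ = _
    ext n
    rw [eul_coeff, HahnSeries.coeff_smul, smul_eq_mul]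
    by_cases h : n = -(P.natDegree : ℤ)
    · rw [h]
      push_cast
      ring
    · rw [HahnSeries.coeff_single_of_ne h, mul_zero, mul_zero]

end Pool.Agent.W_cae956_st
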