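import Mathlib
import Pool.Agent.W_cae956_st.Core2
import Pool.Agent.W_cae956_st.Laurent

set_option autoImplicit false

/-!
# From Laurent series to the function field of the curve
-/

open Polynomial
open scoped TensorProduct

namespace Pool.Agent.W_cae956_st

theorem fil_prod {κ : Type*} [Field κ] {K : Type*} [Field K] [Algebra κ K] {k : ℕ} (z : Fin k → K)
    {J : Type*} (s : Finset J) (y : J → K) (m : ℕ)
    (hy : ∀ j ∈ s, y j ∈ (Fil z m : Submodule κ K)) :
    ∏ j ∈ s, y j ∈ (Fil z (s.card * m) : Submodule κ K) := by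
  classical
  induction s using Finset.induction_on with
  | empty => simpa using Fil_one z 0
  | insert a s has ih =>
    rw [Finset.prod_insert has, Finset.card_insert_of_notMem has]
    have h1 := Fil_mul z (hy a (Finset.mem_insert_self _ _))
      (ih fun j hj => hy j (Finset.mem_insert_of_mem hj))
    refine Fil_mono z ?_ h1
    rw [Nat.succ_mul]
    omega

section aux

variable {p : ℕ} [Fact p.Prime] {S : Type} [Field S] [Algebra (ZMod p) S] [Algebra (ZMod p)[X] S]
  [Algebra (FractionRing (ZMod p)[X]) S] [IsScalarTower (ZMod p) (ZMod p)[X] S]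
  [IsScalarTower (ZMod p)[X] (FractionRing (ZMod p)[X]) S]
  [IsScalarTower (ZMod p) (FractionRing (ZMod p)[X]) S]

theorem sep_root (P : (ZMod p)[X]) (c : ZMod p) (z : S)
    (hz : Polynomial.aeval z P = algebraMap (ZMod p)[X] S X + algebraMap (ZMod p) S c)
    (hz' : Polynomial.aeval z (derivative P) ≠ 0) :
    IsIntegral (FractionRing (ZMod p)[X]) z ∧ IsSeparable (FractionRing (ZMod p)[X]) z := by
  set F := FractionRing (ZMod p)[X] with hF
  set Q : F[X] := P.map (algebraMap (ZMod p) F) -
    C (algebraMap (ZMod p)[X] F X + algebraMap (ZMod p) F c) with hQ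
  have hQz : Polynomial.aeval z Q = 0 := by
    rw [hQ, map_sub, Polynomial.aeval_map_algebraMap, Polynomial.aeval_C, hz, map_add,
      ← IsScalarTower.algebraMap_apply, ← IsScalarTower.algebraMap_apply, sub_self]
  have hQ' : Polynomial.aeval z (derivative Q) ≠ 0 := by
    rw [hQ, derivative_sub, derivative_C, sub_zero, derivative_map,
      Polynomial.aeval_map_algebraMap]
    exact hz'
  have hQ0 : Q ≠ 0 := by
    intro h
    rw [h] at hQ'
    simp at hQ'
  have hint : IsIntegral F z := by
    rw [← isAlgebraic_iff_isIntegral]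
    exact ⟨Q, hQ0, hQz⟩
  refine ⟨hint, ?_⟩
  show (minpoly F z).Separable
  rw [separable_iff_derivative_ne_zero (minpoly.irreducible hint)]
  intro h
  obtain ⟨R, hR⟩ := minpoly.dvd F z hQz
  apply hQ'
  rw [hR, derivative_mul, h, zero_mul, zero_add, map_mul, minpoly.aeval, zero_mul]

/-- restriction of a derivation to an intermediate field -/
theorem restrict_deriv (K : IntermediateField (FractionRing (ZMod p)[X]) S)
    (D : Derivation (ZMod p) S S) (hD : ∀ x ∈ K, D x ∈ K) :
    ∃ D' : Derivation (ZMod p) K K, ∀ x : K, (D' x : S) = D (x : S) := by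
  let f : K →ₗ[ZMod p] K :=
    { toFun := fun x => ⟨D x, hD x x.2⟩
      map_add' := fun x y => Subtype.ext (by simp)
      map_smul' := fun a x => Subtype.ext (by
        show D ((a • x : K) : S) = a • D (x : S)
        have : ((a • x : K) : S) = a • (x : S) := rfl
        rw [this, Derivation.map_smul]) }
  refine ⟨Derivation.mk' f fun x y => ?_, fun x => rfl⟩
  apply Subtype.ext
  show D ((x * y : K) : S) = _
  have : ((x * y : K) : S) = (x : S) * (y : S) := rfl
  rw [this, Derivation.leibniz]
  rfl

theorem curve_point_aux {k : ℕ} (hk : 0 < k) (P : (ZMod p)[X]) (hd : 0 < P.natDegree)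
    (hP' : derivative P ≠ 0) (z : Fin k → S) (c : Fin k → ZMod p)
    (hz : ∀ i, Polynomial.aeval (z i) P =
      algebraMap (ZMod p)[X] S X + algebraMap (ZMod p) S (c i))
    (V : Val (ZMod p) S) (hvz : ∀ i, V.v (z i) = -1)
    (hvw : V.v (algebraMap (ZMod p)[X] S X) = -(P.natDegree : ℤ))
    (E : Derivation (ZMod p) S S) (hEw : E (algebraMap (ZMod p)[X] S X) ≠ 0)
    (hp : (P.natDegree ^ k + 2) * alpha0 k P.natDegree ≤ p) :
    ∃ w₀ : ZMod p, ∃ y : Fin k → ZMod p, ∀ i, P.eval (y i) = w₀ + c i ∧
      (derivative P).eval (y i) ≠ 0 := by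
  classical
  set F := FractionRing (ZMod p)[X] with hF
  set w : S := algebraMap (ZMod p)[X] S X with hw
  have hEz : ∀ i, Polynomial.aeval (z i) (derivative P) * E (z i) = E w := by
    intro i
    have h1 := congrArg E (hz i)
    rw [map_add, Derivation.map_algebraMap, add_zero, Derivation.map_aeval, smul_eq_mul] at h1
    exact h1
  have hPz : ∀ i, Polynomial.aeval (z i) (derivative P) ≠ 0 := by
    intro i h
    have := hEz i
    rw [h, zero_mul] at this
    exact hEw this.symm
  have hsep := fun i => sep_root P (c i) (z i) (hz i) (hPz i)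
  -- the function field
  let K := IntermediateField.adjoin F (Set.range z)
  have hzK : ∀ i, z i ∈ K := fun i => IntermediateField.subset_adjoin F _ ⟨i, rfl⟩
  have hfin : FiniteDimensional F K := by
    apply IntermediateField.finiteDimensional_adjoin
    rintro _ ⟨i, rfl⟩
    exact (hsep i).1
  have hKsep : Algebra.IsSeparable F K := by
    rw [IntermediateField.isSeparable_adjoin_iff_isSeparable]
    rintro _ ⟨i, rfl⟩
    exact (hsep i).2
  -- the derivation
  set π : S := ∏ i, Polynomial.aeval (z i) (derivative P) with hπ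
  let DS : Derivation (ZMod p) S S := (π / E w) • E
  have hDSw : DS w = π := by
    show (π / E w) * E w = π
    exact div_mul_cancel₀ _ hEw
  have hDSz : ∀ i, DS (z i) = ∏ j ∈ Finset.univ.erase i, Polynomial.aeval (z j) (derivative P) := by
    intro i
    have h1 : π = Polynomial.aeval (z i) (derivative P) *
        ∏ j ∈ Finset.univ.erase i, Polynomial.aeval (z j) (derivative P) :=
      (Finset.mul_prod_erase _ _ (Finset.mem_univ i)).symm
    have h2 : DS (z i) = (π / E w) * E (z i) := rfl
    have h3 : E w ≠ 0 := hEw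
    rw [h2, div_mul_eq_mul_div, div_eq_iff h3, ← hEz i, h1]
    ring
  have hPK : ∀ i, Polynomial.aeval (z i) (derivative P) ∈ K := by
    intro i
    have h1 : Polynomial.aeval (z i) (derivative P) =
        Polynomial.aeval (z i) ((derivative P).map (algebraMap (ZMod p) F)) := by
      rw [Polynomial.aeval_map_algebraMap]
    rw [h1]
    have h2 := Polynomial.aeval_algebraMap_apply S (⟨z i, hzK i⟩ : K)
      ((derivative P).map (algebraMap (ZMod p) F))
    have h3 : algebraMap K S ⟨z i, hzK i⟩ = z i := rfl
    rw [h3] at h2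
    rw [h2]
    exact SetLike.coe_mem _
  have hπK : π ∈ K := prod_mem fun i _ => hPK i
  have hDSK : ∀ x ∈ K, DS x ∈ K := by
    intro x hx
    induction hx using IntermediateField.adjoin_induction with
    | mem x hx =>
      obtain ⟨i, rfl⟩ := hx
      rw [hDSz]
      exact prod_mem fun j _ => hPK j
    | algebraMap x =>
      have hpoly : ∀ g : (ZMod p)[X], algebraMap (ZMod p)[X] S g ∈ K ∧
          DS (algebraMap (ZMod p)[X] S g) ∈ K := by
        intro g
        have hgK : ∀ g : (ZMod p)[X], algebraMap (ZMod p)[X] S g ∈ K := by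
          intro g
          rw [IsScalarTower.algebraMap_apply (ZMod p)[X] F S]
          exact K.algebraMap_mem _
        have h1 : algebraMap (ZMod p)[X] S g = Polynomial.aeval w g := by
          have := Polynomial.aeval_algebraMap_apply S (X : (ZMod p)[X]) g
          rw [Polynomial.aeval_X_left_apply] at this
          exact this.symm
        refine ⟨hgK g, ?_⟩
        rw [h1, Derivation.map_aeval, smul_eq_mul, hDSw]
        have h2 : Polynomial.aeval w (derivative g) = algebraMap (ZMod p)[X] S (derivative g) := by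
          have := Polynomial.aeval_algebraMap_apply S (X : (ZMod p)[X]) (derivative g)
          rw [Polynomial.aeval_X_left_apply] at this
          exact this
        rw [h2]
        exact mul_mem (hgK _) hπK
      obtain ⟨a, b, hb, rfl⟩ := IsFractionRing.div_surjective (A := (ZMod p)[X]) x
      rw [map_div₀, ← IsScalarTower.algebraMap_apply, ← IsScalarTower.algebraMap_apply,
        Derivation.leibniz_div]
      simp only [smul_eq_mul]
      exact mul_mem (pow_mem (inv_mem (hpoly b).1) 2)
        (sub_mem (mul_mem (hpoly b).1 (hpoly a).2) (mul_mem (hpoly a).1 (hpoly b).2))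
    | add x y hx hy h1 h2 =>
      rw [map_add]
      exact add_mem h1 h2
    | inv x hx h1 =>
      rw [Derivation.leibniz_inv, smul_eq_mul, neg_mul]
      exact neg_mem (mul_mem (pow_mem (inv_mem hx) 2) h1)
    | mul x y hx hy h1 h2 =>
      rw [Derivation.leibniz, smul_eq_mul, smul_eq_mul]
      exact add_mem (mul_mem hx h2) (mul_mem hy h1)
  obtain ⟨D, hD⟩ := restrict_deriv K DS hDSK
  -- the data on `K`
  let zK : Fin k → K := fun i => ⟨z i, hzK i⟩
  have hcoe : ∀ (g : (ZMod p)[X]) (x : K), ((Polynomial.aeval x g : K) : S) =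
      Polynomial.aeval (x : S) g := by
    intro g x
    exact (Polynomial.aeval_algebraMap_apply S x g).symm
  have hzK' : ∀ i, Polynomial.aeval (zK i) P =
      algebraMap (ZMod p)[X] K X + algebraMap (ZMod p) K (c i) := by
    intro i
    apply Subtype.ext
    rw [hcoe]
    exact hz i
  have hgen : IntermediateField.adjoin F (Set.range zK) = ⊤ := by
    apply IntermediateField.lift_injective K
    rw [IntermediateField.lift_adjoin, IntermediateField.lift_top]
    congr 1
    ext x
    constructor
    · rintro ⟨_, ⟨i, rfl⟩, rfl⟩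
      exact ⟨i, rfl⟩
    · rintro ⟨i, rfl⟩
      exact ⟨zK i, ⟨i, rfl⟩, rfl⟩
  let VK : Val (ZMod p) K :=
    { v := fun x => V.v (x : S)
      cf := fun m => (V.cf m) ∘ₗ
        { toFun := fun x : K => (x : S)
          map_add' := fun x y => rfl
          map_smul' := fun a x => rfl }
      mul := fun x y hx hy => V.mul _ _ (by simpa using hx) (by simpa using hy)
      low := fun x m hm => V.low _ m hm
      lead := fun x hx => V.lead _ (by simpa using hx) }
  refine core_field hk P hd hP' zK c hzK' hgen VK (fun i => (hvz i).ge) hvw D ?_ ?_ hp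
  · apply Subtype.ext
    rw [hD]
    have : (algebraMap (ZMod p)[X] K X : S) = w := rfl
    rw [this, hDSw]
    push_cast
    refine Finset.prod_congr rfl fun i _ => ?_
    rw [hcoe]
  · intro i
    have h1 : D (zK i) = ∏ j ∈ Finset.univ.erase i, Polynomial.aeval (zK j) (derivative P) := by
      apply Subtype.ext
      rw [hD]
      show DS (z i) = _
      rw [hDSz]
      push_cast
      refine Finset.prod_congr rfl fun j _ => ?_
      rw [hcoe]
    rw [h1]
    have h2 := fil_prod (κ := ZMod p) zK (Finset.univ.erase i)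
      (fun j => Polynomial.aeval (zK j) (derivative P)) P.natDegree (fun j _ => by
        have := Fil_aeval (κ := ZMod p) zK (derivative P) (m := P.natDegree)
          (natDegree_derivative_le P |>.trans (Nat.sub_le _ _)) (Fil_gen (κ := ZMod p) zK j)
        rwa [mul_one] at this)
    refine Fil_mono zK (Nat.mul_le_mul_right _ ?_) h2
    calc (Finset.univ.erase i).card ≤ (Finset.univ : Finset (Fin k)).card :=
          Finset.card_le_card (Finset.erase_subset _ _)
      _ = k := by simp

end aux

theorem curve_point (p : ℕ) [Fact p.Prime] {k : ℕ} (hk : 0 < k) (P : (ZMod p)[X])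
    (hd : 0 < P.natDegree) (hdp : (P.natDegree : ZMod p) ≠ 0) (c : Fin k → ZMod p)
    (hp : (P.natDegree ^ k + 2) * alpha0 k P.natDegree ≤ p) :
    ∃ w₀ : ZMod p, ∃ y : Fin k → ZMod p, ∀ i, P.eval (y i) = w₀ + c i ∧
      (derivative P).eval (y i) ≠ 0 := by
  obtain ⟨S, iS, iA, V, E, w, z, u, hz, hz0, hvz, hw0, hvw, hu, hEw⟩ := exists_data P hd hdp c
  have hP' : derivative P ≠ 0 := by
    intro h
    have h1 : (derivative P).coeff (P.natDegree - 1) = 0 := by rw [h]; simp
    rw [coeff_derivative] at h1
    have h2 : P.natDegree - 1 + 1 = P.natDegree := by omega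
    rw [h2] at h1
    have h3 : ((P.natDegree - 1 : ℕ) : ZMod p) + 1 = (P.natDegree : ZMod p) := by
      rw [← Nat.cast_succ, Nat.succ_eq_add_one, h2]
    rw [h3] at h1
    rcases mul_eq_zero.1 h1 with h4 | h4
    · have : P ≠ 0 := by rintro rfl; simp at hd
      exact (leadingCoeff_ne_zero.2 this) h4
    · exact hdp h4
  -- `w` is transcendental
  have hinj : Function.Injective (Polynomial.aeval w : (ZMod p)[X] →ₐ[ZMod p] S) := by
    rw [injective_iff_map_eq_zero]
    intro g hg
    by_contra hg0
    rw [Polynomial.aeval_eq_sum_range] at hg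
    refine V.sum_ne_zero (Finset.range (g.natDegree + 1)) (fun i => g.coeff i • w ^ i) ?_ ?_ hg
    · refine ⟨g.natDegree, Finset.mem_range.2 (Nat.lt_succ_self _), ?_⟩
      exact smul_ne_zero (leadingCoeff_ne_zero.2 hg0) (pow_ne_zero _ hw0)
    · intro i _ j _ hi hj hij
      have hi' : g.coeff i ≠ 0 := fun h => hi (by simp [h])
      have hj' : g.coeff j ≠ 0 := fun h => hj (by simp [h])
      rw [V.smul _ (pow_ne_zero _ hw0) _ hi', V.smul _ (pow_ne_zero _ hw0) _ hj',
        V.pow _ hw0, V.pow _ hw0, hvw]
      intro h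
      apply hij
      have hd' : (P.natDegree : ℤ) ≠ 0 := by exact_mod_cast hd.ne'
      have h2 : ((i : ℤ) - j) * (P.natDegree : ℤ) = 0 := by linarith
      rcases mul_eq_zero.1 h2 with h3 | h3
      · have : (i : ℤ) = j := by linarith
        exact_mod_cast this
      · exact absurd h3 hd'
  let a1 : Algebra (ZMod p)[X] S := (Polynomial.aeval w : (ZMod p)[X] →ₐ[ZMod p] S).toAlgebra
  have hmap : ∀ g : (ZMod p)[X], algebraMap (ZMod p)[X] S g = Polynomial.aeval w g := fun g => rfl
  have t1 : IsScalarTower (ZMod p) (ZMod p)[X] S := IsScalarTower.of_algebraMap_eq fun r => by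
    rw [hmap, Polynomial.algebraMap_eq, Polynomial.aeval_C]
  have t2 : FaithfulSMul (ZMod p)[X] S := (faithfulSMul_iff_algebraMap_injective _ _).2 hinj
  let a2 : Algebra (FractionRing (ZMod p)[X]) S := FractionRing.liftAlgebra (ZMod p)[X] S
  have t3 : IsScalarTower (ZMod p)[X] (FractionRing (ZMod p)[X]) S :=
    FractionRing.isScalarTower_liftAlgebra _ _
  have t4 : IsScalarTower (ZMod p) (FractionRing (ZMod p)[X]) S :=
    IsScalarTower.of_algebraMap_eq fun r => by
      rw [IsScalarTower.algebraMap_apply (ZMod p) (ZMod p)[X] S,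
        IsScalarTower.algebraMap_apply (ZMod p)[X] (FractionRing (ZMod p)[X]) S,
        ← IsScalarTower.algebraMap_apply (ZMod p) (ZMod p)[X] (FractionRing (ZMod p)[X])]
  have hX : algebraMap (ZMod p)[X] S X = w := by rw [hmap, Polynomial.aeval_X]
  refine curve_point_aux hk P hd hP' z c (fun i => ?_) V hvz ?_ E ?_ hp
  · rw [hX]; exact hz i
  · rw [hX]; exact hvw
  · rw [hX, hEw]
    exact smul_ne_zero hu hw0

end Pool.Agent.W_cae956_st
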