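import Mathlib
import Pool.Agent.W_cae956_st.Core3
import Pool.Agent.W_cae956_h75.Defs

set_option autoImplicit false

/-!
# Local solvability for large primes, for every nonconstant polynomial
-/

open Polynomial

namespace Pool.Agent.W_cae956_st

theorem lsLarge_all (P : ℤ[X]) (hP : 0 < P.natDegree) : Pool.Agent.W_cae956_h75.LSLarge P := by
  intro k
  rcases Nat.eq_zero_or_pos k with hk | hk
  · subst hk
    exact ⟨0, fun q hq _ n => ⟨0, fun i => i.elim0, fun i => i.elim0⟩⟩
  refine ⟨(P.natDegree ^ k + 2) * alpha0 k P.natDegree + P.leadingCoeff.natAbs + P.natDegree,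
    fun q hq hqN n => ?_⟩
  have hq' : Fact q.Prime := ⟨hq⟩
  have hlc : (P.leadingCoeff : ZMod q) ≠ 0 := by
    intro h0
    rw [ZMod.intCast_zmod_eq_zero_iff_dvd] at h0
    have h1 := Int.natCast_dvd.1 h0
    have hP0 : P ≠ 0 := by rintro rfl; simp at hP
    have h2 := Nat.le_of_dvd (Int.natAbs_pos.2 (leadingCoeff_ne_zero.2 hP0)) h1
    omega
  set Q : (ZMod q)[X] := P.map (Int.castRingHom (ZMod q)) with hQ
  have hdeg : Q.natDegree = P.natDegree :=
    natDegree_map_of_leadingCoeff_ne_zero _ (by simpa using hlc)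
  have hd : (Q.natDegree : ZMod q) ≠ 0 := by
    rw [hdeg]
    intro h0
    rw [ZMod.natCast_eq_zero_iff] at h0
    have := Nat.le_of_dvd hP h0
    omega
  obtain ⟨w, y, hy⟩ := curve_point q hk Q (by rw [hdeg]; exact hP) hd n (by rw [hdeg]; omega)
  refine ⟨w, y, fun i => ?_⟩
  rw [← derivative_map]
  exact hy i

end Pool.Agent.W_cae956_st
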